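import Pool.Agent.WFT.Defs

/-!
# MP_7dd379_ag: the statements of the modules
-/

namespace Pool.Agent.WFT

universe u

open IsLocalRing Polynomial

/-- PHI: generator of the Cartier maps of `k[[x]]`, `k` F-finite. -/
def StmtPhi : Prop :=
  ∀ (p : ℕ) [Fact p.Prime] (d : ℕ) (k : Type u) [Field k] [CharP k p], FFin k p →
    ∀ e : ℕ, ∃ G : CartierGen (PS d k) (p ^ e), GoodGen G

/-- DUAL: Cartier maps of `T` in terms of the generator of `A`. -/
def StmtDual : Prop :=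
  ∀ (p : ℕ) [Fact p.Prime] (e : ℕ) (A T K L : Type u) [CommRing A] [IsDomain A] [CharP A p]
    [CommRing T] [IsDomain T] [IsNoetherianRing T] [IsIntegrallyClosed T]
    [Algebra A T] [Module.Finite A T] [Module.Free A T]
    [Field K] [Algebra A K] [IsFractionRing A K] [Field L] [Algebra T L] [IsFractionRing T L]
    [Algebra K L] [Algebra A L] [IsScalarTower A T L] [IsScalarTower A K L]
    (G : CartierGen A (p ^ e)) (ΦK : K →+ K), IsCartier (p ^ e) ΦK →
    (∀ a, ΦK (algebraMap A K a) = algebraMap A K (G.Φ a)) →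
    ∀ lam : L →ₗ[K] K, lam ≠ 0 → ∀ W : Submodule T L,
    (∀ y, y ∈ W ↔ ∀ t : T, lam (y * algebraMap T L t) ∈ (algebraMap A K).range) →
    (∀ φ : T →+ T, IsCartier (p ^ e) φ → ∃ h : L,
      (∀ t, lam (algebraMap T L (φ t)) = ΦK (lam (h * algebraMap T L t))) ∧
      ∀ y ∈ W ^ (p ^ e - 1), InT T (h * y)) ∧
    (∀ h : L, (∀ y ∈ W ^ (p ^ e - 1), InT T (h * y)) → ∃ φ : T →+ T, IsCartier (p ^ e) φ ∧
      ∀ t, lam (algebraMap T L (φ t)) = ΦK (lam (h * algebraMap T L t)))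

/-- FRAC: a Cartier map extends uniquely to the fraction field. -/
def StmtFrac : Prop :=
  ∀ (q : ℕ), 0 < q → ∀ (A K : Type u) [CommRing A] [IsDomain A] [Field K] [Algebra A K]
    [IsFractionRing A K] (φ : A →+ A), IsCartier q φ →
    ∃! ψ : K →+ K, IsCartier q ψ ∧ ∀ a, ψ (algebraMap A K a) = algebraMap A K (φ a)

/-- CLASS: the class of the dual module does not depend on the Noether normalisation, up to
torsion. -/
def StmtClass : Prop :=
  ∀ (p : ℕ) [Fact p.Prime] (d d' : ℕ) (k k' T L : Type u) [Field k] [CharP k p] [Field k']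
    [CharP k' p] [CommRing T] [IsDomain T] [IsNoetherianRing T] [IsIntegrallyClosed T]
    [Field L] [Algebra T L] [IsFractionRing T L]
    [Algebra (PS d k) T] [Module.Finite (PS d k) T] [Module.Free (PS d k) T]
    [Algebra (PS d' k') T] [Module.Finite (PS d' k') T] [Module.Free (PS d' k') T],
    FFin k p → FFin k' p → ∀ W W' : Submodule T L, IsDual (PS d k) T W → IsDual (PS d' k') T W' →
    ∀ m : ℕ, 1 ≤ m → PrinPow W' m → ∃ n : ℕ, 1 ≤ n ∧ PrinPow W n

/-- UNIQ: two dual submodules differ by a scalar. -/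
def StmtUniq : Prop :=
  ∀ (A T L : Type u) [CommRing A] [CommRing T] [IsDomain T] [Algebra A T] [Field L] [Algebra T L]
    [IsFractionRing T L] (W W' : Submodule T L), IsDual A T W → IsDual A T W' → W ≠ ⊥ →
    ∃ c : L, c ≠ 0 ∧ ∀ x, x ∈ W' ↔ ∃ w ∈ W, x = c * w

/-- DESC: descent of principality along a flat local homomorphism. -/
def StmtDesc : Prop :=
  ∀ (R T K L : Type u) [CommRing R] [IsDomain R] [IsNoetherianRing R] [IsLocalRing R]
    [CommRing T] [IsDomain T] [IsNoetherianRing T] [IsLocalRing T]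
    [Algebra R T] [Module.Flat R T] [IsLocalHom (algebraMap R T)]
    [Field K] [Algebra R K] [IsFractionRing R K] [Field L] [Algebra T L] [IsFractionRing T L]
    (I : Ideal R), I ≠ ⊥ → ∀ n : ℕ,
    PrinPow (IsLocalization.coeSubmodule L (I.map (algebraMap R T))) n →
    PrinPow (IsLocalization.coeSubmodule K I) n

/-- EXT: Cartier maps extend to the completion. -/
def StmtExt : Prop :=
  ∀ (R : Type u) [CommRing R] [IsLocalRing R] [IsNoetherianRing R] (q : ℕ), 0 < q →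
    ∀ φ : R →+ R, IsCartier q φ →
    ∃ ψ : AdicCompletion (maximalIdeal R) R →+ AdicCompletion (maximalIdeal R) R,
      IsCartier q ψ ∧ ∀ r, ψ (algebraMap R _ r) = algebraMap R _ (φ r)

/-- DIM: `m ^ (δ q + C) ⊆ m^[q]`. -/
def StmtDim : Prop :=
  ∀ (p : ℕ) [Fact p.Prime] (δ : ℕ) (R : Type u) [CommRing R] [IsNoetherianRing R] [IsLocalRing R]
    [CharP R p], Infinite (ResidueField R) → ringKrullDim R ≤ δ →
    ∃ C : ℕ, ∀ e : ℕ, maximalIdeal R ^ (δ * p ^ e + C) ≤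
      Ideal.span ((fun x => x ^ p ^ e) '' (maximalIdeal R : Set R))

/-- SFR1 -/
def StmtSFR1 : Prop :=
  ∀ (p : ℕ) [Fact p.Prime] (d : ℕ) (R : Type u) [CommRing R] [IsDomain R] [IsNoetherianRing R]
    [IsLocalRing R] [IsIntegrallyClosed R] [CharP R p], FFin R p → Infinite (ResidueField R) →
    ringKrullDim R = d → 2 ≤ d →
    (∀ C : ℕ, ∃ e N : ℕ, (d - 2) * p ^ e + C ≤ N ∧ HasSplit R (p ^ e) N) → SFR R p

/-- SFR2 -/
def StmtSFR2 : Prop :=
  ∀ (p : ℕ) [Fact p.Prime] (R : Type u) [CommRing R] [IsDomain R] [IsNoetherianRing R]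
    [IsLocalRing R] [CharP R p], FFin R p → SFR R p →
    IsDomain (AdicCompletion (maximalIdeal R) R) ∧ SFR (AdicCompletion (maximalIdeal R) R) p

/-- SFR rings are normal -/
def StmtSFRNormal : Prop :=
  ∀ (p : ℕ) [Fact p.Prime] (T : Type u) [CommRing T] [IsDomain T] [IsNoetherianRing T]
    [CharP T p], SFR T p → IsIntegrallyClosed T

/-- RU: the ring `R(u)`. -/
def StmtRu : Prop :=
  ∀ (p : ℕ) [Fact p.Prime] (R : Type u) [CommRing R] [IsDomain R] [IsNoetherianRing R]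
    [IsLocalRing R] [IsIntegrallyClosed R] [CharP R p], FFin R p →
    ∃ (R₁ : Type u) (_ : CommRing R₁) (_ : IsDomain R₁) (_ : IsNoetherianRing R₁)
      (_ : IsLocalRing R₁) (_ : IsIntegrallyClosed R₁) (_ : CharP R₁ p) (_ : Algebra R R₁) (x : R₁),
      Module.Flat R R₁ ∧ IsLocalHom (algebraMap R R₁) ∧
      (maximalIdeal R).map (algebraMap R R₁) = maximalIdeal R₁ ∧
      Infinite (ResidueField R₁) ∧ ringKrullDim R₁ = ringKrullDim R ∧ FFin R₁ p ∧
      (∀ (q : ℕ) (φ : R →+ R), 0 < q → IsCartier q φ → ∃ φ₁ : R₁ →+ R₁, IsCartier q φ₁ ∧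
        ∀ r, φ₁ (algebraMap R R₁ r) = algebraMap R R₁ (φ r)) ∧
      (∀ y : R₁, ∃ f g : R[X], IsUnit (aeval x g) ∧ y * aeval x g = aeval x f) ∧
      (∀ g : R[X], IsUnit (aeval x g) ↔ ∃ i, g.coeff i ∉ maximalIdeal R)

/-- FREE -/
def StmtFree : Prop :=
  ∀ (p : ℕ) [Fact p.Prime] (d : ℕ) (k T : Type u) [Field k] [CharP k p] [CommRing T] [IsDomain T]
    [IsNoetherianRing T] [Algebra (PS d k) T] [Module.Finite (PS d k) T],
    Function.Injective (algebraMap (PS d k) T) → SFR T p →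
    ∀ (n : ℕ) (v : Fin n → T),
    (∀ t : T, ∃ c : Fin n → PS d k,
      t - ∑ i, c i • v i ∈ (maximalIdeal (PS d k)).map (algebraMap (PS d k) T)) →
    (∀ c : Fin n → PS d k,
      ∑ i, c i • v i ∈ (maximalIdeal (PS d k)).map (algebraMap (PS d k) T) →
      ∀ i, c i ∈ maximalIdeal (PS d k)) →
    LinearIndependent (PS d k) v ∧ Submodule.span (PS d k) (Set.range v) = ⊤

/-- MINMULT -/
def StmtMinMult : Prop :=
  ∀ (p : ℕ) [Fact p.Prime] (d : ℕ) (k T : Type u) [Field k] [CharP k p] [CommRing T] [IsDomain T]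
    [IsNoetherianRing T] [IsLocalRing T] [Algebra (PS d k) T] [Module.Finite (PS d k) T],
    Function.Injective (algebraMap (PS d k) T) → SFR T p →
    (∀ t : T, ∃ c : k, t - algebraMap (PS d k) T (MvPowerSeries.C c) ∈ maximalIdeal T) →
    (∃ n : ℕ, maximalIdeal T ^ (n + 1) =
      (maximalIdeal (PS d k)).map (algebraMap (PS d k) T) * maximalIdeal T ^ n) →
    2 ≤ d → (∀ C : ℕ, ∃ e N : ℕ, (d - 2) * p ^ e + C ≤ N ∧ HasSplit T (p ^ e) N) →
    MM d k T

/-- UFD -/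
def StmtUFD : Prop :=
  ∀ (k : Type u) [Field k] [Infinite k] (n : ℕ), UniqueFactorizationMonoid (PS n k)

/-- NORM: rank at least four is impossible. -/
def StmtNorm : Prop :=
  ∀ (p : ℕ) [Fact p.Prime] (d : ℕ), 3 ≤ d → ∀ (k T : Type u) [Field k] [Infinite k] [CharP k p]
    [CommRing T] [IsDomain T] [IsLocalRing T] [IsNoetherianRing T] [IsIntegrallyClosed T]
    [Algebra (PS d k) T] [Module.Finite (PS d k) T] [Module.Free (PS d k) T],
    FFin k p → MM d k T → 4 ≤ Module.finrank (PS d k) T → ¬ Big T p d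

/-- RANK2 -/
def StmtRankTwo : Prop :=
  ∀ (d : ℕ) (k T L : Type u) [Field k]
    [CommRing T] [IsDomain T] [IsLocalRing T] [IsNoetherianRing T] [Field L] [Algebra T L]
    [IsFractionRing T L]
    [Algebra (PS d k) T] [Module.Finite (PS d k) T] [Module.Free (PS d k) T],
    MM d k T → Module.finrank (PS d k) T ≤ 2 → ∀ W : Submodule T L, IsDual (PS d k) T W →
    PrinPow W 1

/-- CUBIC -/
def StmtCubic : Prop :=
  ∀ (d : ℕ) (k T : Type u) [Field k]
    [CommRing T] [IsDomain T] [IsLocalRing T] [IsNoetherianRing T]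
    [Algebra (PS d k) T] [Module.Finite (PS d k) T] [Module.Free (PS d k) T],
    MM d k T → Module.finrank (PS d k) T = 3 → ∃ S : Cubic (PS d k) T,
    S.α ∈ maximalIdeal T ∧ S.β ∈ maximalIdeal T ∧ S.a ∈ maximalIdeal (PS d k) ∧
    S.b ∈ maximalIdeal (PS d k) ∧ S.c ∈ maximalIdeal (PS d k) ∧ S.d ∈ maximalIdeal (PS d k)

/-- KER: `F` is prime and generates the kernel of `A[X] → L`, `X ↦ θ`. -/
def StmtKer : Prop :=
  ∀ (A T L : Type u) [CommRing A] [IsDomain A] [UniqueFactorizationMonoid A] [IsNoetherianRing A]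
    [CommRing T] [IsDomain T] [IsIntegrallyClosed T] [Algebra A T] [Field L] [Algebra T L]
    [IsFractionRing T L] [Algebra A L] [IsScalarTower A T L] (S : Cubic A T) (θ : L),
    IsTheta S θ → Prime S.F ∧ ∀ g : A[X], aeval θ g = 0 → S.F ∣ g

/-- OMEGA3: the dual of a cubic algebra. -/
def StmtOmega3 : Prop :=
  ∀ (A T L : Type u) [CommRing A] [IsDomain A]
    [CommRing T] [IsDomain T] [Algebra A T] [Field L] [Algebra T L]
    [IsFractionRing T L] (S : Cubic A T) (θ : L),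
    IsTheta S θ → IsDual A T (Submodule.span T {1, θ} : Submodule T L)

/-- FEDDER -/
def StmtFedder : Prop :=
  ∀ (p : ℕ) [Fact p.Prime] (d : ℕ) (k T L : Type u) [Field k] [Infinite k] [CharP k p]
    [CommRing T] [IsDomain T] [IsLocalRing T] [IsNoetherianRing T] [IsIntegrallyClosed T]
    [Algebra (PS d k) T] [Module.Finite (PS d k) T] [Module.Free (PS d k) T] [Field L]
    [Algebra T L] [IsFractionRing T L] [Algebra (PS d k) L] [IsScalarTower (PS d k) T L],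
    FFin k p → MM d k T → ∀ (S : Cubic (PS d k) T) (θ : L), IsTheta S θ →
    S.a ∈ maximalIdeal (PS d k) → S.b ∈ maximalIdeal (PS d k) → S.c ∈ maximalIdeal (PS d k) →
    S.d ∈ maximalIdeal (PS d k) → ∀ e N : ℕ, HasSplit T (p ^ e) N →
    ∃ r : L, r ≠ 0 ∧ (∀ i ≤ p ^ e - 1, InT T (r * θ ^ i)) ∧
    ∀ j n : ℕ, (∀ i, S.F.coeff i ∈ maximalIdeal (PS d k) ^ j) → OrdGe (A := PS d k) θ r n →
      j * (p ^ e - 1) + n + N ≤ d * (p ^ e - 1)

/-- the dichotomy in the cubic case -/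
def Dich (A T : Type*) {L : Type*} [CommRing A] [IsLocalRing A] [CommRing T] [Field L]
    [Algebra T L] [Algebra A L] (θ : L) : Prop :=
  (∃ m : ℕ, 1 ≤ m ∧ PrinPow (Submodule.span T {1, θ} : Submodule T L) m) ∨
  ∀ r : L, r ≠ 0 → ∀ j : ℕ, (∀ i ≤ j, InT T (r * θ ^ i)) → ∃ n : ℕ, j ≤ 2 * n ∧
    OrdGe (A := A) θ r n

/-- TDICH -/
def StmtDich : Prop :=
  ∀ (d : ℕ) (k T L : Type u) [Field k] [Infinite k]
    [CommRing T] [IsDomain T] [IsLocalRing T] [IsNoetherianRing T] [IsIntegrallyClosed T]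
    [Algebra (PS d k) T] [Module.Finite (PS d k) T] [Module.Free (PS d k) T] [Field L]
    [Algebra T L] [IsFractionRing T L] [Algebra (PS d k) L] [IsScalarTower (PS d k) T L],
    2 ≤ d → MM d k T → ∀ (S : Cubic (PS d k) T) (θ : L), IsTheta S θ →
    S.α ∈ maximalIdeal T → S.β ∈ maximalIdeal T →
    S.a ∈ maximalIdeal (PS d k) → S.b ∈ maximalIdeal (PS d k) → S.c ∈ maximalIdeal (PS d k) →
    S.d ∈ maximalIdeal (PS d k) → (∃ i, S.F.coeff i ∉ maximalIdeal (PS d k) ^ 2) →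
    Dich (PS d k) T θ

/-! ### the parts of TDICH -/

section Dich

variable {k : Type u} [Field k]

/-- `A[X] → κ[[x]]`, `κ = k(X)`. -/
noncomputable def emb (d : ℕ) (k : Type u) [Field k] : (PS d k)[X] →+* PS d (RatFunc k) :=
  Polynomial.eval₂RingHom (MvPowerSeries.map (algebraMap k (RatFunc k)))
    (MvPowerSeries.C RatFunc.X)

/-- TOOLD -/
def StmtToolD : Prop :=
  ∀ (d : ℕ) (k : Type u) [Field k] (F : (PS d k)[X]), Prime F →
    (∀ i, F.coeff i ∈ maximalIdeal (PS d k)) →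
    (∀ g : (PS d k)[X], emb d k g ∈ Ideal.span {emb d k F} → F ∣ g) ∧
    (∀ (g : (PS d k)[X]) (n : ℕ), emb d k g ∈ maximalIdeal (PS d (RatFunc k)) ^ n ⊔
      Ideal.span {emb d k F} → ∃ (v : k[X]) (h w : (PS d k)[X]), v ≠ 0 ∧
      (∀ i, h.coeff i ∈ maximalIdeal (PS d k) ^ n) ∧
      v.map MvPowerSeries.C * g = h + F * w)

/-- COORD: complete local rings with `n` generators of the maximal ideal and dimension at least
`n` are power series rings. -/
def StmtCoord : Prop :=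
  ∀ (n : ℕ) (κ D : Type u) [Field κ] [CommRing D] [IsLocalRing D] [IsNoetherianRing D]
    [IsAdicComplete (maximalIdeal D) D] (σ : κ →+* D),
    (∀ x : D, ∃ a : κ, x - σ a ∈ maximalIdeal D) → ∀ w : Fin n → D,
    Ideal.span (Set.range w) = maximalIdeal D → (n : WithBot ℕ∞) ≤ ringKrullDim D →
    ∃ e : PS n κ ≃+* D, (∀ a, e (MvPowerSeries.C a) = σ a) ∧ ∀ i, e (MvPowerSeries.X i) = w i

/-- linear coefficient -/
noncomputable def linc {d : ℕ} (i : Fin d) (x : PS d k) : k :=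
  MvPowerSeries.coeff (Finsupp.single i 1) x

/-- coefficient of `x_i` in the linear part of `F` -/
noncomputable def linPoly {d : ℕ} {T : Type u} [CommRing T] [Algebra (PS d k) T]
    (S : Cubic (PS d k) T) (i : Fin d) : k[X] :=
  C (linc i S.a) + C (linc i S.b) * X + C (linc i S.c) * X ^ 2 + C (linc i S.d) * X ^ 3

/-- POLE: the case where the linear part of `F` has a factor of degree `ℓ ≥ 2` over `k`. -/
def StmtPole : Prop :=
  ∀ (d : ℕ) (k T L : Type u) [Field k] [Infinite k]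
    [CommRing T] [IsDomain T] [IsLocalRing T] [IsNoetherianRing T] [IsIntegrallyClosed T]
    [Algebra (PS d k) T] [Module.Finite (PS d k) T] [Module.Free (PS d k) T] [Field L]
    [Algebra T L] [IsFractionRing T L] [Algebra (PS d k) L] [IsScalarTower (PS d k) T L],
    2 ≤ d → ∀ (S : Cubic (PS d k) T) (θ : L), IsTheta S θ → Prime S.F →
    (∀ g : (PS d k)[X], aeval θ g = 0 → S.F ∣ g) →
    S.a ∈ maximalIdeal (PS d k) → S.b ∈ maximalIdeal (PS d k) → S.c ∈ maximalIdeal (PS d k) →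
    S.d ∈ maximalIdeal (PS d k) →
    ∀ (ℓ : ℕ), (ℓ = 2 ∨ ℓ = 3) → ∀ (G : k[X]) (g : Fin d → k[X]), G ≠ 0 → G.natDegree ≤ ℓ →
    (∀ i, (g i).natDegree ≤ 3 - ℓ) → (∀ i, linPoly S i = G * g i) →
    Ideal.span (Set.range g) = ⊤ → (∃ i, (g i).coeff (3 - ℓ) ≠ 0) →
    ∀ r : L, r ≠ 0 → ∀ j : ℕ, InT T r → InT T (r * θ ^ j) →
    ∃ n : ℕ, j ≤ 2 * n ∧ OrdGe (A := PS d k) θ r n

/-- the generators of the ring in KEY: `Z, s, Z/θ, (Z/θ + a)/θ, θ P` -/
def keySet {m : ℕ} (a P : PS (m + 1) k) : Set (PS (m + 1) (RatFunc k)) :=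
  Set.range (fun i => (MvPowerSeries.X i : PS (m + 1) (RatFunc k))) ∪
  {MvPowerSeries.C (RatFunc.X)⁻¹ * MvPowerSeries.X 0,
   MvPowerSeries.C (RatFunc.X)⁻¹ * (MvPowerSeries.C (RatFunc.X)⁻¹ * MvPowerSeries.X 0 +
      MvPowerSeries.map (algebraMap k (RatFunc k)) a),
   MvPowerSeries.C RatFunc.X * MvPowerSeries.map (algebraMap k (RatFunc k)) P}

/-- adherence to the subalgebra generated by `keySet` -/
def Adh {m : ℕ} (a P : PS (m + 1) k) (r : PS (m + 1) (RatFunc k)) : Prop :=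
  ∀ n : ℕ, ∃ f ∈ Algebra.adjoin k (keySet a P), ∀ ν : Fin (m + 1) →₀ ℕ, ν.degree < n →
    MvPowerSeries.coeff ν (r - f) = 0

/-- KEY for `m` variables `s` -/
def KeyFor (m : ℕ) (k : Type u) [Field k] : Prop :=
  ∀ a P : PS (m + 1) k, (∀ ν, MvPowerSeries.coeff ν a ≠ 0 → ν 0 = 0) →
    MvPowerSeries.constantCoeff a = 0 → MvPowerSeries.constantCoeff P = 0 →
    ¬ (a = 0 ∧ ∃ (μ : ℕ) (v : PS (m + 1) k), IsUnit v ∧ P = v * MvPowerSeries.X 0 ^ μ) →
    ∀ r : PS (m + 1) (RatFunc k), r ≠ 0 → ∀ j : ℕ, Adh a P r →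
    Adh a P (MvPowerSeries.C (RatFunc.X ^ j) * r) → (j : ℕ∞) ≤ 2 * r.order

/-- KEY1 (one variable `s`) -/
def StmtKey1 : Prop := ∀ (k : Type u) [Field k], KeyFor 1 k

/-- KEY: several variables -/
def StmtKey : Prop := ∀ (k : Type u) [Field k] [Infinite k] (m : ℕ), KeyFor m k

/-- normal form of `T` -/
structure NF (k T : Type u) {L : Type u} (m : ℕ) [Field k] [CommRing T] [IsLocalRing T]
    [Field L] [Algebra T L] (θ : L) (σ : k →+* T) where
  Z : T
  z₁ : T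
  z₀ : T
  z₃ : T
  s : Fin m → T
  a : PS (m + 1) k
  P : PS (m + 1) k
  /-- evaluation at `(Z, s)` -/
  ev : PS (m + 1) k →+* T
  ev_C : ∀ c, ev (MvPowerSeries.C c) = σ c
  ev_zero : ev (MvPowerSeries.X 0) = Z
  ev_succ : ∀ i : Fin m, ev (MvPowerSeries.X i.succ) = s i
  gen : maximalIdeal T = Ideal.span (Set.range s ∪ {z₀, z₁, Z, z₃})
  ha : ∀ ν, MvPowerSeries.coeff ν a ≠ 0 → ν 0 = 0
  ha0 : MvPowerSeries.constantCoeff a = 0
  hP0 : MvPowerSeries.constantCoeff P = 0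
  rel0 : θ * algebraMap T L z₀ = algebraMap T L (z₁ + ev a)
  rel1 : θ * algebraMap T L z₁ = algebraMap T L Z
  rel3 : θ * algebraMap T L (ev P) = algebraMap T L z₃

/-- STEP: from the first approximation to the normal form. -/
def StmtStep : Prop :=
  ∀ (m : ℕ) (k T L : Type u) [Field k] [CommRing T] [IsDomain T] [IsLocalRing T]
    [IsNoetherianRing T] [IsAdicComplete (maximalIdeal T) T] [Field L] [Algebra T L]
    [IsFractionRing T L] (σ : k →+* T), (∀ t : T, ∃ c : k, t - σ c ∈ maximalIdeal T) →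
    ∀ (θ : L) (s : Fin m → T) (u₁ u₂ u₃ v₁ v₂ v₃ : T),
    θ * algebraMap T L u₁ = algebraMap T L v₁ → θ * algebraMap T L u₂ = algebraMap T L v₂ →
    θ * algebraMap T L u₃ = algebraMap T L v₃ → u₁ ≠ 0 →
    (∀ c ∈ maximalIdeal T, algebraMap T L c * θ ≠ 1) →
    maximalIdeal T = Ideal.span (Set.range s ∪ {u₁, v₁, v₂, v₃}) →
    u₂ - v₁ ∈ Ideal.span (Set.range s) ⊔ maximalIdeal T ^ 2 →
    u₃ ∈ Ideal.span (Set.range s ∪ {v₂}) ⊔ maximalIdeal T ^ 2 →
    ∃ (c : T) (θ' : L), c ∈ maximalIdeal T ∧ θ' * (1 - algebraMap T L c * θ) = θ ∧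
      Nonempty (NF k T m θ' σ)

/-- LINALG: the first approximation, from a coprime pair in the linear part of `F`. -/
def StmtLinalg : Prop :=
  ∀ (m d : ℕ) (k T L : Type u) [Field k]
    [CommRing T] [IsDomain T] [IsLocalRing T] [IsNoetherianRing T]
    [Algebra (PS d k) T] [Module.Finite (PS d k) T] [Field L]
    [Algebra T L] [IsFractionRing T L] [Algebra (PS d k) L] [IsScalarTower (PS d k) T L],
    MM d k T → ∀ (S : Cubic (PS d k) T) (θ : L), IsTheta S θ →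
    S.α ∈ maximalIdeal T → S.β ∈ maximalIdeal T → ∀ (y₁ y₂ : PS d k) (s : Fin m → PS d k)
    (a₁ a₂ b₁ b₂ c₁ c₂ d₁ d₂ : k),
    maximalIdeal (PS d k) = Ideal.span (Set.range s ∪ {y₁, y₂}) →
    S.a - MvPowerSeries.C a₁ * y₁ - MvPowerSeries.C a₂ * y₂ ∈
      Ideal.span (Set.range s) ⊔ maximalIdeal (PS d k) ^ 2 →
    S.b - MvPowerSeries.C b₁ * y₁ - MvPowerSeries.C b₂ * y₂ ∈
      Ideal.span (Set.range s) ⊔ maximalIdeal (PS d k) ^ 2 →
    S.c - MvPowerSeries.C c₁ * y₁ - MvPowerSeries.C c₂ * y₂ ∈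
      Ideal.span (Set.range s) ⊔ maximalIdeal (PS d k) ^ 2 →
    S.d - MvPowerSeries.C d₁ * y₁ - MvPowerSeries.C d₂ * y₂ ∈
      Ideal.span (Set.range s) ⊔ maximalIdeal (PS d k) ^ 2 →
    ((IsCoprime (C a₁ + C b₁ * X + C c₁ * X ^ 2 + C d₁ * X ^ 3 : k[X])
        (C a₂ + C b₂ * X + C c₂ * X ^ 2 + C d₂ * X ^ 3) ∧ (d₁ ≠ 0 ∨ d₂ ≠ 0)) ∨
     (IsCoprime (C a₁ + C b₁ * X + C c₁ * X ^ 2 : k[X])
        (C a₂ + C b₂ * X + C c₂ * X ^ 2) ∧ (c₁ ≠ 0 ∨ c₂ ≠ 0) ∧ d₁ = 0 ∧ d₂ = 0)) →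
    ∃ u₁ u₂ u₃ v₁ v₂ v₃ : T,
    θ * algebraMap T L u₁ = algebraMap T L v₁ ∧ θ * algebraMap T L u₂ = algebraMap T L v₂ ∧
    θ * algebraMap T L u₃ = algebraMap T L v₃ ∧ u₁ ≠ 0 ∧
    maximalIdeal T = Ideal.span (Set.range (fun i => algebraMap (PS d k) T (s i)) ∪
      {u₁, v₁, v₂, v₃}) ∧
    u₂ - v₁ ∈ Ideal.span (Set.range (fun i => algebraMap (PS d k) T (s i))) ⊔
      maximalIdeal T ^ 2 ∧
    u₃ ∈ Ideal.span (Set.range (fun i => algebraMap (PS d k) T (s i)) ∪ {v₂}) ⊔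
      maximalIdeal T ^ 2

/-- TRIV: the excluded case of KEY gives a principal power of `ω`. -/
def StmtTriv : Prop :=
  ∀ (m d : ℕ) (k T L : Type u) [Field k] [Infinite k]
    [CommRing T] [IsDomain T] [IsLocalRing T] [IsNoetherianRing T] [IsIntegrallyClosed T]
    [Algebra (PS d k) T] [Module.Finite (PS d k) T] [Module.Free (PS d k) T] [Field L]
    [Algebra T L] [IsFractionRing T L] (θ : L) (σ : k →+* T) (N : NF k T m θ σ),
    m + 2 = d → N.a = 0 → (∃ (μ : ℕ) (v : PS (m + 1) k), IsUnit v ∧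
      N.P = v * MvPowerSeries.X 0 ^ μ) →
    ∃ n : ℕ, 1 ≤ n ∧ PrinPow (Submodule.span T {1, θ} : Submodule T L) n

end Dich

/-! ### the canonical class of the completion of `R(u)` -/

/-- CPT: `T` is the completion of `R₁ = R(u)`; a canonical ideal of `R` extends to the dual of `T`
over a power series ring. -/
def StmtCPT : Prop :=
  ∀ (p : ℕ) [Fact p.Prime] (R R₁ : Type u) [CommRing R] [IsDomain R] [IsNoetherianRing R]
    [IsLocalRing R] [CharP R p] [CommRing R₁] [IsDomain R₁] [IsNoetherianRing R₁] [IsLocalRing R₁]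
    [CharP R₁ p] [Algebra R R₁] [Module.Flat R R₁] [IsLocalHom (algebraMap R R₁)] (x : R₁),
    FFin R p → FFin R₁ p →
    (maximalIdeal R).map (algebraMap R R₁) = maximalIdeal R₁ →
    (∀ y : R₁, ∃ f g : R[X], IsUnit (aeval x g) ∧ y * aeval x g = aeval x f) →
    (∀ g : R[X], IsUnit (aeval x g) ↔ ∃ i, g.coeff i ∉ maximalIdeal R) →
    IsDomain (AdicCompletion (maximalIdeal R₁) R₁) →
    SFR (AdicCompletion (maximalIdeal R₁) R₁) p →
    ∀ (I : Ideal R) (n : ℕ) (k' : Type u) [Field k']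
      [Algebra (PS n k') (AdicCompletion (maximalIdeal R) R)]
      [Module.Finite (PS n k') (AdicCompletion (maximalIdeal R) R)],
    Function.Injective (algebraMap (PS n k') (AdicCompletion (maximalIdeal R) R)) →
    IsDual (PS n k') (AdicCompletion (maximalIdeal R) R)
      (I.map (algebraMap R (AdicCompletion (maximalIdeal R) R))) →
    ∃ (k'' : Type u) (_ : Field k'') (_ : CharP k'' p)
      (_ : Algebra (PS n k'') (AdicCompletion (maximalIdeal R₁) R₁)),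
      FFin k'' p ∧ Module.Finite (PS n k'') (AdicCompletion (maximalIdeal R₁) R₁) ∧
      Module.Free (PS n k'') (AdicCompletion (maximalIdeal R₁) R₁) ∧
      IsDual (PS n k'') (AdicCompletion (maximalIdeal R₁) R₁)
        ((I.map (algebraMap R R₁)).map (algebraMap R₁ (AdicCompletion (maximalIdeal R₁) R₁)))

end Pool.Agent.WFT
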