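import Mathlib

/-!
# MP_7dd379_ag: common definitions

`PS d k` is the power series ring in `d` variables.  `IsCartier q φ`: `φ (r ^ q z) = r φ z`.
-/

namespace Pool.Agent.WFT

universe u v

open IsLocalRing

/-- additive map with `φ (r ^ q * z) = r * φ z` -/
def IsCartier {R : Type*} [CommRing R] (q : ℕ) (φ : R →+ R) : Prop :=
  ∀ r z, φ (r ^ q * z) = r * φ z

/-- there is `f ∈ m ^ N` and a `q`-Cartier map with `φ f = 1` -/
def HasSplit (R : Type*) [CommRing R] [IsLocalRing R] (q N : ℕ) : Prop :=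
  ∃ f ∈ maximalIdeal R ^ N, ∃ φ : R →+ R, IsCartier q φ ∧ φ f = 1

/-- strong F-regularity -/
def SFR (R : Type*) [CommRing R] (p : ℕ) : Prop :=
  ∀ c : R, c ≠ 0 → ∃ e : ℕ, ∃ φ : R →+ R, IsCartier (p ^ e) φ ∧ φ c = 1

/-- F-finiteness -/
def FFin (R : Type*) [CommRing R] (p : ℕ) [ExpChar R p] : Prop := (frobenius R p).Finite

/-- asymptotic splitting with slope more than `d - 3/2` -/
def Big (R : Type*) [CommRing R] [IsLocalRing R] (p d : ℕ) : Prop :=
  ∀ C : ℕ, ∃ e N : ℕ, (2 * d - 3) * p ^ e + C ≤ 2 * N ∧ HasSplit R (p ^ e) N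

/-- power series ring -/
abbrev PS (d : ℕ) (k : Type*) := MvPowerSeries (Fin d) k

/-- `M` is isomorphic to the `T`-module `Hom_A(T, A)` -/
def IsDual (A T M : Type*) [CommRing A] [CommRing T] [Algebra A T] [AddCommGroup M] [Module T M] :
    Prop :=
  ∃ ε : M ≃+ (T →ₗ[A] A), ∀ (t : T) (w : M) (x : T), ε (t • w) x = ε w (t * x)

/-- `1 / I ^ n = {x | x I ^ n ⊆ T}` is principal -/
def PrinPow {T L : Type*} [CommRing T] [Field L] [Algebra T L] (I : Submodule T L) (n : ℕ) : Prop :=
  ∃ c : L, (1 : Submodule T L) / I ^ n = Submodule.span T {c}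

/-- A generator of the Cartier maps of level `q` with a finite dual family. -/
structure CartierGen (A : Type*) [CommRing A] (q : ℕ) where
  /-- the generator -/
  Φ : A →+ A
  cartier : IsCartier q Φ
  /-- index type of the dual family -/
  ι : Type
  fin : Fintype ι
  /-- basis of `F_* A` -/
  b : ι → A
  /-- dual basis -/
  b' : ι → A
  dual : ∀ z, z = ∑ i, Φ (z * b' i) ^ q * b i
  ne : Φ ≠ 0

/-- the order bound for the generator on `PS d k` -/
def GoodGen {d : ℕ} {k : Type*} [Field k] {q : ℕ} (G : CartierGen (PS d k) q) : Prop :=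
  ∀ i j : ℕ, d * (q - 1) + q * i < j → ∀ z ∈ maximalIdeal (PS d k) ^ j,
    G.Φ z ∈ maximalIdeal (PS d k) ^ (i + 1)

/-- the finite algebra `A → T` (with `A = PS d k`) has trivial residue field extension and
`m_T ^ 2 ⊆ m_A m_T` -/
structure MM (d : ℕ) (k T : Type*) [Field k] [CommRing T] [IsLocalRing T] [Algebra (PS d k) T] :
    Prop where
  res : ∀ t : T, ∃ c : k, t - algebraMap (PS d k) T (MvPowerSeries.C c) ∈ maximalIdeal T
  sq : maximalIdeal T ^ 2 ≤ (maximalIdeal (PS d k)).map (algebraMap (PS d k) T) * maximalIdeal T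
  loc : (maximalIdeal (PS d k)).map (algebraMap (PS d k) T) ≤ maximalIdeal T

/-- a cubic algebra in Delone-Faddeev form -/
structure Cubic (A T : Type*) [CommRing A] [CommRing T] [Algebra A T] where
  α : T
  β : T
  a : A
  b : A
  c : A
  d : A
  /-- `1, α, β` is a basis -/
  repr : ∀ t : T, ∃ x : Fin 3 → A, t = algebraMap A T (x 0) + x 1 • α + x 2 • β
  indep : ∀ x : Fin 3 → A, algebraMap A T (x 0) + x 1 • α + x 2 • β = 0 → x = 0
  αα : α * α = - algebraMap A T (a * c) - b • α + a • β
  αβ : α * β = - algebraMap A T (a * d)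
  ββ : β * β = - algebraMap A T (b * d) - d • α + c • β

namespace Cubic

variable {A T : Type*} [CommRing A] [CommRing T] [Algebra A T] (S : Cubic A T)

/-- the cubic polynomial `a + bX + cX² + dX³` with `F(θ) = 0` -/
noncomputable def F : Polynomial A :=
  Polynomial.C S.a + Polynomial.C S.b * Polynomial.X + Polynomial.C S.c * Polynomial.X ^ 2 +
    Polynomial.C S.d * Polynomial.X ^ 3

end Cubic

/-- `θ = a / α = - β / d` -/
def IsTheta {A T L : Type*} [CommRing A] [CommRing T] [Algebra A T] [Field L] [Algebra T L]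
    (S : Cubic A T) (θ : L) : Prop :=
  θ * algebraMap T L S.α = algebraMap T L (algebraMap A T S.a)

/-- `r` has order at least `n` along the special fibre of `A[θ]` -/
def OrdGe {A L : Type*} [CommRing A] [IsLocalRing A] [Field L] [Algebra A L] (θ r : L) (n : ℕ) :
    Prop :=
  ∃ u g : Polynomial A, (∃ i, u.coeff i ∉ maximalIdeal A) ∧
    (∀ i, g.coeff i ∈ maximalIdeal A ^ n) ∧
    Polynomial.aeval θ u * r = Polynomial.aeval θ g

/-- the elements of `L` which lie in `T` -/
def InT (T : Type*) {L : Type*} [CommRing T] [Field L] [Algebra T L] (x : L) : Prop :=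
  x ∈ (algebraMap T L).range

end Pool.Agent.WFT
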