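import Pool.Agent.WFT.Defs

/-!
# MP_7dd379_ag: definitions of the final statement
-/

namespace Pool.Agent.WFT

universe u

open IsLocalRing

/-- The `R`-linear map `R → R^{1/q}`, `1 ↦ f^{1/q}`, splits: there is an `R`-linear map
`R^{1/q} → R` with `f^{1/q} ↦ 1`, written as an additive map `φ : R → R` with
`φ (r ^ q * z) = r * φ z` and `φ f = 1`. -/
def FrobSplits (R : Type*) [CommRing R] (q : ℕ) (f : R) : Prop :=
  ∃ φ : R →+ R, IsCartier q φ ∧ φ f = 1

/-- The pair `(R, 𝔞^t)` is F-pure. -/
def FPurePair (R : Type*) [CommRing R] (p : ℕ) (𝔞 : Ideal R) (t : ℝ) : Prop :=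
  ∃ e₀ : ℕ, ∀ e ≥ e₀, ∃ f ∈ 𝔞 ^ ⌈t * ((p : ℝ) ^ e - 1)⌉₊, FrobSplits R (p ^ e) f

/-- The F-pure threshold. -/
noncomputable def fpt (R : Type*) [CommRing R] (p : ℕ) (𝔞 : Ideal R) : ℝ :=
  sSup {t : ℝ | 0 ≤ t ∧ FPurePair R p 𝔞 t}

/-- `I` is a canonical ideal of the local ring `R`: for some power series ring
`A = k[[x_1, …, x_n]]` over which the completion of `R` is a finite faithful algebra, the extension of
`I` to the completion of `R` is isomorphic to the canonical module `Hom_A(R^, A)`. -/
def IsCanonicalIdeal (R : Type u) [CommRing R] [IsLocalRing R] (I : Ideal R) : Prop :=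
  ∃ (n : ℕ) (k : Type u) (_ : Field k)
    (_ : Algebra (PS n k) (AdicCompletion (maximalIdeal R) R)),
    Function.Injective (algebraMap (PS n k) (AdicCompletion (maximalIdeal R) R)) ∧
    Module.Finite (PS n k) (AdicCompletion (maximalIdeal R) R) ∧
    IsDual (PS n k) (AdicCompletion (maximalIdeal R) R)
      (I.map (algebraMap R (AdicCompletion (maximalIdeal R) R)))

/-- The normal local domain `R` is not `ℚ`-Gorenstein: there is a canonical ideal `I` of `R` such that
no divisorial ideal `R : I^n`, `n ≥ 1`, is principal. -/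
def NonQGorenstein (R : Type u) [CommRing R] [IsDomain R] [IsLocalRing R] : Prop :=
  ∃ I : Ideal R, IsCanonicalIdeal R I ∧
    ∀ n : ℕ, 1 ≤ n → ¬ PrinPow (IsLocalization.coeSubmodule (FractionRing R) I) n

/-- The rings of the problem: Noetherian local F-finite F-pure non-`ℚ`-Gorenstein normal domains of
characteristic `p` and Krull dimension `d`. -/
structure Admissible (R : Type u) [CommRing R] (p d : ℕ) : Prop where
  domain : IsDomain R
  noetherian : IsNoetherianRing R
  isLocal : IsLocalRing R
  normal : IsIntegrallyClosed R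
  prime : p.Prime
  char : CharP R p
  ffinite : (letI : Fact p.Prime := ⟨prime⟩; (frobenius R p).Finite)
  fpure : FrobSplits R p 1
  dim : ringKrullDim R = d
  nonQGorenstein : NonQGorenstein R

end Pool.Agent.WFT
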