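import Mathlib

/-!
MP_7dd379_ag, multiplicity 3, base degree at most 1: common definitions (the norm trick, note 910).

`A` is a normal local domain (later `k[[x_1..x_d]]`), `K = Frac A`, `L/K` a cubic extension generated
by `θ`, a root of `f = a T^3 + b T^2 + c T + e`, and the integral closure of `A` in `L` is the cubic ring
`A + A (a θ) + A (a θ^2 + b θ)`.
-/

namespace Pool.Agent.WFT

open Polynomial IsLocalRing

/-- The cubic polynomial `a T^3 + b T^2 + c T + e`. -/
noncomputable def cubicPoly {A : Type*} [CommRing A] (a b c e : A) : A[X] :=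
  C a * X ^ 3 + C b * X ^ 2 + C c * X + C e

/-- Cubic data: `L = K ⊕ K θ ⊕ K θ^2`, `f(θ) = 0`, and the integral closure of `A` in `L`
is `A + A (a θ) + A (a θ^2 + b θ)`. -/
structure CubicData (A K L : Type*) [CommRing A] [Field K] [Field L] [Algebra A K] [Algebra K L]
    [Algebra A L] (a b c e : A) (θ : L) : Prop where
  root : aeval θ (cubicPoly a b c e) = 0
  span : ∀ y : L, ∃ u v w : K,
    y = algebraMap K L u + algebraMap K L v * θ + algebraMap K L w * θ ^ 2
  indep : ∀ u v w : K,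
    algebraMap K L u + algebraMap K L v * θ + algebraMap K L w * θ ^ 2 = 0 → u = 0 ∧ v = 0 ∧ w = 0
  int_iff : ∀ y : L, IsIntegral A y ↔ ∃ u v w : A, y = algebraMap A L u
    + algebraMap A L v * (algebraMap A L a * θ)
    + algebraMap A L w * (algebraMap A L a * θ ^ 2 + algebraMap A L b * θ)

/-- `x₁, x₂` behave like two elements of a regular system of parameters: `(x₁)`, `(x₂)`, `(x₁, x₂)`
are prime, `x₂ ∉ (x₁)`, `x₁ ∉ (x₂)`, `x₁ ≠ 0`, `x₂ ≠ 0`. -/
structure RegPair {A : Type*} [CommRing A] (x₁ x₂ : A) : Prop where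
  ne₁ : x₁ ≠ 0
  ne₂ : x₂ ≠ 0
  prime₁ : (Ideal.span {x₁}).IsPrime
  prime₂ : (Ideal.span {x₂}).IsPrime
  prime₁₂ : (Ideal.span {x₁, x₂}).IsPrime
  notMem₂ : x₂ ∉ Ideal.span {x₁}
  notMem₁ : x₁ ∉ Ideal.span {x₂}

/-- `r ∈ (R : ω^n)`, `ω = (1, θ)`: all `r θ^i`, `i ≤ n`, are integral over `A`. -/
def ColonMem (A : Type*) {L : Type*} [CommRing A] [Field L] [Algebra A L] (θ : L) (n : ℕ) (r : L) :
    Prop :=
  ∀ i ≤ n, IsIntegral A (r * θ ^ i)

/-- The module `(R : ω^n)` is principal. -/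
def ColonPrincipal (A : Type*) {L : Type*} [CommRing A] [Field L] [Algebra A L] (θ : L) (n : ℕ) :
    Prop :=
  ∃ r₀ : L, r₀ ≠ 0 ∧ ∀ r : L, ColonMem A θ n r ↔ IsIntegral A (r / r₀)

/-- The order DVR of `A`, abstractly: `D` is an integrally closed domain between `A` and `K`, `π ∈ A`
is not a unit of `D`, every element of `m_A` is divisible by `π` in `D`, and every element of
`m_A ∖ m_A^2` divides `π` in `D`. -/
structure OrdRing (A D : Type*) [CommRing A] [IsLocalRing A] [CommRing D] [Algebra A D] (π : A) :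
    Prop where
  nonunit : ¬ IsUnit (algebraMap A D π)
  dvd_of_mem : ∀ y ∈ maximalIdeal A, algebraMap A D π ∣ algebraMap A D y
  dvd_of_notMem : ∀ y, y ∉ maximalIdeal A ^ 2 → algebraMap A D y ∣ algebraMap A D π

end Pool.Agent.WFT
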