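import Mathlib

/-!
# MP_7dd379_ag: cubic tables and their changes by `GL₂(k)`
-/

namespace Pool.Agent.WFT

open IsLocalRing Polynomial

/-- `1, X, Y` is a basis of `T` over `A` with the multiplication table of the binary cubic form
`(a, b, c, e)`. -/
structure Tab (A T : Type*) [CommRing A] [CommRing T] [Algebra A T] (a b c e : A) (X Y : T) :
    Prop where
  span : ∀ t : T, ∃ u v w : A, t = algebraMap A T u + v • X + w • Y
  indep : ∀ u v w : A, algebraMap A T u + v • X + w • Y = 0 → u = 0 ∧ v = 0 ∧ w = 0
  XX : X * X = - algebraMap A T (a * c) - b • X + a • Y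
  XY : X * Y = - algebraMap A T (a * e)
  YY : Y * Y = - algebraMap A T (b * e) - e • X + c • Y

namespace Tab

variable {A T : Type*} [CommRing A] [CommRing T] [Algebra A T] {a b c e : A} {X Y : T}

theorem inj (h : Tab A T a b c e X Y) : Function.Injective (algebraMap A T) := by
  rw [injective_iff_map_eq_zero]
  intro u hu
  exact (h.indep u 0 0 (by simp [hu])).1

theorem a_ne [IsDomain T] [Nontrivial A] (h : Tab A T a b c e X Y) : a ≠ 0 := by
  rintro rfl
  have h1 := h.XX
  simp only [zero_mul, map_zero, neg_zero, zero_sub, zero_smul, add_zero] at h1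
  have h2 : X * (X + algebraMap A T b) = 0 := by
    rw [mul_add, h1, Algebra.smul_def]; ring
  rcases mul_eq_zero.1 h2 with h3 | h3
  · have := h.indep 0 1 0 (by simp [h3])
    exact one_ne_zero this.2.1
  · have := h.indep b 1 0 (by simp only [one_smul, zero_smul, add_zero]; rw [add_comm]; exact h3)
    exact one_ne_zero this.2.1

/-- `θ ↦ 1 / θ` -/
theorem swap (h : Tab A T a b c e X Y) : Tab A T e c b a (-Y) (-X) where
  span t := by
    obtain ⟨u, v, w, rfl⟩ := h.span t
    exact ⟨u, -w, -v, by simp only [neg_smul, smul_neg]; ring⟩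
  indep u v w huvw := by
    have := h.indep u (-w) (-v) (by simp only [neg_smul, smul_neg] at *; rw [← huvw]; ring)
    exact ⟨this.1, neg_eq_zero.1 this.2.2, neg_eq_zero.1 this.2.1⟩
  XX := by
    rw [neg_mul_neg, h.YY, mul_comm b e]; simp only [smul_neg]; ring
  XY := by rw [neg_mul_neg, mul_comm Y X, h.XY, mul_comm a e]
  YY := by
    rw [neg_mul_neg, h.XX, mul_comm a c]; simp only [smul_neg]; ring

theorem e_ne [IsDomain T] [Nontrivial A] (h : Tab A T a b c e X Y) : e ≠ 0 := h.swap.a_ne

/-- `θ ↦ θ - t` -/
theorem trans (h : Tab A T a b c e X Y) (t : A) :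
    Tab A T a (3 * a * t + b) (3 * a * t ^ 2 + 2 * b * t + c) (a * t ^ 3 + b * t ^ 2 + c * t + e)
      (X - algebraMap A T (a * t)) (Y + t • X + algebraMap A T (a * t ^ 2 + b * t)) where
  span s := by
    obtain ⟨u, v, w, rfl⟩ := h.span s
    refine ⟨u + (v - w * t) * (a * t) - w * (a * t ^ 2 + b * t), v - w * t, w, ?_⟩
    simp only [Algebra.smul_def, map_add, map_sub, map_mul, map_pow]
    ring
  indep u v w huvw := by
    have h1 := h.indep (u - v * (a * t) + w * (a * t ^ 2 + b * t)) (v + w * t) w (by
      rw [← huvw]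
      simp only [Algebra.smul_def, map_add, map_sub, map_mul, map_pow]
      ring)
    obtain ⟨h2, h3, h4⟩ := h1
    subst h4
    have h5 : v = 0 := by simpa using h3
    subst h5
    exact ⟨by simpa using h2, rfl, rfl⟩
  XX := by
    have h1 := h.XX
    simp only [Algebra.smul_def, map_add, map_sub, map_mul, map_pow, map_ofNat] at *
    linear_combination h1
  XY := by
    have h1 := h.XX
    have h2 := h.XY
    simp only [Algebra.smul_def, map_add, map_sub, map_mul, map_pow, map_ofNat] at *
    linear_combination h2 + (algebraMap A T t) * h1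
  YY := by
    have h1 := h.XX
    have h2 := h.XY
    have h3 := h.YY
    simp only [Algebra.smul_def, map_add, map_sub, map_mul, map_pow, map_ofNat] at *
    linear_combination h3 + 2 * (algebraMap A T t) * h2 + (algebraMap A T t) ^ 2 * h1

end Tab

end Pool.Agent.WFT
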