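import Pool.Agent.WFT.Coord
import Pool.Agent.Lib_helper22.CN.Basis
import Pool.Agent.Lib_helper22.SFR.MinMult
import Pool.Agent.Lib_helper35.SFR.ExtAdic

/-!
Exact forms of the modules DIM, SFR1, SFR2, SFRNormal, FREE, MINMULT, UFD.
-/

namespace Pool.Agent.WFT

universe u

open IsLocalRing Pool.Agent.CN Pool.Agent.SFR

theorem stmtUFD : StmtUFD.{u} := by
  intro k _ _ n
  exact ufd_mvPowerSeries k n

theorem stmtDim : StmtDim.{u} := by
  intro p _ δ R _ _ _ _ hinf hδ
  obtain ⟨δ', hδ'⟩ := exists_dim_eq R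
  obtain ⟨C, hC⟩ := dim_bound R p hδ'
  have hle : δ' ≤ δ := by
    rw [hδ'] at hδ
    exact_mod_cast hδ
  refine ⟨C, fun e => (Ideal.pow_le_pow_right ?_).trans (hC e)⟩
  have := Nat.mul_le_mul_right (p ^ e) hle
  omega

theorem hF_of_hasSplit {T : Type*} [CommRing T] [IsLocalRing T] {p d : ℕ} (hd : 2 ≤ d)
    (h : ∀ C : ℕ, ∃ e N : ℕ, (d - 2) * p ^ e + C ≤ N ∧ HasSplit T (p ^ e) N) :
    ∀ C : ℕ, ∃ (e N : ℕ) (φ : T →+ T) (f : T), f ∈ maximalIdeal T ^ N ∧
      SFR.IsCartier (p ^ e) φ ∧ φ f = 1 ∧ d * p ^ e + C < N + 2 * p ^ e := by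
  intro C
  obtain ⟨e, N, hN, f, hf, φ, hφ, h1⟩ := h (C + 1)
  refine ⟨e, N, φ, f, hf, hφ, h1, ?_⟩
  obtain ⟨d', rfl⟩ := Nat.exists_eq_add_of_le hd
  have h2 : (2 + d') * p ^ e = 2 * p ^ e + d' * p ^ e := by ring
  rw [Nat.add_sub_cancel_left] at hN
  omega

theorem stmtSFR1 : StmtSFR1.{u} := by
  intro p _ d R _ _ _ _ _ _ hfin hinf hd hd2 h
  exact isSFR_of_fpt p hfin hd (hF_of_hasSplit hd2 h)

theorem isFPureRing_of_sfr {R : Type*} [CommRing R] [IsLocalRing R]
    [IsDomain R] {p : ℕ} [hp : Fact p.Prime] [CharP R p] (hfin : FFin R p) (h : SFR R p) :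
    IsFPureRing p R := by
  by_cases hnf : maximalIdeal R = ⊥
  · obtain ⟨c, hc, n, b, l, hl, hz⟩ := exists_frobDual R p hfin
    obtain ⟨j, hj⟩ : ∃ j, l j 1 ≠ 0 := by
      by_contra hcon
      push Not at hcon
      apply hc
      have h1 := hz 1
      rw [mul_one] at h1
      rw [h1]
      refine Finset.sum_eq_zero fun j _ => ?_
      rw [hcon j, zero_pow hp.out.ne_zero, zero_mul]
    have hu : IsUnit (l j 1) := by
      by_contra hnu
      have h1 : l j 1 ∈ maximalIdeal R := (mem_maximalIdeal _).mpr hnu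
      rw [hnf, Submodule.mem_bot] at h1
      exact hj h1
    obtain ⟨u, hu⟩ := hu
    refine ⟨1, postMul (l j) ((u⁻¹ : Rˣ) : R), one_pos, ?_, ?_⟩
    · rw [pow_one]
      exact (hl j).postMul _
    · rw [postMul_apply, ← hu, Units.inv_mul]
  · obtain ⟨c, hc, hc0⟩ := Submodule.exists_mem_ne_zero_of_ne_bot hnf
    obtain ⟨e, φ, hφ, h1⟩ := h c hc0
    rcases Nat.eq_zero_or_pos e with he | he
    · exfalso
      subst he
      have h2 := hφ c 1
      rw [pow_zero, pow_one, mul_one, h1] at h2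
      have h3 : (1 : R) ∈ maximalIdeal R := by
        rw [h2]
        exact Ideal.mul_mem_right _ _ hc
      exact (maximalIdeal.isMaximal R).ne_top ((Ideal.eq_top_iff_one _).mpr h3)
    · exact isFPureRing_of_apply he hφ h1

theorem stmtSFR2 : StmtSFR2.{u} := by
  intro p _ R _ _ _ _ _ hfin h
  obtain ⟨c, hc, hdual⟩ := exists_frobDual R p hfin
  obtain ⟨h1, h2, -⟩ := H35.SFR.sfr_adicCompletion h (isFPureRing_of_sfr hfin h) hc hdual
  exact ⟨h1, h2⟩

theorem stmtSFRNormal : StmtSFRNormal.{u} := by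
  classical
  intro p _ T _ _ _ _ h
  let K := FractionRing T
  refine (isIntegrallyClosed_iff K).mpr ?_
  intro x hx
  -- a common denominator of the powers of `x`
  obtain ⟨c, hc0, hc⟩ : ∃ c : T, c ≠ 0 ∧ ∀ n : ℕ, ∃ t : T,
      algebraMap T K c * x ^ n = algebraMap T K t := by
    have hfg := hx.fg_adjoin_singleton
    obtain ⟨S, hS⟩ := hfg
    obtain ⟨b, hb⟩ := IsLocalization.exist_integer_multiples_of_finset (nonZeroDivisors T) S
    refine ⟨b, nonZeroDivisors.ne_zero b.2, fun n => ?_⟩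
    have h1 : x ^ n ∈ Submodule.span T (S : Set K) := by
      rw [hS]
      exact Subalgebra.pow_mem (Algebra.adjoin T {x}) (Algebra.subset_adjoin rfl) n
    refine Submodule.span_induction (p := fun y _ => ∃ t : T,
      algebraMap T K b * y = algebraMap T K t) ?_ ?_ ?_ ?_ h1
    · intro y hy
      obtain ⟨t, ht⟩ := hb y hy
      exact ⟨t, by rw [ht, Algebra.smul_def]⟩
    · exact ⟨0, by simp⟩
    · rintro y z _ _ ⟨t, ht⟩ ⟨t', ht'⟩
      exact ⟨t + t', by rw [mul_add, ht, ht', map_add]⟩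
    · rintro r y _ ⟨t, ht⟩
      exact ⟨r * t, by rw [Algebra.smul_def, mul_left_comm, ht, map_mul]⟩
  obtain ⟨e, φ, hφ, h1⟩ := h c hc0
  obtain ⟨t, ht⟩ := hc (p ^ e)
  obtain ⟨a, b, hb, rfl⟩ := IsFractionRing.div_surjective (A := T) x
  have hb0 : b ≠ 0 := nonZeroDivisors.ne_zero hb
  have hbK : algebraMap T K b ≠ 0 := by simpa using hb0
  have h2 : a ^ p ^ e * c = b ^ p ^ e * t := by
    apply IsFractionRing.injective T K
    rw [map_mul, map_mul, map_pow, map_pow, ← ht, div_pow, mul_comm (algebraMap T K b ^ p ^ e),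
      mul_assoc, div_mul_cancel₀ _ (pow_ne_zero _ hbK)]
    ring
  have h3 : a = b * φ t := by
    rw [← hφ, ← h2, hφ, h1, mul_one]
  refine ⟨φ t, ?_⟩
  rw [h3, map_mul, mul_div_cancel_left₀ _ hbK]

theorem charP_of_algebra (p d : ℕ) [Fact p.Prime] (k T : Type*) [Field k] [CharP k p] [CommRing T]
    [Nontrivial T] [Algebra (PS d k) T] : CharP T p := by
  refine (CharP.charP_iff_prime_eq_zero Fact.out).mpr ?_
  have h1 : ((p : ℕ) : k) = 0 := CharP.cast_eq_zero k p
  rw [← map_natCast ((algebraMap (PS d k) T).comp (MvPowerSeries.C : k →+* PS d k)), h1, map_zero]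

theorem varsRegular_of_sfr (p d : ℕ) [Fact p.Prime] (k T : Type*) [Field k] [CharP k p]
    [CommRing T] [IsDomain T] [Algebra (PS d k) T] [Module.Finite (PS d k) T]
    (hinj : Function.Injective (algebraMap (PS d k) T)) (h : SFR T p) :
    VarsRegular k T (d := d) := by
  have := charP_of_algebra p d k T
  refine varsRegular_of_splitting p fun c hc => ?_
  exact h _ fun h0 => hc (hinj (by rw [h0, map_zero]))

theorem stmtFree : StmtFree.{u} := by
  intro p _ d k T _ _ _ _ _ _ _ hinj h n v hgen hind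
  obtain ⟨b, hb⟩ := exists_basis_of_lift (varsRegular_of_sfr p d k T hinj h) v
    (fun t => by
      obtain ⟨c, hc⟩ := hgen t
      exact ⟨c, by rw [maxExt_eq_map]; exact hc⟩)
    (fun c hc => hind c (by rw [maxExt_eq_map] at hc; exact hc))
  have hbv : (b : Fin n → T) = v := funext hb
  exact ⟨hbv ▸ b.linearIndependent, hbv ▸ b.span_eq⟩

theorem dim_of_finite (d : ℕ) (k T : Type*) [Field k] [CommRing T] [Algebra (PS d k) T]
    [Module.Finite (PS d k) T] (hinj : Function.Injective (algebraMap (PS d k) T)) :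
    ringKrullDim T = d := by
  refine le_antisymm ?_ ?_
  · exact (ringKrullDim_le_of_isIntegral (A := PS d k) (B := T)).trans (mvPowerSeries_dim d k).le
  · exact (mvPowerSeries_dim d k).ge.trans
      (ringKrullDim_le_of_isIntegral_of_injective (A := PS d k) (B := T) hinj)

theorem loc_of_finite (d : ℕ) (k T : Type*) [Field k] [CommRing T] [IsLocalRing T]
    [Algebra (PS d k) T] [Module.Finite (PS d k) T] (hinj : Function.Injective (algebraMap (PS d k) T)) :
    (maximalIdeal (PS d k)).map (algebraMap (PS d k) T) ≤ maximalIdeal T := by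
  have : FaithfulSMul (PS d k) T := (faithfulSMul_iff_algebraMap_injective _ _).mpr hinj
  obtain ⟨Q, hQ, hQ2⟩ := Ideal.exists_maximal_ideal_liesOver_of_isIntegral (S := T)
    (maximalIdeal (PS d k))
  have h1 : Q = maximalIdeal T := eq_maximalIdeal hQ
  rw [← h1, Ideal.map_le_iff_le_comap]
  exact hQ2.over.le

theorem stmtMinMult : StmtMinMult.{u} := by
  intro p _ d k T _ _ _ _ _ _ _ _ hinj _ hres hred hd2 h
  have hdim := dim_of_finite d k T hinj
  have hloc := loc_of_finite d k T hinj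
  have hmax : (maximalIdeal (PS d k)).map (algebraMap (PS d k) T) =
      Ideal.span (Set.range (vars k T (d := d))) := maxExt_eq_map.symm
  have hx : IsRed (maximalIdeal T) (vars k T (d := d)) := by
    refine ⟨fun i => ?_, ?_⟩
    · refine hloc ?_
      rw [hmax]
      exact Ideal.subset_span ⟨i, rfl⟩
    · obtain ⟨n, hn⟩ := hred
      exact ⟨n, by rw [hn, hmax]⟩
  refine ⟨hres, ?_, hloc⟩
  rw [hmax]
  exact sq_le_mul p hdim (hF_of_hasSplit hd2 h) hx

end Pool.Agent.WFT
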