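import Pool.Agent.WFT.Stmts

/-! MP_7dd379_ag, module RANK2 (helper66): in rank at most two the dual module is principal. -/

namespace Pool.Agent.WFT

universe u

open IsLocalRing

namespace RankTwo

section

variable {A T : Type*} [CommRing A] [CommRing T] [Algebra A T]

/-- a generator of the dual module -/
def Gen (τ : T →ₗ[A] A) : Prop := ∀ l : T →ₗ[A] A, ∃ t : T, ∀ x, l x = τ (t * x)

lemma gen_two (y : T) (hs : ∀ t : T, ∃ α β : A, t = α • (1 : T) + β • y) (τ : T →ₗ[A] A)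
    (h1 : τ 1 = 0) (hy : τ y = 1) : Gen τ := by
  intro l
  obtain ⟨p, q, hpq⟩ := hs (y * y)
  refine ⟨(l y - l 1 * q) • (1 : T) + l 1 • y, fun x => ?_⟩
  obtain ⟨α, β, rfl⟩ := hs x
  have e : ((l y - l 1 * q) • (1 : T) + l 1 • y) * (α • (1 : T) + β • y) =
      ((l y - l 1 * q) * α) • (1 : T) + ((l y - l 1 * q) * β + l 1 * α) • y +
        (l 1 * β) • (y * y) := by
    simp only [add_mul, mul_add, smul_mul_assoc, mul_smul_comm, one_mul, mul_one, smul_smul,
      add_smul, smul_add]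
    ring_nf
  rw [e, hpq]
  simp only [map_add, map_smul, h1, hy, smul_eq_mul, mul_zero, mul_one, zero_add]
  ring

lemma gen_one (hs : ∀ t : T, ∃ α : A, t = α • (1 : T)) (τ : T →ₗ[A] A)
    (h1 : τ 1 = 1) : Gen τ := by
  intro l
  refine ⟨l 1 • (1 : T), fun x => ?_⟩
  obtain ⟨α, rfl⟩ := hs x
  simp [h1, mul_comm]

/-- basis with two elements, first coefficient of `1` invertible -/
lemma gen_of_basis_two (b : Module.Basis (Fin 2) A T) (h : IsUnit (b.repr 1 0)) :
    ∃ τ : T →ₗ[A] A, Gen τ := by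
  obtain ⟨u, hu⟩ := h
  have h1 : (1 : T) = (u : A) • b 0 + (b.repr 1 1) • b 1 := by
    have := b.sum_repr (1 : T)
    rw [Fin.sum_univ_two, ← hu] at this
    exact this.symm
  set v := b.repr 1 1 with hv
  have hb0 : b 0 = (↑u⁻¹ : A) • ((1 : T) - v • b 1) := by
    rw [h1, add_sub_cancel_right, smul_smul, Units.inv_mul, one_smul]
  let τ : T →ₗ[A] A := b.coord 1 - ((↑u⁻¹ : A) * v) • b.coord 0
  refine ⟨τ, gen_two (b 1) (fun t => ?_) τ ?_ ?_⟩
  · refine ⟨b.repr t 0 * ↑u⁻¹, b.repr t 1 - b.repr t 0 * ↑u⁻¹ * v, ?_⟩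
    conv_lhs => rw [← b.sum_repr t, Fin.sum_univ_two, hb0]
    rw [smul_sub, smul_sub, smul_smul, smul_smul, smul_smul, sub_smul]
    abel
  · change b.repr 1 1 - ((↑u⁻¹ : A) * v) * b.repr 1 0 = 0
    rw [← hu, ← hv, mul_right_comm, Units.inv_mul, one_mul, sub_self]
  · change b.repr (b 1) 1 - ((↑u⁻¹ : A) * v) * b.repr (b 1) 0 = 1
    simp

lemma gen_of_basis_one (b : Module.Basis (Fin 1) A T) (h : IsUnit (b.repr 1 0)) :
    ∃ τ : T →ₗ[A] A, Gen τ := by
  obtain ⟨u, hu⟩ := h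
  have h1 : (1 : T) = (u : A) • b 0 := by
    have := b.sum_repr (1 : T)
    rw [Fin.sum_univ_one, ← hu] at this
    exact this.symm
  have hb0 : b 0 = (↑u⁻¹ : A) • (1 : T) := by
    rw [h1, smul_smul, Units.inv_mul, one_smul]
  refine ⟨(↑u⁻¹ : A) • b.coord 0, gen_one (fun t => ⟨b.repr t 0 * ↑u⁻¹, ?_⟩) _ ?_⟩
  · conv_lhs => rw [← b.sum_repr t, Fin.sum_univ_one, hb0, smul_smul]
  · change (↑u⁻¹ : A) * b.repr 1 0 = 1
    rw [← hu, Units.inv_mul]

/-- rank at most two: the dual is cyclic. -/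
lemma exists_gen [IsLocalRing A] [IsLocalRing T] [Module.Free A T] [Module.Finite A T]
    (hloc : (maximalIdeal A).map (algebraMap A T) ≤ maximalIdeal T)
    (hr : Module.finrank A T ≤ 2) : ∃ τ : T →ₗ[A] A, Gen τ := by
  have hunit : ∀ (n : ℕ) (b : Module.Basis (Fin n) A T), ∃ i, IsUnit (b.repr 1 i) := by
    intro n b
    by_contra hcon
    push Not at hcon
    have h1 : (1 : T) ∈ maximalIdeal T := by
      rw [← b.sum_repr (1 : T)]
      refine sum_mem fun i _ => ?_
      rw [Algebra.smul_def]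
      refine Ideal.mul_mem_right _ _ (hloc (Ideal.mem_map_of_mem _ ?_))
      exact (mem_maximalIdeal _).2 (hcon i)
    exact (Ideal.ne_top_iff_one _).1 (maximalIdeal.isMaximal T).ne_top h1
  have b := Module.finBasis A T
  obtain ⟨i, hi⟩ := hunit _ b
  generalize Module.finrank A T = n at b i hi hr
  interval_cases n
  · exact i.elim0
  · have : i = 0 := Subsingleton.elim _ _
    subst this
    exact gen_of_basis_one b hi
  · fin_cases i
    · exact gen_of_basis_two b hi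
    · refine gen_of_basis_two (b.reindex (Equiv.swap 0 1)) ?_
      simpa using hi

lemma exists_ne [IsLocalRing A] [IsLocalRing T] [Module.Free A T] [Module.Finite A T]
    : ∃ l : T →ₗ[A] A, l ≠ 0 := by
  have b := Module.finBasis A T
  have hn : 0 < Module.finrank A T := by
    rw [Nat.pos_iff_ne_zero]
    intro h0
    rw [h0] at b
    have := b.sum_repr (1 : T)
    rw [Fin.sum_univ_zero] at this
    exact zero_ne_one this
  refine ⟨b.coord ⟨0, hn⟩, fun h => ?_⟩
  have h1 := LinearMap.congr_fun h (b ⟨0, hn⟩)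
  simp at h1

/-- a dual submodule of the fraction field is cyclic if the dual module is. -/
lemma prin {L : Type*} [Field L] [Algebra T L]
    (W : Submodule T L) (hW : IsDual A T W) (τ : T →ₗ[A] A) (hτ : Gen τ)
    (hne : ∃ l : T →ₗ[A] A, l ≠ 0) : PrinPow W 1 := by
  obtain ⟨ε, hε⟩ := hW
  set w0 : W := ε.symm τ with hw0
  have hgen : ∀ w : W, ∃ t : T, w = t • w0 := by
    intro w
    obtain ⟨t, ht⟩ := hτ (ε w)
    refine ⟨t, ε.injective (LinearMap.ext fun x => ?_)⟩
    rw [ht, hε, hw0, AddEquiv.apply_symm_apply]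
  have hw0ne : (w0 : L) ≠ 0 := by
    intro h0
    obtain ⟨l, hl⟩ := hne
    obtain ⟨t, ht⟩ := hgen (ε.symm l)
    have h1 : w0 = 0 := Subtype.ext h0
    rw [h1, smul_zero] at ht
    apply hl
    have := congrArg ε ht
    rwa [AddEquiv.apply_symm_apply, map_zero] at this
  refine ⟨(w0 : L)⁻¹, ?_⟩
  ext x
  rw [pow_one, Submodule.mem_div_iff_forall_mul_mem, Submodule.mem_span_singleton]
  constructor
  · intro h
    obtain ⟨t, ht⟩ := Submodule.mem_one.1 (h w0 w0.2)
    refine ⟨t, ?_⟩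
    rw [Algebra.smul_def, ht, mul_assoc, mul_inv_cancel₀ hw0ne, mul_one]
  · rintro ⟨t, rfl⟩ y hy
    obtain ⟨s, hs⟩ := hgen ⟨y, hy⟩
    have hs' : y = s • (w0 : L) := congrArg Subtype.val hs
    rw [Submodule.mem_one]
    refine ⟨t * s, ?_⟩
    rw [hs', Algebra.smul_def, Algebra.smul_def, map_mul]
    field_simp

end

end RankTwo

/-- RANK2 -/
theorem stmtRankTwo : StmtRankTwo.{u} := by
  intro d k T L _ _ _ _ _ _ _ _ _ _ _ hMM hr W hW
  obtain ⟨τ, hτ⟩ := RankTwo.exists_gen (A := PS d k) (T := T) hMM.loc hr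
  exact RankTwo.prin (A := PS d k) W hW τ hτ
    RankTwo.exists_ne

end Pool.Agent.WFT
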