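import Pool.Agent.WFT.Stmts
import Pool.Agent.WFT.FinalDefs
import Pool.Agent.WFT.Mods22
import Pool.Agent.WFT.RankTwo

/-!
# MP_7dd379_ag: assembly of the upper bound
-/

namespace Pool.Agent.WFT

universe u

open IsLocalRing Pool.Agent.CN

/-- the case of rank three, as provided by the cubic block -/
def StmtE3 : Prop :=
  ∀ (p : ℕ) [Fact p.Prime] (d : ℕ), 3 ≤ d → ∀ (k T L : Type u) [Field k] [Infinite k] [CharP k p]
    [CommRing T] [IsDomain T] [IsLocalRing T] [IsNoetherianRing T] [IsIntegrallyClosed T]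
    [Algebra (PS d k) T] [Module.Finite (PS d k) T] [Module.Free (PS d k) T]
    [Field L] [Algebra T L] [IsFractionRing T L],
    FFin k p → MM d k T → Module.finrank (PS d k) T = 3 →
    (∀ W : Submodule T L, IsDual (PS d k) T W → ∃ m : ℕ, 1 ≤ m ∧ PrinPow W m) ∨
    (∀ e N : ℕ, HasSplit T (p ^ e) N → 2 * N ≤ (2 * d - 3) * (p ^ e - 1) + 1)

/-- the main theorem on the level of the complete ring `T` -/
def StmtT : Prop :=
  ∀ (p : ℕ) [Fact p.Prime] (d : ℕ), 3 ≤ d → ∀ (k T L : Type u) [Field k] [Infinite k] [CharP k p]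
    [CommRing T] [IsDomain T] [IsLocalRing T] [IsNoetherianRing T] [IsIntegrallyClosed T]
    [Algebra (PS d k) T] [Module.Finite (PS d k) T] [Module.Free (PS d k) T]
    [Field L] [Algebra T L] [IsFractionRing T L],
    FFin k p → MM d k T → Big T p d →
    ∀ W : Submodule T L, IsDual (PS d k) T W → ∃ m : ℕ, 1 ≤ m ∧ PrinPow W m

theorem stmtT (hN : StmtNorm.{u}) (h3 : StmtE3.{u}) : StmtT.{u} := by
  intro p _ d hd k T L _ _ _ _ _ _ _ _ _ _ _ _ _ _ hfin hMM hbig W hW
  rcases Nat.lt_or_ge (Module.finrank (PS d k) T) 4 with h4 | h4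
  · rcases Nat.lt_or_ge (Module.finrank (PS d k) T) 3 with h2 | h2
    · exact ⟨1, le_rfl, stmtRankTwo d k T L hMM (by omega) W hW⟩
    · rcases h3 p d hd k T L hfin hMM (by omega) with h | h
      · exact h W hW
      · exfalso
        obtain ⟨e, N, hN, hs⟩ := hbig 0
        have h5 := h e N hs
        have hq : 1 ≤ p ^ e := Nat.one_le_pow _ _ (Fact.out : p.Prime).pos
        obtain ⟨c, rfl⟩ := Nat.exists_eq_add_of_le hd
        obtain ⟨q, hq'⟩ := Nat.exists_eq_add_of_le hq
        rw [hq'] at hN h5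
        have e1 : 2 * (3 + c) - 3 = 2 * c + 3 := by omega
        have e2 : 1 + q - 1 = q := by omega
        rw [e1] at hN h5
        rw [e2] at h5
        have e3 : (2 * c + 3) * (1 + q) = (2 * c + 3) * q + 2 * c + 3 := by ring
        omega
  · exact absurd hbig (hN p d hd k T hfin hMM h4)

/-- `F`-purity of a pair with exponent `> d - 3/2` -/
theorem big_of_pair {R : Type*} [CommRing R] [IsLocalRing R] {p d : ℕ} (hp : p.Prime) (hd : 2 ≤ d)
    {t : ℝ} (ht : (d : ℝ) - 3 / 2 < t) (h : FPurePair R p (maximalIdeal R) t) : Big R p d := by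
  intro C
  obtain ⟨e₀, he₀⟩ := h
  have hp1 : (1 : ℝ) < p := by exact_mod_cast hp.one_lt
  have hε : 0 < 2 * t - (2 * d - 3) := by linarith
  obtain ⟨e₁, he₁⟩ := pow_unbounded_of_one_lt ((C + 2 * t) / (2 * t - (2 * d - 3))) hp1
  set e := max e₀ e₁ with he
  obtain ⟨f, hf, φ, hφ, h1⟩ := he₀ e (le_max_left _ _)
  refine ⟨e, _, ?_, f, hf, φ, hφ, h1⟩
  have h2 : (C + 2 * t) / (2 * t - (2 * d - 3)) < (p : ℝ) ^ e :=
    he₁.trans_le (pow_le_pow_right₀ hp1.le (le_max_right _ _))
  rw [div_lt_iff₀ hε] at h2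
  have h3 : t * ((p : ℝ) ^ e - 1) ≤ (⌈t * ((p : ℝ) ^ e - 1)⌉₊ : ℝ) := Nat.le_ceil _
  have h4 : (((2 * d - 3 : ℕ) : ℝ)) = 2 * d - 3 := by
    rw [Nat.cast_sub (by omega)]; push_cast; ring
  have h5 : ((((2 * d - 3) * p ^ e + C : ℕ)) : ℝ) ≤ ((2 * ⌈t * ((p : ℝ) ^ e - 1)⌉₊ : ℕ) : ℝ) := by
    push_cast
    rw [h4]
    nlinarith
  exact_mod_cast h5

theorem HasSplit.map {R S : Type*} [CommRing R] [CommRing S] [IsLocalRing R] [IsLocalRing S]
    (ι : R →+* S) (hm : (maximalIdeal R).map ι ≤ maximalIdeal S) {q N : ℕ}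
    (hext : ∀ φ : R →+ R, IsCartier q φ → ∃ ψ : S →+ S, IsCartier q ψ ∧ ∀ r, ψ (ι r) = ι (φ r))
    (h : HasSplit R q N) : HasSplit S q N := by
  obtain ⟨f, hf, φ, hφ, h1⟩ := h
  obtain ⟨ψ, hψ, hψ'⟩ := hext φ hφ
  refine ⟨ι f, ?_, ψ, hψ, by rw [hψ', h1, map_one]⟩
  have h2 := Ideal.mem_map_of_mem ι hf
  rw [Ideal.map_pow] at h2
  exact Ideal.pow_right_mono hm N h2

theorem Big.map {R S : Type*} [CommRing R] [CommRing S] [IsLocalRing R] [IsLocalRing S]
    (ι : R →+* S) (hm : (maximalIdeal R).map ι ≤ maximalIdeal S) {p d : ℕ}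
    (hext : ∀ (e : ℕ) (φ : R →+ R), IsCartier (p ^ e) φ →
      ∃ ψ : S →+ S, IsCartier (p ^ e) ψ ∧ ∀ r, ψ (ι r) = ι (φ r))
    (h : Big R p d) : Big S p d := by
  intro C
  obtain ⟨e, N, hN, hs⟩ := h C
  exact ⟨e, N, hN, hs.map ι hm fun φ hφ => hext e φ hφ⟩

theorem Big.excess {R : Type*} [CommRing R] [IsLocalRing R] {p d : ℕ} (hd : 2 ≤ d)
    (h : Big R p d) : ∀ C : ℕ, ∃ e N : ℕ, (d - 2) * p ^ e + C ≤ N ∧ HasSplit R (p ^ e) N := by
  intro C
  obtain ⟨e, N, hN, hs⟩ := h (2 * C)
  refine ⟨e, N, ?_, hs⟩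
  obtain ⟨c, rfl⟩ := Nat.exists_eq_add_of_le hd
  have e1 : 2 * (2 + c) - 3 = 2 * c + 1 := by omega
  rw [e1] at hN
  rw [Nat.add_sub_cancel_left]
  have e2 : (2 * c + 1) * p ^ e = 2 * (c * p ^ e) + p ^ e := by ring
  omega

/-- surjective images of `F`-finite rings are `F`-finite -/
theorem FFin.of_surjective {R S : Type*} [CommRing R] [CommRing S] (p : ℕ) [ExpChar R p]
    [ExpChar S p] (f : R →+* S) (hf : Function.Surjective f) (h : FFin R p) : FFin S p := by
  have h1 : (f.comp (frobenius R p)).Finite := (RingHom.Finite.of_surjective f hf).comp h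
  have h2 : f.comp (frobenius R p) = (frobenius S p).comp f := by
    ext x; simp [frobenius_def]
  rw [h2] at h1
  exact RingHom.Finite.of_comp_finite h1

/-- the complete ring and its Noether normalisation -/
theorem exists_algebra (p : ℕ) [Fact p.Prime] (d : ℕ) (hd : 3 ≤ d) (R : Type u) [CommRing R]
    [IsDomain R] [IsNoetherianRing R] [IsLocalRing R] [IsIntegrallyClosed R] [CharP R p]
    (hfin : FFin R p) (hinf : Infinite (ResidueField R)) (hdim : ringKrullDim R = d)
    (hbig : Big R p d) :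
    ∃ (_ : IsDomain (AdicCompletion (maximalIdeal R) R))
      (_ : IsNoetherianRing (AdicCompletion (maximalIdeal R) R))
      (_ : IsIntegrallyClosed (AdicCompletion (maximalIdeal R) R))
      (k : Type u) (_ : Field k) (_ : Infinite k) (_ : CharP k p)
      (_ : Algebra (PS d k) (AdicCompletion (maximalIdeal R) R))
      (_ : Module.Finite (PS d k) (AdicCompletion (maximalIdeal R) R))
      (_ : Module.Free (PS d k) (AdicCompletion (maximalIdeal R) R)),
      FFin k p ∧ MM d k (AdicCompletion (maximalIdeal R) R) ∧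
      Big (AdicCompletion (maximalIdeal R) R) p d ∧
      SFR (AdicCompletion (maximalIdeal R) R) p := by
  have hp : p.Prime := Fact.out
  have hsfr : SFR R p := stmtSFR1 p d R hfin hinf hdim (by omega) (hbig.excess (by omega))
  obtain ⟨hdom, hsfrT⟩ := stmtSFR2 p R hfin hsfr
  have hnoeth := isNoetherianRing_adicCompletion R p
  have hchar := charP_adicCompletion R p
  have hnorm := stmtSFRNormal p (AdicCompletion (maximalIdeal R) R) hsfrT
  set T := AdicCompletion (maximalIdeal R) R with hT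
  have hmap : (maximalIdeal R).map (algebraMap R T) = maximalIdeal T :=
    (AdicCompletion.maximalIdeal_eq_map).symm
  have hbigT : Big T p d := hbig.map (algebraMap R T) hmap.le fun e φ hφ => by
    obtain ⟨ψ, h1, h2⟩ := H35.SFR.exists_ext_adicCompletion (q := p ^ e) (φ := φ) hφ
    exact ⟨ψ, h1, h2⟩
  -- residue fields
  have hres : Function.Surjective ((residue T).comp (algebraMap R T)) := by
    intro x
    obtain ⟨t, rfl⟩ := residue_surjective x
    obtain ⟨r, hr⟩ := H35.SFR.isCompl_adicCompletion.dense 1 t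
    refine ⟨r, ?_⟩
    rw [RingHom.comp_apply, ← sub_eq_zero, ← map_sub, residue_eq_zero_iff, ← neg_sub]
    rw [pow_one] at hr
    exact (Ideal.neg_mem_iff _).2 hr
  have hcharκ : CharP (ResidueField T) p := by
    refine (CharP.charP_iff_prime_eq_zero Fact.out).mpr ?_
    have : ((p : ℕ) : T) = 0 := CharP.cast_eq_zero T p
    rw [← map_natCast (residue T), this, map_zero]
  have hfinκ : FFin (ResidueField T) p := hfin.of_surjective p _ hres
  have hinfκ : Infinite (ResidueField T) := by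
    have h1 : IsLocalHom (algebraMap R T) := by
      refine ((IsLocalRing.local_hom_TFAE (algebraMap R T)).out 0 2).mpr hmap.le
    exact Infinite.of_injective _ (ResidueField.map (algebraMap R T)).injective
  obtain ⟨s, hs⟩ := exists_coefficientField T p
  obtain ⟨F, hF1, hF2, hF3, hF4⟩ := exists_noether_red T
    ((ringKrullDim_adicCompletion R).trans hdim) s hs
  let alg : Algebra (PS d (ResidueField T)) T := F.toAlgebra
  have hfinA : Module.Finite (PS d (ResidueField T)) T := hF2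
  have hresT : ∀ t : T, ∃ c : ResidueField T,
      t - algebraMap (PS d (ResidueField T)) T (MvPowerSeries.C c) ∈ maximalIdeal T := by
    intro t
    refine ⟨residue T t, ?_⟩
    have h1 : algebraMap (PS d (ResidueField T)) T (MvPowerSeries.C (residue T t)) =
        s (residue T t) := hF1 _
    rw [h1, ← residue_eq_zero_iff, map_sub, hs, sub_self]
  have hMM : MM d (ResidueField T) T := by
    refine stmtMinMult p d (ResidueField T) T hF3 hsfrT hresT ?_ (by omega)
      (hbigT.excess (by omega))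
    obtain ⟨hx, n, hn⟩ := hF4
    have hmax : (maximalIdeal (PS d (ResidueField T))).map
        (algebraMap (PS d (ResidueField T)) T) =
        Ideal.span (Set.range fun i => F (MvPowerSeries.X i)) := by
      rw [maximalIdeal_mvPowerSeries, Ideal.map_span, ← Set.range_comp]
      rfl
    refine ⟨n, ?_⟩
    rw [hmax]
    refine le_antisymm hn ?_
    rw [pow_succ']
    refine Ideal.mul_mono_left ?_
    rw [Ideal.span_le]
    rintro _ ⟨i, rfl⟩
    exact hx i
  have hvr := varsRegular_of_sfr p d (ResidueField T) T hF3 hsfrT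
  have hb := exists_basis_one (d := d) (k := ResidueField T) (T := T) hvr hresT (fun i => hF4.1 i)
  obtain ⟨r, b, -, -⟩ := hb
  exact ⟨hdom, hnoeth, hnorm, ResidueField T, inferInstance, hinfκ, hcharκ, alg, hfinA,
    Module.Free.of_basis b, hfinκ, hMM, hbigT, hsfrT⟩

end Pool.Agent.WFT
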