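import Pool.Agent.WFT.Stmts
import Pool.Agent.Lib_helper22.CN.UFD

/-!
COORD: regular systems of parameters give coordinates.
-/

namespace Pool.Agent.WFT

universe u

open IsLocalRing Pool.Agent.CN

/-- A homomorphism from a power series ring to a complete local ring which hits generators of the
maximal ideal and the residue field is surjective. -/
theorem surjective_of_gen {κ D : Type*} {n : ℕ} [Field κ] [CommRing D] [IsLocalRing D]
    [IsAdicComplete (maximalIdeal D) D] (F : MvPowerSeries (Fin n) κ →+* D)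
    (hres : ∀ x : D, ∃ a : κ, x - F (MvPowerSeries.C a) ∈ maximalIdeal D)
    (hF : Ideal.span (Set.range fun i => F (MvPowerSeries.X i)) = maximalIdeal D) :
    Function.Surjective F := by
  have hmap : (varIdeal (Fin n) κ).map F = maximalIdeal D := by
    rw [← hF, Ideal.map_span, ← Set.range_comp]
    rfl
  have h1 : IsPrecomplete (varIdeal (Fin n) κ) (MvPowerSeries (Fin n) κ) := inferInstance
  have h2 : IsHausdorff ((varIdeal (Fin n) κ).map F) D := by
    rw [hmap]; infer_instance
  refine surjective_of_mk_map_comp_surjective (I := varIdeal (Fin n) κ) F ?_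
  intro y
  obtain ⟨y, rfl⟩ := Ideal.Quotient.mk_surjective y
  obtain ⟨a, ha⟩ := hres y
  refine ⟨MvPowerSeries.C a, ?_⟩
  rw [RingHom.comp_apply, Ideal.Quotient.eq, hmap, ← neg_sub]
  exact (Ideal.neg_mem_iff _).mpr ha

theorem stmtCoord : StmtCoord.{u} := by
  intro n κ D _ _ _ _ _ σ hσ w hw hn
  have hwm : ∀ i, w i ∈ maximalIdeal D := fun i => hw ▸ Ideal.subset_span ⟨i, rfl⟩
  obtain ⟨F, hF1, hF2, hF3⟩ := exists_noether (maximalIdeal D)
    (maximalIdeal D).fg_of_isNoetherianRing σ hσ w hwm 1 (by rw [pow_one, hw])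
  have hinj := injective_of_finite (mvPowerSeries_dim n κ).le hn F hF3
  have hsurj : Function.Surjective F := by
    refine surjective_of_gen F (fun x => ?_) ?_
    · obtain ⟨a, ha⟩ := hσ x
      exact ⟨a, by rw [hF1]; exact ha⟩
    · rw [← hw]
      congr 2
      ext i
      exact hF2 i
  exact ⟨RingEquiv.ofBijective F ⟨hinj, hsurj⟩, hF1, hF2⟩

/-- A generating system of the maximal ideal of `k[[X_1..X_d]]` with `d` elements is a coordinate
system. -/
theorem exists_coord_of_gen {k : Type*} [Field k] {d : ℕ} (z : Fin d → PS d k)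
    (hz : Ideal.span (Set.range z) = maximalIdeal (PS d k)) :
    ∃ ψ : PS d k ≃+* PS d k, (∀ c, ψ (MvPowerSeries.C c) = MvPowerSeries.C c) ∧
      ∀ i, ψ (MvPowerSeries.X i) = z i := by
  have hzm : ∀ i, z i ∈ maximalIdeal (PS d k) := fun i => hz ▸ Ideal.subset_span ⟨i, rfl⟩
  have hres : ∀ r : PS d k, ∃ c : k, r - (MvPowerSeries.C c : PS d k) ∈ maximalIdeal (PS d k) := by
    intro r
    refine ⟨MvPowerSeries.constantCoeff r, ?_⟩
    rw [mem_maximalIdeal, mem_nonunits_iff, MvPowerSeries.isUnit_iff_constantCoeff]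
    simp
  obtain ⟨F, hF1, hF2, hF3⟩ := exists_noether (maximalIdeal (PS d k))
    (maximalIdeal (PS d k)).fg_of_isNoetherianRing MvPowerSeries.C hres z hzm 1
    (by rw [pow_one, hz])
  have hinj := injective_of_finite (mvPowerSeries_dim d k).le (mvPowerSeries_dim d k).ge F hF3
  have hsurj : Function.Surjective F := by
    refine surjective_of_gen F (fun x => ?_) ?_
    · obtain ⟨a, ha⟩ := hres x
      exact ⟨a, by rw [hF1]; exact ha⟩
    · rw [← hz]
      congr 2
      exact funext hF2
  exact ⟨RingEquiv.ofBijective F ⟨hinj, hsurj⟩, hF1, hF2⟩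

/-- exchange -/
theorem exchange {A : Type*} [CommRing A] [IsLocalRing A] {d : ℕ} (z : Fin d → A)
    (hz : Ideal.span (Set.range z) = maximalIdeal A) (a : Fin d → A) (j : Fin d)
    (ha : IsUnit (a j)) :
    Ideal.span (Set.range (Function.update z j (∑ i, a i * z i))) = maximalIdeal A := by
  classical
  have hzm : ∀ i, z i ∈ maximalIdeal A := fun i => hz ▸ Ideal.subset_span ⟨i, rfl⟩
  refine le_antisymm ?_ ?_
  · rw [Ideal.span_le]
    rintro _ ⟨i, rfl⟩
    by_cases hij : i = j
    · subst hij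
      rw [Function.update_self]
      exact Ideal.sum_mem _ fun l _ => Ideal.mul_mem_left _ _ (hzm l)
    · rw [Function.update_of_ne hij]
      exact hzm i
  · rw [← hz, Ideal.span_le]
    rintro _ ⟨i, rfl⟩
    have hother : ∀ l, l ≠ j → z l ∈
        Ideal.span (Set.range (Function.update z j (∑ i, a i * z i))) := by
      intro l hl
      refine Ideal.subset_span ⟨l, ?_⟩
      rw [Function.update_of_ne hl]
    by_cases hij : i = j
    · subst hij
      obtain ⟨u, hu⟩ := ha
      have h1 : z i = ((u⁻¹ : Aˣ) : A) * (∑ l, a l * z l) -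
          ((u⁻¹ : Aˣ) : A) * ∑ l ∈ Finset.univ.erase i, a l * z l := by
        rw [← Finset.add_sum_erase _ _ (Finset.mem_univ i), ← hu, mul_add, add_sub_cancel_right,
          ← mul_assoc, Units.inv_mul, one_mul]
      rw [SetLike.mem_coe, h1]
      refine Ideal.sub_mem _ (Ideal.mul_mem_left _ _ (Ideal.subset_span ⟨i, ?_⟩))
        (Ideal.mul_mem_left _ _ (Ideal.sum_mem _ fun l hl =>
          Ideal.mul_mem_left _ _ (hother l (Finset.ne_of_mem_erase hl))))
      rw [Function.update_self]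
    · exact hother i hij

/-- C1: two elements with independent linear parts are two given coordinates. -/
theorem exists_coord_pair' {k : Type*} [Field k] {d : ℕ} (i₀ j₀ : Fin d) (hij₀ : i₀ ≠ j₀)
    (x y : PS d k)
    (hx : x ∈ maximalIdeal (PS d k)) (hy : y ∈ maximalIdeal (PS d k))
    (hind : ∀ u v : PS d k, u * x + v * y ∈ maximalIdeal (PS d k) ^ 2 →
      u ∈ maximalIdeal (PS d k) ∧ v ∈ maximalIdeal (PS d k)) :
    ∃ ψ : PS d k ≃+* PS d k, (∀ c, ψ (MvPowerSeries.C c) = MvPowerSeries.C c) ∧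
      ψ (MvPowerSeries.X i₀) = x ∧ ψ (MvPowerSeries.X j₀) = y := by
  classical
  set m := maximalIdeal (PS d k) with hm
  have hX : Ideal.span (Set.range (MvPowerSeries.X : Fin d → PS d k)) = m :=
    (maximalIdeal_mvPowerSeries (Fin d) k).symm
  -- first exchange
  have hx' := hx
  rw [← hX] at hx'
  obtain ⟨a, ha⟩ := (Ideal.mem_span_range_iff_exists_fun).mp hx'
  obtain ⟨j, hj⟩ : ∃ j, IsUnit (a j) := by
    by_contra hcon
    push Not at hcon
    have h1 : (1 : PS d k) * x + 0 * y ∈ m ^ 2 := by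
      rw [one_mul, zero_mul, add_zero, ← ha]
      refine Ideal.sum_mem _ fun i _ => ?_
      rw [pow_two]
      refine Ideal.mul_mem_mul ((mem_maximalIdeal _).mpr (hcon i)) ?_
      rw [← hX]
      exact Ideal.subset_span ⟨i, rfl⟩
    exact (Ideal.ne_top_iff_one m).mp (maximalIdeal.isMaximal _).ne_top (hind 1 0 h1).1
  have hz1 := exchange _ hX a j hj
  rw [ha] at hz1
  set z1 : Fin d → PS d k := Function.update MvPowerSeries.X j x with hz1def
  -- second exchange
  have hy' := hy
  rw [hm, ← hz1] at hy'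
  obtain ⟨b, hb⟩ := (Ideal.mem_span_range_iff_exists_fun).mp hy'
  obtain ⟨l, hlj, hl⟩ : ∃ l, l ≠ j ∧ IsUnit (b l) := by
    by_contra hcon
    push Not at hcon
    have h1 : (-b j) * x + 1 * y ∈ m ^ 2 := by
      have h2 : (-b j) * x + 1 * y = ∑ i ∈ Finset.univ.erase j, b i * z1 i := by
        rw [← hb, ← Finset.add_sum_erase _ _ (Finset.mem_univ j)]
        have h3 : z1 j = x := by rw [hz1def, Function.update_self]
        rw [h3]
        ring
      rw [h2]
      refine Ideal.sum_mem _ fun i hi => ?_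
      rw [pow_two]
      refine Ideal.mul_mem_mul ((mem_maximalIdeal _).mpr (hcon i (Finset.ne_of_mem_erase hi))) ?_
      rw [hm, ← hz1]
      exact Ideal.subset_span ⟨i, rfl⟩
    exact (Ideal.ne_top_iff_one m).mp (maximalIdeal.isMaximal _).ne_top (hind _ _ h1).2
  have hz2 := exchange _ hz1 b l hl
  rw [hb] at hz2
  set z2 : Fin d → PS d k := Function.update z1 l y with hz2def
  have hz2j : z2 j = x := by
    rw [hz2def, Function.update_of_ne (Ne.symm hlj), hz1def, Function.update_self]
  have hz2l : z2 l = y := by rw [hz2def, Function.update_self]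
  -- permutation
  obtain ⟨e, he0, he1⟩ : ∃ e : Fin d ≃ Fin d, e i₀ = j ∧ e j₀ = l := by
    let e1 : Fin d ≃ Fin d := Equiv.swap i₀ j
    refine ⟨e1.trans (Equiv.swap (e1 j₀) l), ?_, ?_⟩
    · rw [Equiv.trans_apply]
      have h1 : e1 i₀ = j := Equiv.swap_apply_left i₀ j
      rw [h1]
      refine Equiv.swap_apply_of_ne_of_ne ?_ (Ne.symm hlj)
      intro h2
      have h3 : e1 i₀ = e1 j₀ := by rw [h1, h2]
      have h4 := e1.injective h3
      exact absurd h4 hij₀
    · rw [Equiv.trans_apply, Equiv.swap_apply_left]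
  obtain ⟨ψ, hψC, hψX⟩ := exists_coord_of_gen (fun i => z2 (e i)) (by
    rw [← hz2]
    congr 1
    exact e.surjective.range_comp z2)
  exact ⟨ψ, hψC, by rw [hψX, he0, hz2j], by rw [hψX, he1, hz2l]⟩

/-- C1: two elements with independent linear parts are the first two coordinates. -/
theorem exists_coord_pair {k : Type*} [Field k] {d : ℕ} (x y : PS (d + 2) k)
    (hx : x ∈ maximalIdeal (PS (d + 2) k)) (hy : y ∈ maximalIdeal (PS (d + 2) k))
    (hind : ∀ u v : PS (d + 2) k, u * x + v * y ∈ maximalIdeal (PS (d + 2) k) ^ 2 →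
      u ∈ maximalIdeal (PS (d + 2) k) ∧ v ∈ maximalIdeal (PS (d + 2) k)) :
    ∃ ψ : PS (d + 2) k ≃+* PS (d + 2) k, (∀ c, ψ (MvPowerSeries.C c) = MvPowerSeries.C c) ∧
      ψ (MvPowerSeries.X 0) = x ∧ ψ (MvPowerSeries.X 1) = y :=
  exists_coord_pair' 0 1 (by simp) x y hx hy hind

/-- C1, one element. -/
theorem exists_coord_single {k : Type*} [Field k] {d : ℕ} (x : PS (d + 1) k)
    (hx : x ∈ maximalIdeal (PS (d + 1) k)) (hx2 : x ∉ maximalIdeal (PS (d + 1) k) ^ 2) :
    ∃ ψ : PS (d + 1) k ≃+* PS (d + 1) k, (∀ c, ψ (MvPowerSeries.C c) = MvPowerSeries.C c) ∧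
      ψ (MvPowerSeries.X 0) = x := by
  classical
  set m := maximalIdeal (PS (d + 1) k) with hm
  have hX : Ideal.span (Set.range (MvPowerSeries.X : Fin (d + 1) → PS (d + 1) k)) = m :=
    (maximalIdeal_mvPowerSeries (Fin (d + 1)) k).symm
  have hx' := hx
  rw [← hX] at hx'
  obtain ⟨a, ha⟩ := (Ideal.mem_span_range_iff_exists_fun).mp hx'
  obtain ⟨j, hj⟩ : ∃ j, IsUnit (a j) := by
    by_contra hcon
    push Not at hcon
    refine hx2 ?_
    rw [← ha]
    refine Ideal.sum_mem _ fun i _ => ?_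
    rw [pow_two]
    refine Ideal.mul_mem_mul ((mem_maximalIdeal _).mpr (hcon i)) ?_
    rw [← hX]
    exact Ideal.subset_span ⟨i, rfl⟩
  have hz1 := exchange _ hX a j hj
  rw [ha] at hz1
  obtain ⟨ψ, hψC, hψX⟩ := exists_coord_of_gen
    (fun i => Function.update MvPowerSeries.X j x (Equiv.swap 0 j i)) (by
    rw [← hz1]
    congr 1
    exact (Equiv.swap 0 j).surjective.range_comp
      (Function.update (MvPowerSeries.X : Fin (d + 1) → PS (d + 1) k) j x))
  refine ⟨ψ, hψC, ?_⟩
  rw [hψX, Equiv.swap_apply_left, Function.update_self]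

end Pool.Agent.WFT
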