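import Pool.Agent.WFT.RegPair
import Pool.Agent.WFT.Coord

/-!
The coordinate theorem C1 in the form used by `RegPair.lean`.
-/

namespace Pool.Agent.WFT

open MvPowerSeries IsLocalRing

/-- The coordinate theorem for pairs. -/
theorem stmtC1 (d : ℕ) (k : Type*) [Field k] : StmtC1 d k := by
  intro i j hij x y hx hy hind
  obtain ⟨ψ, -, h1, h2⟩ := exists_coord_pair' i j hij x y hx hy hind
  exact ⟨ψ, h1, h2⟩

/-- Regular pairs in `PS d k` (hypothesis-free). -/
theorem regPair_of_ind {d : ℕ} {k : Type*} [Field k] (hd : 2 ≤ d) {x y : PS d k}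
    (hx : x ∈ maximalIdeal (PS d k)) (hy : y ∈ maximalIdeal (PS d k))
    (h : ∀ u v : PS d k, u * x + v * y ∈ maximalIdeal (PS d k) ^ 2 →
      u ∈ maximalIdeal (PS d k) ∧ v ∈ maximalIdeal (PS d k)) :
    RegPair x y ∧ RegPair x (y - x) :=
  regPair_of_hind (stmtC1 d k) hd hx hy h

end Pool.Agent.WFT
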