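import Pool.Agent.WFT.E3Defs

/-!
Regular pairs in power series rings (blocks C2, C3 of MP_7dd379_ag).
-/

namespace Pool.Agent.WFT

open MvPowerSeries IsLocalRing

section transport

variable {A B : Type*} [CommRing A] [CommRing B]

/-- regular pairs are preserved by ring isomorphisms -/
theorem RegPair.map (ψ : A ≃+* B) {x₁ x₂ : A} (h : RegPair x₁ x₂) : RegPair (ψ x₁) (ψ x₂) := by
  have e1 : ∀ x : A, Ideal.span {ψ x} = Ideal.map ψ (Ideal.span {x}) := by
    intro x
    rw [Ideal.map_span, Set.image_singleton]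
  have e2 : Ideal.span {ψ x₁, ψ x₂} = Ideal.map ψ (Ideal.span {x₁, x₂}) := by
    rw [Ideal.map_span, Set.image_pair]
  have hdvd : ∀ x y : A, ψ y ∈ Ideal.span {ψ x} → y ∈ Ideal.span {x} := by
    intro x y hxy
    rw [Ideal.mem_span_singleton] at hxy ⊢
    obtain ⟨z, hz⟩ := hxy
    refine ⟨ψ.symm z, ψ.injective ?_⟩
    rw [hz, map_mul, RingEquiv.apply_symm_apply]
  refine ⟨?_, ?_, ?_, ?_, ?_, ?_, ?_⟩
  · rw [Ne, map_eq_zero_iff ψ ψ.injective]; exact h.ne₁
  · rw [Ne, map_eq_zero_iff ψ ψ.injective]; exact h.ne₂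
  · rw [e1]
    have := h.prime₁
    exact Ideal.map_isPrime_of_equiv ψ
  · rw [e1]
    have := h.prime₂
    exact Ideal.map_isPrime_of_equiv ψ
  · rw [e2]
    have := h.prime₁₂
    exact Ideal.map_isPrime_of_equiv ψ
  · exact fun hx => h.notMem₂ (hdvd _ _ hx)
  · exact fun hx => h.notMem₁ (hdvd _ _ hx)

/-- the independence condition is preserved by ring isomorphisms -/
theorem hind_map [IsLocalRing A] [IsLocalRing B] (ψ : A ≃+* B) {x₁ x₂ : A}
    (h : ∀ u v : A, u * x₁ + v * x₂ ∈ maximalIdeal A ^ 2 →
      u ∈ maximalIdeal A ∧ v ∈ maximalIdeal A) :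
    ∀ u v : B, u * ψ x₁ + v * ψ x₂ ∈ maximalIdeal B ^ 2 →
      u ∈ maximalIdeal B ∧ v ∈ maximalIdeal B := by
  have hm : Ideal.map ψ (maximalIdeal A) = maximalIdeal B := by
    apply le_antisymm
    · rw [Ideal.map_le_iff_le_comap]
      intro x hx
      rw [Ideal.mem_comap, mem_maximalIdeal, mem_nonunits_iff]
      rw [mem_maximalIdeal, mem_nonunits_iff] at hx
      exact fun hu => hx ((isUnit_map_iff ψ x).1 hu)
    · intro y hy
      have h1 : ψ.symm y ∈ maximalIdeal A := by
        rw [mem_maximalIdeal, mem_nonunits_iff] at hy ⊢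
        exact fun hu => hy ((isUnit_map_iff ψ.symm y).1 hu)
      have h2 := Ideal.mem_map_of_mem ψ h1
      rwa [RingEquiv.apply_symm_apply] at h2
  have hmem : ∀ x : A, ψ x ∈ maximalIdeal B ↔ x ∈ maximalIdeal A := by
    intro x
    rw [mem_maximalIdeal, mem_nonunits_iff, mem_maximalIdeal, mem_nonunits_iff,
      isUnit_map_iff ψ x]
  intro u v huv
  have h1 : (ψ.symm u) * x₁ + (ψ.symm v) * x₂ ∈ maximalIdeal A ^ 2 := by
    have h2 : ψ ((ψ.symm u) * x₁ + (ψ.symm v) * x₂) ∈ Ideal.map ψ (maximalIdeal A ^ 2) := by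
      rw [Ideal.map_pow, hm]
      simpa using huv
    obtain ⟨z, hz, hz2⟩ := (Ideal.mem_map_iff_of_surjective ψ ψ.surjective).1 h2
    rwa [ψ.injective hz2] at hz
  obtain ⟨h3, h4⟩ := h _ _ h1
  rw [← hmem, RingEquiv.apply_symm_apply] at h3 h4
  exact ⟨h3, h4⟩

end transport

section kill

variable {σ k : Type*} [Field k]

open Classical in
/-- set the variables in `S` to zero -/
noncomputable def kill (S : Set σ) : MvPowerSeries σ k →+* MvPowerSeries σ k where
  toFun f := fun n => if ∀ i ∈ S, n i = 0 then coeff n f else 0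
  map_one' := by
    ext n
    show (if ∀ i ∈ S, n i = 0 then coeff n (1 : MvPowerSeries σ k) else 0) =
      coeff n (1 : MvPowerSeries σ k)
    split_ifs with h
    · rfl
    · rw [coeff_one, if_neg]
      rintro rfl
      exact h fun i _ => rfl
  map_mul' f g := by
    ext n
    show (if ∀ i ∈ S, n i = 0 then coeff n (f * g) else 0) = coeff n (_ * _)
    rw [coeff_mul, coeff_mul]
    split_ifs with h
    · refine Finset.sum_congr rfl fun p hp => ?_
      rw [Finset.HasAntidiagonal.mem_antidiagonal] at hp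
      have h1 : ∀ i ∈ S, p.1 i = 0 := by
        intro i hi
        have := h i hi
        rw [← hp, Finsupp.add_apply] at this
        omega
      have h2 : ∀ i ∈ S, p.2 i = 0 := by
        intro i hi
        have := h i hi
        rw [← hp, Finsupp.add_apply] at this
        omega
      show _ = (if ∀ i ∈ S, p.1 i = 0 then coeff p.1 f else 0) *
        (if ∀ i ∈ S, p.2 i = 0 then coeff p.2 g else 0)
      rw [if_pos h1, if_pos h2]
    · symm
      refine Finset.sum_eq_zero fun p hp => ?_
      rw [Finset.HasAntidiagonal.mem_antidiagonal] at hp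
      show (if ∀ i ∈ S, p.1 i = 0 then coeff p.1 f else 0) *
        (if ∀ i ∈ S, p.2 i = 0 then coeff p.2 g else 0) = 0
      push Not at h
      obtain ⟨i, hi, hni⟩ := h
      by_cases h1 : p.1 i = 0
      · have h2 : ¬ ∀ i ∈ S, p.2 i = 0 := by
          intro h3
          apply hni
          rw [← hp, Finsupp.add_apply, h1, h3 i hi]
        rw [if_neg h2, mul_zero]
      · have h2 : ¬ ∀ i ∈ S, p.1 i = 0 := fun h3 => h1 (h3 i hi)
        rw [if_neg h2, zero_mul]
  map_zero' := by
    ext n
    show (if ∀ i ∈ S, n i = 0 then coeff n (0 : MvPowerSeries σ k) else 0) = _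
    split_ifs <;> simp
  map_add' f g := by
    ext n
    show (if ∀ i ∈ S, n i = 0 then coeff n (f + g) else 0) =
      (if ∀ i ∈ S, n i = 0 then coeff n f else 0) + (if ∀ i ∈ S, n i = 0 then coeff n g else 0)
    split_ifs <;> simp

open Classical in
lemma coeff_kill (S : Set σ) (f : MvPowerSeries σ k) (n : σ →₀ ℕ) :
    coeff n (kill S f) = if ∀ i ∈ S, n i = 0 then coeff n f else 0 := rfl

lemma kill_eq_zero_iff (S : Set σ) (f : MvPowerSeries σ k) :
    kill S f = 0 ↔ ∀ n : σ →₀ ℕ, (∀ i ∈ S, n i = 0) → coeff n f = 0 := by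
  constructor
  · intro h n hn
    have := congrArg (coeff n) h
    rwa [coeff_kill, if_pos hn, map_zero] at this
  · intro h
    ext n
    rw [coeff_kill, map_zero]
    split_ifs with hn
    · exact h n hn
    · rfl

lemma ker_kill_singleton (i : σ) :
    RingHom.ker (kill (k := k) {i}) = Ideal.span {(X i : MvPowerSeries σ k)} := by
  ext f
  rw [RingHom.mem_ker, kill_eq_zero_iff, Ideal.mem_span_singleton, X_dvd_iff]
  constructor
  · intro h m hm
    exact h m fun j hj => by rw [Set.mem_singleton_iff.1 hj]; exact hm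
  · intro h m hm
    exact h m (hm i rfl)

lemma ker_kill_pair {i j : σ} :
    RingHom.ker (kill (k := k) {i, j}) = Ideal.span {(X i : MvPowerSeries σ k), X j} := by
  apply le_antisymm
  · intro f hf
    rw [RingHom.mem_ker, kill_eq_zero_iff] at hf
    have h1 : (X i : MvPowerSeries σ k) ∣ f - kill {i} f := by
      rw [X_dvd_iff]
      intro m hm
      rw [map_sub, coeff_kill, if_pos, sub_self]
      intro l hl
      rw [Set.mem_singleton_iff.1 hl]; exact hm
    have h2 : (X j : MvPowerSeries σ k) ∣ kill {i} f := by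
      rw [X_dvd_iff]
      intro m hm
      rw [coeff_kill]
      split_ifs with h
      · apply hf
        intro l hl
        rcases hl with rfl | hl
        · exact h l rfl
        · rw [Set.mem_singleton_iff.1 hl]; exact hm
      · rfl
    have h3 : f = (f - kill {i} f) + kill {i} f := by ring
    rw [h3]
    refine add_mem ?_ ?_
    · obtain ⟨g, hg⟩ := h1
      rw [hg]
      exact Ideal.mul_mem_right _ _ (Ideal.subset_span (Set.mem_insert _ _))
    · obtain ⟨g, hg⟩ := h2
      rw [hg]
      exact Ideal.mul_mem_right _ _ (Ideal.subset_span (Set.mem_insert_of_mem _ rfl))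
  · rw [Ideal.span_le]
    classical
    have hX : ∀ l ∈ ({i, j} : Set σ), kill (k := k) {i, j} (X l) = 0 := by
      intro l hl
      rw [kill_eq_zero_iff]
      intro n hn
      rw [coeff_X, if_neg]
      rintro rfl
      have := hn l hl
      simp at this
    intro f hf
    rcases hf with rfl | hf
    · exact hX i (Set.mem_insert _ _)
    · rw [Set.mem_singleton_iff.1 hf]
      exact hX j (Set.mem_insert_of_mem _ rfl)

lemma X_notMem_span {i j : σ} (hij : i ≠ j) :
    (X j : MvPowerSeries σ k) ∉ Ideal.span {(X i : MvPowerSeries σ k)} := by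
  classical
  rw [Ideal.mem_span_singleton, X_dvd_iff]
  intro h
  have := h (Finsupp.single j 1) (by rw [Finsupp.single_apply, if_neg hij.symm])
  rw [coeff_X, if_pos rfl] at this
  exact one_ne_zero this

lemma X_ne_zero' (i : σ) : (X i : MvPowerSeries σ k) ≠ 0 := by
  classical
  intro h
  have := congrArg (coeff (Finsupp.single i 1)) h
  rw [coeff_X, if_pos rfl, map_zero] at this
  exact one_ne_zero this

/-- two different variables form a regular pair -/
theorem regPair_X {i j : σ} (hij : i ≠ j) :
    RegPair (X i : MvPowerSeries σ k) (X j : MvPowerSeries σ k) := by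
  have : IsDomain (MvPowerSeries σ k) := NoZeroDivisors.to_isDomain _
  refine ⟨X_ne_zero' i, X_ne_zero' j, ?_, ?_, ?_, X_notMem_span hij, X_notMem_span hij.symm⟩
  · rw [← ker_kill_singleton]; exact RingHom.ker_isPrime _
  · rw [← ker_kill_singleton]; exact RingHom.ker_isPrime _
  · rw [← ker_kill_pair]; exact RingHom.ker_isPrime _

end kill

section linear

variable {σ k : Type*} [Field k]

lemma mem_maximalIdeal_iff {f : MvPowerSeries σ k} :
    f ∈ maximalIdeal (MvPowerSeries σ k) ↔ constantCoeff f = 0 := by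
  rw [mem_maximalIdeal, mem_nonunits_iff, MvPowerSeries.isUnit_iff_constantCoeff, isUnit_iff_ne_zero,
    not_not]

lemma coeff_single_mul (i : σ) (f g : MvPowerSeries σ k) :
    coeff (Finsupp.single i 1) (f * g) =
      constantCoeff f * coeff (Finsupp.single i 1) g +
        coeff (Finsupp.single i 1) f * constantCoeff g := by
  classical
  rw [coeff_mul, Finsupp.antidiagonal_single, Finset.sum_map]
  rw [show (Finset.HasAntidiagonal.antidiagonal 1 : Finset (ℕ × ℕ)) = {((0 : ℕ), 1), (1, 0)} from rfl,
    Finset.sum_pair (by simp)]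
  simp [coeff_zero_eq_constantCoeff]

/-- elements of `m^2` have no linear part -/
lemma coeff_single_of_mem_sq {f : MvPowerSeries σ k}
    (hf : f ∈ maximalIdeal (MvPowerSeries σ k) ^ 2) (i : σ) :
    coeff (Finsupp.single i 1) f = 0 := by
  rw [pow_two] at hf
  refine Submodule.mul_induction_on hf ?_ ?_
  · intro g hg h hh
    rw [coeff_single_mul, mem_maximalIdeal_iff.1 hg, mem_maximalIdeal_iff.1 hh]
    ring
  · intro g h hg hh
    rw [map_add, hg, hh, add_zero]

/-- independence modulo `m^2` from independence of the linear coefficients -/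
theorem hind_of_coeff {a e : MvPowerSeries σ k} (ha : constantCoeff a = 0)
    (he : constantCoeff e = 0)
    (h : ∀ α β : k, (∀ i : σ, α * coeff (Finsupp.single i 1) a +
      β * coeff (Finsupp.single i 1) e = 0) → α = 0 ∧ β = 0) :
    ∀ u v : MvPowerSeries σ k, u * a + v * e ∈ maximalIdeal (MvPowerSeries σ k) ^ 2 →
      u ∈ maximalIdeal (MvPowerSeries σ k) ∧ v ∈ maximalIdeal (MvPowerSeries σ k) := by
  intro u v huv
  rw [mem_maximalIdeal_iff, mem_maximalIdeal_iff]
  apply h
  intro i
  have h1 := coeff_single_of_mem_sq huv i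
  rw [map_add, coeff_single_mul, coeff_single_mul, ha, he] at h1
  linear_combination h1

/-- independence modulo `m^2` of two variables -/
theorem hind_X {i j : σ} (hij : i ≠ j) :
    ∀ u v : MvPowerSeries σ k, u * X i + v * X j ∈ maximalIdeal (MvPowerSeries σ k) ^ 2 →
      u ∈ maximalIdeal (MvPowerSeries σ k) ∧ v ∈ maximalIdeal (MvPowerSeries σ k) := by
  classical
  refine hind_of_coeff (constantCoeff_X i) (constantCoeff_X j) ?_
  intro α β h
  have h1 := h i
  have h2 := h j
  rw [coeff_X, coeff_X, if_pos rfl, if_neg] at h1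
  · rw [coeff_X, coeff_X, if_neg, if_pos rfl] at h2
    · constructor
      · linear_combination h1
      · linear_combination h2
    · intro h3
      exact hij.symm ((Finsupp.single_left_injective one_ne_zero) h3)
  · intro h3
    exact hij ((Finsupp.single_left_injective one_ne_zero) h3)

/-- independence modulo `m^2` over `k` implies independence modulo `m^2` -/
theorem hind_of_field {A k' : Type*} [CommRing A] [IsLocalRing A] [Field k'] [Algebra k' A]
    (hres : ∀ x : A, ∃ α : k', x - algebraMap k' A α ∈ maximalIdeal A) {a e : A}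
    (ha : a ∈ maximalIdeal A) (he : e ∈ maximalIdeal A)
    (h : ∀ α β : k', algebraMap k' A α * a + algebraMap k' A β * e ∈ maximalIdeal A ^ 2 →
      α = 0 ∧ β = 0) :
    ∀ u v : A, u * a + v * e ∈ maximalIdeal A ^ 2 → u ∈ maximalIdeal A ∧ v ∈ maximalIdeal A := by
  intro u v huv
  obtain ⟨α, hα⟩ := hres u
  obtain ⟨β, hβ⟩ := hres v
  have h1 : (u - algebraMap k' A α) * a ∈ maximalIdeal A ^ 2 := by
    rw [pow_two]; exact Ideal.mul_mem_mul hα ha
  have h2 : (v - algebraMap k' A β) * e ∈ maximalIdeal A ^ 2 := by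
    rw [pow_two]; exact Ideal.mul_mem_mul hβ he
  have h3 : algebraMap k' A α * a + algebraMap k' A β * e ∈ maximalIdeal A ^ 2 := by
    have h4 : algebraMap k' A α * a + algebraMap k' A β * e =
        (u * a + v * e) - (u - algebraMap k' A α) * a - (v - algebraMap k' A β) * e := by ring
    rw [h4]
    exact sub_mem (sub_mem huv h1) h2
  obtain ⟨h5, h6⟩ := h α β h3
  rw [h5, map_zero, sub_zero] at hα
  rw [h6, map_zero, sub_zero] at hβ
  exact ⟨hα, hβ⟩

end linear

end Pool.Agent.WFT
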