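import Pool.Agent.WFT.E3Defs

/-! MP_7dd379_ag, block E1: kernels of evaluation maps and saturation. -/

namespace Pool.Agent.WFT

open Polynomial IsLocalRing

/-- if `a ∣ e y → a ∣ y` for the leading coefficient `a` and the constant coefficient `e` of `F`,
then `a G = F H` implies `a ∣ H`. -/
theorem C_dvd_of_mul_eq {A : Type*} [CommRing A] (F : A[X])
    (hreg : ∀ y : A, F.leadingCoeff ∣ F.coeff 0 * y → F.leadingCoeff ∣ y)
    (G H : A[X]) (h : C F.leadingCoeff * G = F * H) : C F.leadingCoeff ∣ H := by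
  rw [Polynomial.C_dvd_iff_dvd_coeff]
  intro i
  induction i using Nat.strong_induction_on with
  | _ i ih =>
    apply hreg
    have h1 : (C F.leadingCoeff * G).coeff i = (F * H).coeff i := by rw [h]
    rw [Polynomial.coeff_C_mul, Polynomial.coeff_mul, Finset.Nat.sum_antidiagonal_eq_sum_range_succ
      (fun a b => F.coeff a * H.coeff b), Finset.sum_range_succ'] at h1
    simp only [Nat.sub_zero] at h1
    have h2 : F.leadingCoeff ∣ ∑ k ∈ Finset.range i, F.coeff (k + 1) * H.coeff (i - (k + 1)) := by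
      refine Finset.dvd_sum fun k hk => ?_
      exact Dvd.dvd.mul_left (ih (i - (k + 1)) (by have := Finset.mem_range.1 hk; omega)) _
    have h3 : F.coeff 0 * H.coeff i = F.leadingCoeff * G.coeff i -
        ∑ k ∈ Finset.range i, F.coeff (k + 1) * H.coeff (i - (k + 1)) := by
      rw [h1]; ring
    rw [h3]
    exact dvd_sub (dvd_mul_right _ _) h2

/-- E1a. Kernel of evaluation at an element of degree 3. -/
theorem ker_dvd {A K L : Type*} [CommRing A] [IsDomain A] [Field K] [Field L] [Algebra A K]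
    [IsFractionRing A K] [Algebra K L] [Algebra A L] [IsScalarTower A K L]
    (F : A[X]) (t : L) (hF : aeval t F = 0) (hdeg : F.natDegree = 3)
    (hindep : ∀ u v w : K, algebraMap K L u + algebraMap K L v * t + algebraMap K L w * t ^ 2 = 0 →
      u = 0 ∧ v = 0 ∧ w = 0)
    (hreg : ∀ y : A, F.leadingCoeff ∣ F.coeff 0 * y → F.leadingCoeff ∣ y)
    (G : A[X]) (hG : aeval t G = 0) : F ∣ G := by
  have hF0 : F ≠ 0 := by
    rintro rfl
    simp at hdeg
  have ha : F.leadingCoeff ≠ 0 := Polynomial.leadingCoeff_ne_zero.2 hF0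
  obtain ⟨n, hn⟩ : ∃ n, G.natDegree ≤ n := ⟨_, le_rfl⟩
  induction n using Nat.strong_induction_on generalizing G with
  | _ n ih =>
    by_cases hG3 : G.natDegree < 3
    · -- `G = 0`
      have h1 : aeval t G = algebraMap K L (algebraMap A K (G.coeff 0)) +
          algebraMap K L (algebraMap A K (G.coeff 1)) * t +
          algebraMap K L (algebraMap A K (G.coeff 2)) * t ^ 2 := by
        rw [Polynomial.aeval_eq_sum_range' hG3]
        simp only [Finset.sum_range_succ, Finset.sum_range_zero, zero_add, pow_zero, pow_one,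
          Algebra.smul_def, mul_one, ← IsScalarTower.algebraMap_apply]
      rw [hG] at h1
      obtain ⟨h2, h3, h4⟩ := hindep _ _ _ h1.symm
      have hinj := IsFractionRing.injective A K
      have hc : ∀ i, G.coeff i = 0 := by
        intro i
        rcases Nat.lt_or_ge i 3 with hi | hi
        · interval_cases i
          · exact hinj (by rw [h2, map_zero])
          · exact hinj (by rw [h3, map_zero])
          · exact hinj (by rw [h4, map_zero])
        · exact Polynomial.coeff_eq_zero_of_natDegree_lt (lt_of_lt_of_le hG3 hi)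
      have : G = 0 := Polynomial.ext fun i => by rw [hc i, Polynomial.coeff_zero]
      rw [this]
      exact dvd_zero _
    · push Not at hG3
      have hG0 : G ≠ 0 := by
        rintro rfl
        simp at hG3
      -- pseudo-division
      obtain ⟨G', hG'⟩ : ∃ G' : A[X], G' = C F.leadingCoeff * G -
        C G.leadingCoeff * X ^ (G.natDegree - 3) * F := ⟨_, rfl⟩
      have hlt : G'.natDegree < n ∨ G' = 0 := by
        by_cases h0 : G' = 0
        · exact Or.inr h0
        left
        refine lt_of_lt_of_le ?_ hn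
        have hd1 : (C F.leadingCoeff * G).degree = G.degree := by
          rw [Polynomial.degree_C_mul ha]
        have hd2 : (C G.leadingCoeff * X ^ (G.natDegree - 3) * F).degree = G.degree := by
          rw [Polynomial.degree_mul, Polynomial.degree_C_mul_X_pow _
            (Polynomial.leadingCoeff_ne_zero.2 hG0), Polynomial.degree_eq_natDegree hF0, hdeg,
            Polynomial.degree_eq_natDegree hG0, ← Nat.cast_add, Nat.sub_add_cancel hG3]
        have hdl : G'.degree < G.degree := by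
          rw [hG', ← hd1]
          refine Polynomial.degree_sub_lt_left (by rw [hd1, hd2])
            (mul_ne_zero (Polynomial.C_ne_zero.2 ha) hG0) ?_
          rw [Polynomial.leadingCoeff_mul, Polynomial.leadingCoeff_mul,
            Polynomial.leadingCoeff_mul, Polynomial.leadingCoeff_C, Polynomial.leadingCoeff_C,
            Polynomial.leadingCoeff_X_pow]
          ring
        exact Polynomial.natDegree_lt_natDegree h0 hdl
      have hev : aeval t G' = 0 := by
        rw [hG', map_sub, map_mul, map_mul, hG, hF, mul_zero, mul_zero, sub_zero]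
      have hdvd : F ∣ G' := by
        rcases hlt with hlt | h0
        · exact ih _ hlt G' hev le_rfl
        · rw [h0]; exact dvd_zero _
      obtain ⟨H', hH'⟩ := hdvd
      have hH : C F.leadingCoeff * G = F * (H' + C G.leadingCoeff * X ^ (G.natDegree - 3)) := by
        rw [mul_add, ← hH', hG']
        ring
      obtain ⟨H, hH2⟩ := C_dvd_of_mul_eq F hreg _ _ hH
      refine ⟨H, ?_⟩
      rw [hH2] at hH
      have h5 : C F.leadingCoeff * G = C F.leadingCoeff * (F * H) := by rw [hH]; ring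
      exact mul_left_cancel₀ (Polynomial.C_ne_zero.2 ha) h5

/-- `x₂` is a nonzerodivisor modulo `(x₁, F)` -/
theorem exists_of_mul_mem {A : Type*} [CommRing A] [IsDomain A] {x₁ x₂ : A} (hx : RegPair x₁ x₂)
    (F : A[X]) (hF : ∃ i, F.coeff i ∉ Ideal.span {x₁, x₂}) (G P Q : A[X])
    (h : C x₂ * G = C x₁ * P + F * Q) : ∃ P' Q' : A[X], G = C x₁ * P' + F * Q' := by
  classical
  have hI : (Ideal.span {x₁, x₂}).IsPrime := hx.prime₁₂
  have hdom : IsDomain (A ⧸ Ideal.span {x₁, x₂}) := Ideal.Quotient.isDomain _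
  obtain ⟨φ, hφ⟩ : ∃ φ : A →+* A ⧸ Ideal.span {x₁, x₂}, φ = Ideal.Quotient.mk _ := ⟨_, rfl⟩
  have h1 : φ x₁ = 0 := by
    rw [hφ, Ideal.Quotient.eq_zero_iff_mem]; exact Ideal.subset_span (by simp)
  have h2 : φ x₂ = 0 := by
    rw [hφ, Ideal.Quotient.eq_zero_iff_mem]; exact Ideal.subset_span (by simp)
  have hFne : F.map φ ≠ 0 := by
    obtain ⟨i, hi⟩ := hF
    intro h0
    apply hi
    have : (F.map φ).coeff i = 0 := by rw [h0, Polynomial.coeff_zero]
    rw [Polynomial.coeff_map, hφ, Ideal.Quotient.eq_zero_iff_mem] at this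
    exact this
  have hQ0 : Q.map φ = 0 := by
    have h3 := congrArg (Polynomial.map φ) h
    rw [Polynomial.map_mul, Polynomial.map_add, Polynomial.map_mul, Polynomial.map_mul,
      Polynomial.map_C, Polynomial.map_C, h1, h2, Polynomial.C_0, zero_mul, zero_mul, zero_add] at h3
    rcases mul_eq_zero.1 h3.symm with h4 | h4
    · exact absurd h4 hFne
    · exact h4
  -- the coefficients of `Q` are in `(x₁, x₂)`
  have hQc : ∀ i, ∃ u v : A, u * x₁ + v * x₂ = Q.coeff i := by
    intro i
    have h3 : (Q.map φ).coeff i = 0 := by rw [hQ0, Polynomial.coeff_zero]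
    rw [Polynomial.coeff_map, hφ, Ideal.Quotient.eq_zero_iff_mem, Ideal.mem_span_pair] at h3
    exact h3
  choose u v huv using hQc
  obtain ⟨Q₁, hQ₁⟩ : ∃ Q₁ : A[X], Q₁ = ∑ i ∈ Finset.range (Q.natDegree + 1), C (u i) * X ^ i :=
    ⟨_, rfl⟩
  obtain ⟨Q₂, hQ₂⟩ : ∃ Q₂ : A[X], Q₂ = ∑ i ∈ Finset.range (Q.natDegree + 1), C (v i) * X ^ i :=
    ⟨_, rfl⟩
  have hQsum : Q = C x₁ * Q₁ + C x₂ * Q₂ := by
    conv_lhs => rw [Polynomial.as_sum_range_C_mul_X_pow Q]
    rw [hQ₁, hQ₂, Finset.mul_sum, Finset.mul_sum, ← Finset.sum_add_distrib]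
    refine Finset.sum_congr rfl fun i _ => ?_
    rw [← huv i, Polynomial.C_add, Polynomial.C_mul, Polynomial.C_mul]
    ring
  have h3 : C x₂ * (G - F * Q₂) = C x₁ * (P + F * Q₁) := by
    rw [mul_sub, h, hQsum]
    ring
  have hp : Prime (C x₁ : A[X]) := by
    rw [Polynomial.prime_C_iff]
    exact (Ideal.span_singleton_prime hx.ne₁).1 hx.prime₁
  have h4 : (C x₁ : A[X]) ∣ G - F * Q₂ := by
    have : (C x₁ : A[X]) ∣ C x₂ * (G - F * Q₂) := by rw [h3]; exact dvd_mul_right _ _
    rcases hp.dvd_or_dvd this with h5 | h5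
    · exfalso
      apply hx.notMem₂
      rw [Ideal.mem_span_singleton]
      rw [Polynomial.C_dvd_iff_dvd_coeff] at h5
      simpa using h5 0
    · exact h5
  obtain ⟨P', hP'⟩ := h4
  exact ⟨P', Q₂, by rw [← hP']; ring⟩

/-- E1b. Saturation: if `ker (A[T] → L) = (F)` and `F ≠ 0` mod `(x₁, x₂)`, then `A[t]` contains every
`s ∈ L` with `x₁^k s, x₂^k s ∈ A[t]`. -/
theorem mem_adjoin_of_pow_mul_mem {A L : Type*} [CommRing A] [IsDomain A] [Field L] [Algebra A L]
    (hinj : Function.Injective (algebraMap A L)) {x₁ x₂ : A} (hx : RegPair x₁ x₂)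
    (F : A[X]) (t : L) (hF0 : aeval t F = 0) (hker : ∀ G : A[X], aeval t G = 0 → F ∣ G)
    (hF : ∃ i, F.coeff i ∉ Ideal.span {x₁, x₂}) (s : L) (k : ℕ)
    (h₁ : algebraMap A L x₁ ^ k * s ∈ Algebra.adjoin A {t})
    (h₂ : algebraMap A L x₂ ^ k * s ∈ Algebra.adjoin A {t}) : s ∈ Algebra.adjoin A {t} := by
  have hx1 : algebraMap A L x₁ ≠ 0 := by
    intro h0
    exact hx.ne₁ (hinj (by rw [h0, map_zero]))
  have hmem : ∀ y : L, y ∈ Algebra.adjoin A {t} ↔ ∃ G : A[X], aeval t G = y := by
    intro y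
    rw [Algebra.adjoin_singleton_eq_range_aeval, AlgHom.mem_range]
  -- `x₂` is a nonzerodivisor modulo `x₁`
  have key : ∀ y z : L, y ∈ Algebra.adjoin A {t} → z ∈ Algebra.adjoin A {t} →
      algebraMap A L x₂ * y = algebraMap A L x₁ * z →
      ∃ y' ∈ Algebra.adjoin A {t}, y = algebraMap A L x₁ * y' := by
    intro y z hy hz h
    obtain ⟨G, rfl⟩ := (hmem y).1 hy
    obtain ⟨P, rfl⟩ := (hmem z).1 hz
    have h0 : aeval t (C x₂ * G - C x₁ * P) = 0 := by
      rw [map_sub, map_mul, map_mul, Polynomial.aeval_C, Polynomial.aeval_C, h, sub_self]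
    obtain ⟨Q, hQ⟩ := hker _ h0
    obtain ⟨P', Q', hPQ⟩ := exists_of_mul_mem hx F hF G P Q (by rw [← hQ]; ring)
    refine ⟨aeval t P', (hmem _).2 ⟨P', rfl⟩, ?_⟩
    rw [hPQ, map_add, map_mul, map_mul, Polynomial.aeval_C, hF0, zero_mul, add_zero]
  have key2 : ∀ (m : ℕ) (y z : L), y ∈ Algebra.adjoin A {t} → z ∈ Algebra.adjoin A {t} →
      algebraMap A L x₂ ^ m * y = algebraMap A L x₁ * z →
      ∃ y' ∈ Algebra.adjoin A {t}, y = algebraMap A L x₁ * y' := by
    intro m
    induction m with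
    | zero =>
      intro y z hy hz h
      exact ⟨z, hz, by rw [← h, pow_zero, one_mul]⟩
    | succ m ih =>
      intro y z hy hz h
      have hy2 : algebraMap A L x₂ ^ m * y ∈ Algebra.adjoin A {t} :=
        Subalgebra.mul_mem _ (Subalgebra.pow_mem _ (Subalgebra.algebraMap_mem _ _) _) hy
      obtain ⟨y', hy', h'⟩ := key (algebraMap A L x₂ ^ m * y) z hy2 hz (by rw [← h]; ring)
      exact ih y y' hy hy' h'
  have main : ∀ (k₁ k₂ : ℕ) (s : L), algebraMap A L x₁ ^ k₁ * s ∈ Algebra.adjoin A {t} →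
      algebraMap A L x₂ ^ k₂ * s ∈ Algebra.adjoin A {t} → s ∈ Algebra.adjoin A {t} := by
    intro k₁ k₂
    induction k₁ with
    | zero =>
      intro s h _
      rwa [pow_zero, one_mul] at h
    | succ k₁ ih =>
      intro s h h'
      refine ih s ?_ h'
      have h2 : algebraMap A L x₂ ^ k₂ * (algebraMap A L x₁ ^ k₁ * s) ∈ Algebra.adjoin A {t} := by
        have : algebraMap A L x₂ ^ k₂ * (algebraMap A L x₁ ^ k₁ * s) =
            algebraMap A L x₁ ^ k₁ * (algebraMap A L x₂ ^ k₂ * s) := by ring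
        rw [this]
        exact Subalgebra.mul_mem _ (Subalgebra.pow_mem _ (Subalgebra.algebraMap_mem _ _) _) h'
      obtain ⟨y', hy', h3⟩ := key2 k₂ (algebraMap A L x₁ ^ (k₁ + 1) * s)
        (algebraMap A L x₂ ^ k₂ * (algebraMap A L x₁ ^ k₁ * s)) h h2 (by ring)
      have h4 : algebraMap A L x₁ ^ k₁ * s = y' := by
        apply mul_left_cancel₀ hx1
        rw [← h3]; ring
      rw [h4]
      exact hy'
  exact main k k s h₁ h₂

end Pool.Agent.WFT
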