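import Pool.Agent.WFT.E3Defs

/-! Module E2: the `#` trick. -/

namespace Pool.Agent.WFT

open Polynomial IsLocalRing

section normdiv

/-- `N(y)/y` is integral for `y` integral. -/
theorem isIntegral_norm_div {A K L : Type*} [CommRing A] [IsDomain A] [IsIntegrallyClosed A]
    [Field K] [Field L] [Algebra A K] [IsFractionRing A K] [Algebra K L] [Algebra A L]
    [IsScalarTower A K L] [FiniteDimensional K L] {y : L} (hy0 : y ≠ 0) (hy : IsIntegral A y) :
    IsIntegral A (algebraMap K L (Algebra.norm K y) / y) := by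
  have hyK : IsIntegral K y := hy.tower_top
  have hP : minpoly K y = (minpoly A y).map (algebraMap A K) :=
    minpoly.isIntegrallyClosed_eq_field_fractions' K hy
  set p0 : A := (minpoly A y).coeff 0 with hp0
  -- `p0 / y` is integral
  have h1 : IsIntegral A (algebraMap A L p0 / y) := by
    have h2 : aeval y (minpoly A y).divX * y + algebraMap A L p0 = 0 := by
      have h3 := minpoly.aeval A y
      rw [← Polynomial.divX_mul_X_add (minpoly A y)] at h3
      simpa [hp0] using h3
    have h4 : algebraMap A L p0 / y = - aeval y (minpoly A y).divX := by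
      rw [div_eq_iff hy0]
      linear_combination h2
    rw [h4]
    refine IsIntegral.neg ?_
    have h5 : aeval y (minpoly A y).divX ∈ Algebra.adjoin A {y} :=
      Polynomial.aeval_mem_adjoin_singleton A y
    exact (adjoin_le_integralClosure hy) h5
  -- the norm of the generator
  have h6 : Algebra.norm K (IntermediateField.AdjoinSimple.gen K y) =
      (-1) ^ (IntermediateField.adjoin.powerBasis hyK).dim * algebraMap A K p0 := by
    have h7 := Algebra.PowerBasis.norm_gen_eq_coeff_zero_minpoly
      (IntermediateField.adjoin.powerBasis hyK)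
    rw [IntermediateField.adjoin.powerBasis_gen, IntermediateField.minpoly_gen, hP,
      Polynomial.coeff_map] at h7
    exact h7
  have hd : 1 ≤ Module.finrank (IntermediateField.adjoin K {y}) L := Module.finrank_pos
  obtain ⟨d, hd'⟩ : ∃ d, Module.finrank (IntermediateField.adjoin K {y}) L = d + 1 :=
    ⟨_, (Nat.sub_add_cancel hd).symm⟩
  have h8 : algebraMap K L (Algebra.norm K y) / y =
      ((-1) ^ (IntermediateField.adjoin.powerBasis hyK).dim) ^ (d + 1) *
        algebraMap A L (p0 ^ d) * (algebraMap A L p0 / y) := by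
    rw [Algebra.norm_eq_norm_adjoin, hd', h6]
    simp only [map_pow, map_mul, map_neg, map_one, ← IsScalarTower.algebraMap_apply A K L]
    rw [mul_pow, pow_succ (algebraMap A L p0)]
    ring
  rw [h8]
  refine IsIntegral.mul (IsIntegral.mul ?_ isIntegral_algebraMap) h1
  exact ((isIntegral_one.neg).pow _).pow _

end normdiv

section cubic

variable {A K L : Type*} [CommRing A] [IsDomain A] [Field K] [Field L] [Algebra A K]
  [IsFractionRing A K] [Algebra K L] [Algebra A L] [IsScalarTower A K L] {a b c e : A} {θ : L}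

/-- the basis `1, θ, θ^2` -/
theorem CubicData.exists_basis (hd : CubicData A K L a b c e θ) :
    ∃ B : Module.Basis (Fin 3) K L, B 0 = 1 ∧ B 1 = θ ∧ B 2 = θ ^ 2 := by
  have hli : LinearIndependent K ![(1 : L), θ, θ ^ 2] := by
    rw [Fintype.linearIndependent_iff]
    intro g hg
    rw [Fin.sum_univ_three] at hg
    simp only [Matrix.cons_val_zero, Matrix.cons_val_one, Matrix.cons_val_two,
      Matrix.head_cons, Matrix.tail_cons, Algebra.smul_def, mul_one] at hg
    obtain ⟨h0, h1, h2⟩ := hd.indep _ _ _ hg
    intro i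
    fin_cases i
    · exact h0
    · exact h1
    · exact h2
  have hsp : ⊤ ≤ Submodule.span K (Set.range ![(1 : L), θ, θ ^ 2]) := by
    intro y _
    obtain ⟨u, v, w, rfl⟩ := hd.span y
    have m0 : (1 : L) ∈ Submodule.span K (Set.range ![(1 : L), θ, θ ^ 2]) :=
      Submodule.subset_span ⟨0, rfl⟩
    have m1 : θ ∈ Submodule.span K (Set.range ![(1 : L), θ, θ ^ 2]) :=
      Submodule.subset_span ⟨1, rfl⟩
    have m2 : θ ^ 2 ∈ Submodule.span K (Set.range ![(1 : L), θ, θ ^ 2]) :=
      Submodule.subset_span ⟨2, rfl⟩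
    have := add_mem (add_mem (Submodule.smul_mem _ u m0) (Submodule.smul_mem _ v m1))
      (Submodule.smul_mem _ w m2)
    simpa [Algebra.smul_def] using this
  refine ⟨Module.Basis.mk hli hsp, ?_, ?_, ?_⟩ <;> rw [Module.Basis.mk_apply] <;> rfl

theorem CubicData.finiteDimensional (hd : CubicData A K L a b c e θ) : FiniteDimensional K L := by
  obtain ⟨B, _⟩ := hd.exists_basis
  exact B.finiteDimensional_of_finite

theorem CubicData.finrank (hd : CubicData A K L a b c e θ) : Module.finrank K L = 3 := by
  obtain ⟨B, _⟩ := hd.exists_basis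
  rw [Module.finrank_eq_card_basis B, Fintype.card_fin]

/-- `N(θ) = -e/a` -/
theorem CubicData.norm_theta (hd : CubicData A K L a b c e θ) (ha : a ≠ 0) :
    Algebra.norm K θ = - (algebraMap A K e / algebraMap A K a) := by
  obtain ⟨B, h0, h1, h2⟩ := hd.exists_basis
  have haK : algebraMap A K a ≠ 0 := by
    rw [Ne, map_eq_zero_iff _ (IsFractionRing.injective A K)]; exact ha
  have haL : algebraMap A L a ≠ 0 := by
    rw [IsScalarTower.algebraMap_apply A K L]
    exact (map_ne_zero (algebraMap K L)).2 haK
  have hroot : algebraMap A L a * θ ^ 3 + algebraMap A L b * θ ^ 2 + algebraMap A L c * θ +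
      algebraMap A L e = 0 := by
    have := hd.root
    simpa [cubicPoly] using this
  set a' := algebraMap A K a with ha'
  set b' := algebraMap A K b with hb'
  set c' := algebraMap A K c with hc'
  set e' := algebraMap A K e with he'
  have hθ3 : θ * B 2 = (-(e' / a')) • B 0 + (-(c' / a')) • B 1 + (-(b' / a')) • B 2 := by
    rw [h0, h1, h2]
    simp only [Algebra.smul_def, map_neg, map_div₀, ha', hb', hc', he',
      ← IsScalarTower.algebraMap_apply A K L]
    field_simp
    linear_combination hroot
  have hM : Algebra.leftMulMatrix B θ = !![0, 0, -(e' / a'); 1, 0, -(c' / a'); 0, 1, -(b' / a')] := by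
    ext i j
    rw [Algebra.leftMulMatrix_eq_repr_mul]
    fin_cases j
    · have : θ * B 0 = B 1 := by rw [h0, h1, mul_one]
      show B.repr (θ * B 0) i = _
      rw [this, B.repr_self]
      fin_cases i <;> simp
    · have : θ * B 1 = B 2 := by rw [h1, h2]; ring
      show B.repr (θ * B 1) i = _
      rw [this, B.repr_self]
      fin_cases i <;> simp
    · show B.repr (θ * B 2) i = _
      rw [hθ3]
      simp only [map_add, map_smul, B.repr_self, Finsupp.add_apply, Finsupp.smul_apply]
      fin_cases i <;> simp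
  rw [Algebra.norm_eq_matrix_det B, hM, Matrix.det_fin_three]
  simp

/-- the integral closure lies in `A[θ]` -/
theorem CubicData.mem_adjoin (hd : CubicData A K L a b c e θ) {y : L} (hy : IsIntegral A y) :
    y ∈ Algebra.adjoin A {θ} := by
  obtain ⟨u, v, w, rfl⟩ := (hd.int_iff y).1 hy
  have hθ : θ ∈ Algebra.adjoin A {θ} := Algebra.subset_adjoin rfl
  have hA : ∀ x : A, algebraMap A L x ∈ Algebra.adjoin A {θ} := fun x =>
    Subalgebra.algebraMap_mem _ x
  exact add_mem (add_mem (hA u) (mul_mem (hA v) (mul_mem (hA a) hθ)))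
    (mul_mem (hA w) (add_mem (mul_mem (hA a) (pow_mem hθ 2)) (mul_mem (hA b) hθ)))

end cubic

/-- E2. `s = (N(r)/r)/a^k` satisfies `a^k s ∈ A[θ]`, `e^k s ∈ A[θ]`. -/
theorem sharp_mem {A K L : Type*} [CommRing A] [IsDomain A] [IsIntegrallyClosed A] [Field K]
    [Field L] [Algebra A K] [IsFractionRing A K] [Algebra K L] [Algebra A L] [IsScalarTower A K L]
    {a b c e : A} {θ : L} (hd : CubicData A K L a b c e θ) (ha : a ≠ 0) (he : e ≠ 0)
    (r : L) (hr0 : r ≠ 0) (k : ℕ) (hr : ColonMem A θ k r) :
    algebraMap A L a ^ k * (algebraMap K L (Algebra.norm K r) / r / algebraMap A L a ^ k) ∈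
        Algebra.adjoin A {θ} ∧
    algebraMap A L e ^ k * (algebraMap K L (Algebra.norm K r) / r / algebraMap A L a ^ k) ∈
        Algebra.adjoin A {θ} := by
  have hfd := hd.finiteDimensional
  have haK : algebraMap A K a ≠ 0 := by
    rw [Ne, map_eq_zero_iff _ (IsFractionRing.injective A K)]; exact ha
  have heK : algebraMap A K e ≠ 0 := by
    rw [Ne, map_eq_zero_iff _ (IsFractionRing.injective A K)]; exact he
  have haL : algebraMap A L a ≠ 0 := by
    rw [IsScalarTower.algebraMap_apply A K L]
    exact (map_ne_zero (algebraMap K L)).2 haK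
  have heL : algebraMap A L e ≠ 0 := by
    rw [IsScalarTower.algebraMap_apply A K L]
    exact (map_ne_zero (algebraMap K L)).2 heK
  have hakL : algebraMap A L a ^ k ≠ 0 := pow_ne_zero _ haL
  have hθ0 : θ ≠ 0 := by
    rintro rfl
    have h1 := hd.root
    simp [cubicPoly] at h1
    exact heL h1
  have hθk : θ ^ k ≠ 0 := pow_ne_zero _ hθ0
  constructor
  · rw [mul_div_cancel₀ _ hakL]
    have h0 : IsIntegral A r := by simpa using hr 0 (Nat.zero_le k)
    exact hd.mem_adjoin (isIntegral_norm_div (K := K) hr0 h0)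
  · have hk : IsIntegral A (r * θ ^ k) := hr k le_rfl
    have hy0 : r * θ ^ k ≠ 0 := mul_ne_zero hr0 hθk
    have h1 := hd.mem_adjoin (isIntegral_norm_div (K := K) hy0 hk)
    have h2 : algebraMap A L e ^ k *
        (algebraMap K L (Algebra.norm K r) / r / algebraMap A L a ^ k) =
        (-1) ^ k * θ ^ k * (algebraMap K L (Algebra.norm K (r * θ ^ k)) / (r * θ ^ k)) := by
      rw [map_mul, map_pow, hd.norm_theta ha, map_mul, map_pow, map_neg, map_div₀,
        ← IsScalarTower.algebraMap_apply A K L, ← IsScalarTower.algebraMap_apply A K L,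
        neg_pow (algebraMap A L e / algebraMap A L a) k, div_pow]
      have hm : ((-1 : L) ^ k) * ((-1) ^ k) = 1 := by rw [← mul_pow]; norm_num
      field_simp
      linear_combination (-((algebraMap K L) ((Algebra.norm K) r))) * hm
    rw [h2]
    have hθ : θ ∈ Algebra.adjoin A {θ} := Algebra.subset_adjoin rfl
    exact mul_mem (mul_mem (pow_mem (neg_mem (one_mem _)) k) (pow_mem hθ k)) h1

end Pool.Agent.WFT
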