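import Pool.Agent.WFT.E3Defs

/-! E3: the final inequality. -/

namespace Pool.Agent.WFT

open Polynomial IsLocalRing IntermediateField

/-- The norm divided by the element is integral. -/
theorem isIntegral_norm_div_aux {D K L : Type*} [CommRing D] [IsDomain D]
    [IsIntegrallyClosed D] [Field K] [Field L] [Algebra D K]
    [IsFractionRing D K] [Algebra K L] [Algebra D L]
    [IsScalarTower D K L] [FiniteDimensional K L] (z : L) (hz : IsIntegral D z) :
    IsIntegral D (algebraMap K L (Algebra.norm K z) / z) := by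
  classical
  by_cases hz0 : z = 0
  · subst hz0
    simp [isIntegral_zero]
  have hzK : IsIntegral K z := IsIntegral.of_finite K z
  set P : D[X] := minpoly D z with hP
  have hPK : minpoly K z = P.map (algebraMap D K) :=
    minpoly.isIntegrallyClosed_eq_field_fractions' K hz
  have hroot : aeval z P = 0 := minpoly.aeval D z
  obtain ⟨m, hm⟩ : ∃ m, Module.finrank K⟮z⟯ L = m + 1 :=
    Nat.exists_eq_succ_of_ne_zero (Module.finrank_pos (R := K⟮z⟯) (M := L)).ne'
  have hnorm : Algebra.norm K z =
      ((-1) ^ (minpoly K z).natDegree * (algebraMap D K (P.coeff 0))) ^ (m + 1) := by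
    rw [Algebra.norm_eq_norm_adjoin K z, hm]
    congr 1
    have h2 := Algebra.PowerBasis.norm_gen_eq_coeff_zero_minpoly
      (IntermediateField.adjoin.powerBasis hzK)
    rw [IntermediateField.adjoin.powerBasis_gen hzK] at h2
    rw [h2, IntermediateField.adjoin.powerBasis_dim hzK, IntermediateField.minpoly_gen, hPK,
      coeff_map]
  have hdiv : aeval z (P.divX) * z + algebraMap D L (P.coeff 0) = 0 := by
    have h3 := congrArg (aeval z) (divX_mul_X_add P)
    rw [hroot] at h3
    simpa using h3
  have hq : algebraMap D L (P.coeff 0) / z = - aeval z P.divX := by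
    field_simp
    linear_combination hdiv
  have hqi : IsIntegral D (algebraMap D L (P.coeff 0) / z) := by
    rw [hq]
    exact (IsIntegral.of_mem_of_fg _ (hz.fg_adjoin_singleton) _
      (aeval_mem_adjoin_singleton D z)).neg
  have hrew : algebraMap K L (Algebra.norm K z) / z =
      (algebraMap K L ((-1) ^ (minpoly K z).natDegree)) ^ (m + 1) *
        (algebraMap D L (P.coeff 0)) ^ m * (algebraMap D L (P.coeff 0) / z) := by
    rw [hnorm, map_pow, map_mul, mul_pow, ← IsScalarTower.algebraMap_apply D K L]
    ring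
  rw [hrew]
  refine (IsIntegral.mul ?_ (isIntegral_algebraMap.pow m)).mul hqi
  rw [map_pow, map_neg, map_one]
  exact ((isIntegral_one.neg).pow _).pow _

/-- E3. If `z = π^Y / r` is integral over `D` (`π = a`) and `s` lies in a ring `V` containing the
integral closure of `D`, in which `π` is not invertible, then `k ≤ 2 Y`. -/
theorem final_ineq {A D K L : Type*} [CommRing A] [IsDomain A] [CommRing D] [IsDomain D]
    [IsIntegrallyClosed D] [Field K] [Field L] [Algebra A D] [Algebra A K] [Algebra D K]
    [IsFractionRing D K] [Algebra K L] [Algebra A L] [Algebra D L] [IsScalarTower A K L]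
    [IsScalarTower D K L] [IsScalarTower A D K] [FiniteDimensional K L]
    (hrank : Module.finrank K L = 3) (a : A) (ha : algebraMap A L a ≠ 0)
    (r : L) (hr0 : r ≠ 0) (k : ℕ) (Y : ℤ) (hz : IsIntegral D (algebraMap A L a ^ Y / r))
    (V : Subring L) (hV : ∀ y : L, IsIntegral D y → y ∈ V) (haV : (algebraMap A L a)⁻¹ ∉ V)
    (hs : algebraMap K L (Algebra.norm K r) / r / algebraMap A L a ^ k ∈ V) : (k : ℤ) ≤ 2 * Y := by
  have haK : algebraMap A L a = algebraMap K L (algebraMap A K a) :=
    IsScalarTower.algebraMap_apply A K L a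
  have haD : algebraMap A L a = algebraMap D L (algebraMap A D a) := by
    rw [haK, IsScalarTower.algebraMap_apply A D K, ← IsScalarTower.algebraMap_apply D K L]
  have hz' := isIntegral_norm_div_aux (K := K) _ hz
  have hnr : algebraMap K L (Algebra.norm K r) ≠ 0 := by
    rw [Ne, FaithfulSMul.algebraMap_eq_zero_iff, Algebra.norm_eq_zero_iff]
    exact hr0
  have hnorm : algebraMap K L (Algebra.norm K (algebraMap A L a ^ Y / r)) =
      algebraMap A L a ^ (3 * Y) / algebraMap K L (Algebra.norm K r) := by
    have h1 : (algebraMap A L a ^ Y / r) * r = algebraMap K L (algebraMap A K a ^ Y) := by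
      rw [div_mul_cancel₀ _ hr0, haK, map_zpow₀]
    have h2 := congrArg (Algebra.norm K) h1
    rw [map_mul, Algebra.norm_algebraMap, hrank] at h2
    have h3 := congrArg (algebraMap K L) h2
    rw [map_mul, map_pow, map_zpow₀, ← haK, ← zpow_natCast, ← zpow_mul] at h3
    rw [eq_div_iff hnr, h3]
    congr 1
    push_cast
    ring
  have hprod : (algebraMap K L (Algebra.norm K (algebraMap A L a ^ Y / r)) /
      (algebraMap A L a ^ Y / r)) *
      (algebraMap K L (Algebra.norm K r) / r / algebraMap A L a ^ k) =
      algebraMap A L a ^ (2 * Y - k) := by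
    rw [hnorm, show (3 * Y) = 2 * Y + Y by ring, zpow_add₀ ha, zpow_sub₀ ha, zpow_natCast]
    field_simp
  have hmem : algebraMap A L a ^ (2 * Y - k) ∈ V := by
    rw [← hprod]
    exact V.mul_mem (hV _ hz') hs
  by_contra hlt
  push Not at hlt
  apply haV
  obtain ⟨m, hm⟩ : ∃ m : ℕ, 2 * Y - k = -((m : ℤ) + 1) :=
    ⟨(k - 2 * Y - 1).toNat, by omega⟩
  have hmemA : algebraMap A L a ∈ V := by
    rw [haD]
    exact hV _ isIntegral_algebraMap
  have : (algebraMap A L a)⁻¹ = algebraMap A L a ^ m * algebraMap A L a ^ (2 * Y - k) := by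
    rw [hm, ← zpow_natCast, ← zpow_add₀ ha]
    rw [show (m : ℤ) + -((m : ℤ) + 1) = -1 by ring, zpow_neg_one]
  rw [this]
  exact V.mul_mem (V.pow_mem hmemA m) hmem

end Pool.Agent.WFT
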