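import Pool.Agent.WFT.E3Defs

/-! MP_7dd379_ag, module E4: Newton iteration (helper66). -/

namespace Pool.Agent.WFT

open Polynomial IsLocalRing

namespace E4aux

variable {A : Type*} [CommRing A]

/-- One Newton step. -/
lemma step {x₁ x₂ : A} (g h : A[X]) {τ μ κ' v : A} {j : ℕ} (hj : 1 ≤ j)
    (hv : g.derivative.eval τ * v = 1)
    (hτ : (C x₁ * g + C x₂ * h).eval τ = x₂ ^ j * (μ * x₁ + κ' * x₂)) :
    ∃ κ : A, (C x₁ * g + C x₂ * h).eval (τ - x₂ ^ j * (μ * v)) = x₂ ^ (j + 1) * κ := by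
  obtain ⟨i, rfl⟩ : ∃ i, j = i + 1 := ⟨j - 1, by omega⟩
  obtain ⟨a, ha⟩ := g.binomExpansion τ (-(x₂ ^ (i + 1) * (μ * v)))
  obtain ⟨b, hb⟩ := Polynomial.sub_dvd_eval_sub (τ - x₂ ^ (i + 1) * (μ * v)) τ h
  rw [sub_sub_cancel_left, sub_eq_iff_eq_add] at hb
  rw [← sub_eq_add_neg] at ha
  simp only [eval_add, eval_mul, eval_C] at hτ ⊢
  refine ⟨κ' + x₁ * a * x₂ ^ i * (μ * v) ^ 2 - μ * v * b, ?_⟩
  rw [ha, hb]
  linear_combination hτ - x₁ * x₂ ^ (i + 1) * μ * hv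

end E4aux

/-- E4. `f = x₁ g + x₂ h` with `g` monic cubic, `p` a simple root of `g` mod `m` and a root of `h` mod
`m`, `f` without root in `A`: there is a lift `τ` of `p` with `f(τ) = x₂^j κ`, `j ≥ 1`,
`κ ∉ (x₁, x₂)`. -/
theorem exists_newton {A : Type*} [CommRing A] [IsDomain A] [IsLocalRing A]
    [IsAdicComplete (maximalIdeal A) A] {x₁ x₂ : A} (hx₁ : x₁ ∈ maximalIdeal A)
    (hx₂ : x₂ ∈ maximalIdeal A) (g h : A[X]) (hg : g.Monic) (p : A)
    (hgp : g.eval p ∈ maximalIdeal A) (hgp' : IsUnit (g.derivative.eval p))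
    (hroot : ∀ t : A, (C x₁ * g + C x₂ * h).eval t ≠ 0) :
    ∃ (τ : A) (j : ℕ) (κ : A), τ - p ∈ maximalIdeal A ∧ 1 ≤ j ∧ κ ∉ Ideal.span {x₁, x₂} ∧
      (C x₁ * g + C x₂ * h).eval τ = x₂ ^ j * κ := by
  classical
  set f : A[X] := C x₁ * g + C x₂ * h with hf
  obtain ⟨t1, ht1, ht1'⟩ := HenselianRing.is_henselian (I := maximalIdeal A) g hg p hgp
    (hgp'.map _)
  have hunit : ∀ t : A, t - p ∈ maximalIdeal A → IsUnit (g.derivative.eval t) := by
    intro t ht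
    obtain ⟨c, hc⟩ := Polynomial.sub_dvd_eval_sub t p g.derivative
    have h1 : g.derivative.eval t - g.derivative.eval p ∈ maximalIdeal A := by
      rw [hc]; exact Ideal.mul_mem_right _ _ ht
    apply IsLocalRing.notMem_maximalIdeal.1
    intro h2
    have h3 := sub_mem h2 h1
    rw [sub_sub_cancel] at h3
    exact (IsLocalRing.mem_maximalIdeal _).1 h3 hgp'
  by_contra hcon
  -- invariant
  let P : ℕ → A → Prop := fun n t => t - p ∈ maximalIdeal A ∧ x₂ ^ (n + 1) ∣ f.eval t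
  have hP0 : P 0 t1 := by
    refine ⟨ht1', h.eval t1, ?_⟩
    rw [hf]
    simp only [eval_add, eval_mul, eval_C, zero_add, pow_one]
    rw [show g.eval t1 = 0 from ht1, mul_zero, zero_add]
  have hstep : ∀ n (t : A), P n t → ∃ t' : A, P (n + 1) t' ∧ x₂ ^ (n + 1) ∣ t' - t := by
    intro n t ht
    obtain ⟨κ, hκ⟩ := ht.2
    have hk : κ ∈ Ideal.span ({x₁, x₂} : Set A) := by
      by_contra hk
      exact hcon ⟨t, n + 1, κ, ht.1, by omega, hk, hκ⟩
    obtain ⟨μ, κ', hμ⟩ := Ideal.mem_span_pair.1 hk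
    obtain ⟨v, hv⟩ := (hunit t ht.1).exists_right_inv
    obtain ⟨κ₁, h₁⟩ := E4aux.step g h (by omega : 1 ≤ n + 1) hv (by rw [← hf, hκ, hμ])
    refine ⟨t - x₂ ^ (n + 1) * (μ * v), ⟨?_, κ₁, h₁⟩, -(μ * v), by ring⟩
    rw [sub_right_comm]
    refine sub_mem ht.1 ?_
    rw [pow_succ, mul_assoc]
    exact Ideal.mul_mem_left _ _ (Ideal.mul_mem_right _ _ hx₂)
  let s : (n : ℕ) → {t : A // P n t} := fun n => Nat.rec
    (⟨t1, hP0⟩ : {t : A // P 0 t})
    (fun n d => ⟨(hstep n d.1 d.2).choose, (hstep n d.1 d.2).choose_spec.1⟩) n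
  have hs : ∀ n, x₂ ^ (n + 1) ∣ (s (n + 1)).1 - (s n).1 := fun n =>
    (hstep n (s n).1 (s n).2).choose_spec.2
  have hmem : ∀ n (y : A), x₂ ^ (n + 1) ∣ y → y ∈ (maximalIdeal A) ^ n := by
    rintro n y ⟨c, rfl⟩
    exact Ideal.mul_mem_right _ _ (Ideal.pow_le_pow_right (Nat.le_succ n)
      (Ideal.pow_mem_pow hx₂ (n + 1)))
  have hcauchy : ∀ {m n : ℕ}, m ≤ n → (s n).1 - (s m).1 ∈ (maximalIdeal A) ^ m := by
    intro m n hmn
    induction n, hmn using Nat.le_induction with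
    | base => simp
    | succ n hmn ih =>
      have := add_mem (Ideal.pow_le_pow_right hmn (hmem n _ (hs n))) ih
      rwa [sub_add_sub_cancel] at this
  obtain ⟨L, hL⟩ := IsPrecomplete.prec' (I := maximalIdeal A) (M := A) (fun n => (s n).1) (by
    intro m n hmn
    rw [SModEq.comm, SModEq.sub_mem]
    simpa using hcauchy hmn)
  apply hroot L
  refine IsHausdorff.haus' (I := maximalIdeal A) (M := A) _ fun n => ?_
  have hLn := hL n
  rw [SModEq.sub_mem] at hLn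
  rw [SModEq.sub_mem, sub_zero]
  have hLn' : (s n).1 - L ∈ (maximalIdeal A) ^ n := by simpa using hLn
  have h1 : f.eval (s n).1 - f.eval L ∈ (maximalIdeal A) ^ n := by
    obtain ⟨c, hc⟩ := Polynomial.sub_dvd_eval_sub (s n).1 L f
    rw [hc]; exact Ideal.mul_mem_right _ _ hLn'
  have h2 : f.eval (s n).1 ∈ (maximalIdeal A) ^ n := hmem n _ (s n).2.2
  have h3 := sub_mem h2 h1
  rw [sub_sub_cancel] at h3
  simpa using h3

end Pool.Agent.WFT
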