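import Pool.Agent.WFT.E3Defs
import Pool.Agent.WFT.E3_1

/-! MP_7dd379_ag, module E5a (note 910): `s ∈ A[τ₁]`. -/

namespace Pool.Agent.WFT

open Polynomial IsLocalRing

/-- Division by a prime element. -/
lemma dvd_of_prime_span {A : Type*} [CommRing A] {x κ y : A} (hp : (Ideal.span {x}).IsPrime)
    (hκ : κ ∉ Ideal.span {x}) (h : x ∣ κ * y) : x ∣ y := by
  have h' : κ * y ∈ Ideal.span {x} := Ideal.mem_span_singleton.2 h
  rcases hp.mem_or_mem h' with h1 | h1
  · exact absurd h1 hκ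
  · exact Ideal.mem_span_singleton.1 h1

/-- Division by a power of a prime element. -/
lemma pow_dvd_of_prime_span {A : Type*} [CommRing A] [IsDomain A] {x κ : A} (hx : x ≠ 0)
    (hp : (Ideal.span {x}).IsPrime) (hκ : κ ∉ Ideal.span {x}) (n : ℕ) :
    ∀ y : A, x ^ n ∣ κ * y → x ^ n ∣ y := by
  induction n with
  | zero => intro y _; simp
  | succ n ih =>
    intro y h
    have h1 : x ∣ κ * y := (dvd_pow_self x (Nat.succ_ne_zero n)).trans h
    obtain ⟨y₁, rfl⟩ := dvd_of_prime_span hp hκ h1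
    have h2 : x ^ n ∣ κ * y₁ := by
      obtain ⟨w, hw⟩ := h
      refine ⟨w, mul_left_cancel₀ hx ?_⟩
      calc x * (κ * y₁) = κ * (x * y₁) := by ring
        _ = x ^ (n + 1) * w := hw
        _ = x * (x ^ n * w) := by ring
    have h3 := ih y₁ h2
    rw [pow_succ, mul_comm]
    exact mul_dvd_mul_left x h3

/-- E5a. `s ∈ A[τ₁]`, `τ₁ = (θ - τ)/x₂^j`, when `f(τ) = x₂^j κ`, `κ ∉ (x₁, x₂)`, all coefficients of
`f` in `(x₁, x₂)`, leading coefficient `x₁`. -/
theorem mem_adjoin_tau {A K L : Type*} [CommRing A] [IsDomain A] [Field K] [Field L] [Algebra A K]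
    [IsFractionRing A K] [Algebra K L] [Algebra A L] [IsScalarTower A K L]
    {x₁ x₂ b c e : A} (hx : RegPair x₁ x₂) {θ : L}
    (hroot : aeval θ (cubicPoly x₁ b c e) = 0)
    (hindep : ∀ u v w : K, algebraMap K L u + algebraMap K L v * θ + algebraMap K L w * θ ^ 2 = 0 →
      u = 0 ∧ v = 0 ∧ w = 0)
    (hb : b ∈ Ideal.span {x₁, x₂}) (hc : c ∈ Ideal.span {x₁, x₂}) (he : e ∈ Ideal.span {x₁, x₂})
    (τ κ : A) (j : ℕ) (hj : 1 ≤ j) (hτ : (cubicPoly x₁ b c e).eval τ = x₂ ^ j * κ)
    (hκ : κ ∉ Ideal.span {x₁, x₂}) (s : L) (k : ℕ)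
    (h₁ : algebraMap A L x₁ ^ k * s ∈ Algebra.adjoin A {θ})
    (h₂ : algebraMap A L x₂ ^ k * s ∈ Algebra.adjoin A {θ}) :
    s ∈ Algebra.adjoin A {(θ - algebraMap A L τ) / algebraMap A L x₂ ^ j} := by
  classical
  have hinj : Function.Injective (algebraMap A L) := by
    rw [IsScalarTower.algebraMap_eq A K L]
    exact (algebraMap K L).injective.comp (IsFractionRing.injective A K)
  set y₂ : L := algebraMap A L x₂ with hy₂
  have hy₂0 : y₂ ≠ 0 := by
    rw [hy₂, Ne, map_eq_zero_iff _ hinj]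
    exact hx.ne₂
  set t : L := (θ - algebraMap A L τ) / y₂ ^ j with ht
  have hθ : θ = algebraMap A L τ + y₂ ^ j * t := by
    rw [ht]
    field_simp
    ring
  have hκ1 : κ ∉ Ideal.span {x₁} := fun h => hκ (Ideal.span_mono (by simp) h)
  have hκ2 : κ ∉ Ideal.span {x₂} := fun h => hκ (Ideal.span_mono (by simp) h)
  set F : A[X] := cubicPoly (x₁ * x₂ ^ (2 * j)) ((3 * x₁ * τ + b) * x₂ ^ j)
    (3 * x₁ * τ ^ 2 + 2 * b * τ + c) κ with hFdef
  have hlead : x₁ * x₂ ^ (2 * j) ≠ 0 := mul_ne_zero hx.ne₁ (pow_ne_zero _ hx.ne₂)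
  have hdeg : F.natDegree = 3 := by
    rw [hFdef]
    exact natDegree_cubic hlead
  have hlc : F.leadingCoeff = x₁ * x₂ ^ (2 * j) := by
    rw [hFdef]
    exact leadingCoeff_cubic hlead
  have hc0 : F.coeff 0 = κ := by
    rw [hFdef]
    simp [cubicPoly]
  have hF0 : aeval t F = 0 := by
    have e1 : y₂ ^ j * aeval t F = 0 := by
      have h3 : aeval θ (cubicPoly x₁ b c e) = y₂ ^ j * aeval t F := by
        have hτ' : algebraMap A L x₁ * algebraMap A L τ ^ 3 + algebraMap A L b * algebraMap A L τ ^ 2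
            + algebraMap A L c * algebraMap A L τ + algebraMap A L e = y₂ ^ j * algebraMap A L κ := by
          have := congrArg (algebraMap A L) hτ
          simpa [cubicPoly, hy₂] using this
        rw [hFdef]
        simp only [cubicPoly, map_add, map_mul, aeval_C, aeval_X, map_pow, map_ofNat]
        rw [hθ]
        linear_combination hτ'
      rw [← h3, hroot]
    exact (mul_eq_zero.1 e1).resolve_left (pow_ne_zero _ hy₂0)
  have hind' : ∀ u v w : K, algebraMap K L u + algebraMap K L v * t + algebraMap K L w * t ^ 2 = 0 →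
      u = 0 ∧ v = 0 ∧ w = 0 := by
    intro u v w h
    have hX : algebraMap K L (algebraMap A K x₂) = y₂ := by
      rw [hy₂, IsScalarTower.algebraMap_apply A K L]
    have hT : algebraMap K L (algebraMap A K τ) = algebraMap A L τ := by
      rw [IsScalarTower.algebraMap_apply A K L]
    have hx2K : algebraMap A K x₂ ≠ 0 := by
      rw [Ne, map_eq_zero_iff _ (IsFractionRing.injective A K)]
      exact hx.ne₂
    have key := hindep (u * algebraMap A K x₂ ^ (2 * j)
        - v * algebraMap A K x₂ ^ j * algebraMap A K τ + w * algebraMap A K τ ^ 2)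
      (v * algebraMap A K x₂ ^ j - 2 * w * algebraMap A K τ) w (by
        simp only [map_add, map_sub, map_mul, map_pow, hX, hT, map_ofNat]
        rw [hθ]
        have : y₂ ^ (2 * j) * (algebraMap K L u + algebraMap K L v * t + algebraMap K L w * t ^ 2)
            = 0 := by rw [h, mul_zero]
        linear_combination this)
    obtain ⟨k1, k2, k3⟩ := key
    subst k3
    have hv : v = 0 := by
      have : v * algebraMap A K x₂ ^ j = 0 := by linear_combination k2
      exact (mul_eq_zero.1 this).resolve_right (pow_ne_zero _ hx2K)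
    subst hv
    have hu : u = 0 := by
      have : u * algebraMap A K x₂ ^ (2 * j) = 0 := by linear_combination k1
      exact (mul_eq_zero.1 this).resolve_right (pow_ne_zero _ hx2K)
    exact ⟨hu, rfl, rfl⟩
  have hreg : ∀ y : A, F.leadingCoeff ∣ F.coeff 0 * y → F.leadingCoeff ∣ y := by
    intro y h
    rw [hlc, hc0] at h
    rw [hlc]
    obtain ⟨y₁, rfl⟩ := dvd_of_prime_span hx.prime₁ hκ1 ((dvd_mul_right _ _).trans h)
    have h2 : x₂ ^ (2 * j) ∣ κ * y₁ := by
      obtain ⟨w, hw⟩ := h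
      refine ⟨w, mul_left_cancel₀ hx.ne₁ ?_⟩
      calc x₁ * (κ * y₁) = κ * (x₁ * y₁) := by ring
        _ = x₁ * x₂ ^ (2 * j) * w := hw
        _ = x₁ * (x₂ ^ (2 * j) * w) := by ring
    exact mul_dvd_mul_left x₁ (pow_dvd_of_prime_span hx.ne₂ hx.prime₂ hκ2 _ _ h2)
  have hker : ∀ G : A[X], aeval t G = 0 → F ∣ G :=
    fun G hG => ker_dvd (K := K) F t hF0 hdeg hind' hreg G hG
  have hθmem : θ ∈ Algebra.adjoin A {t} := by
    rw [hθ]
    refine add_mem (Subalgebra.algebraMap_mem _ _) (mul_mem ?_ (Algebra.self_mem_adjoin_singleton A t))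
    rw [hy₂, ← map_pow]
    exact Subalgebra.algebraMap_mem _ _
  have hle : Algebra.adjoin A {θ} ≤ Algebra.adjoin A {t} :=
    Algebra.adjoin_le (by simpa using hθmem)
  exact mem_adjoin_of_pow_mul_mem hinj hx F t hF0 hker ⟨0, by rwa [hc0]⟩ s k (hle h₁) (hle h₂)

end Pool.Agent.WFT
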