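import Pool.Agent.WFT.E3_1

/-! MP_7dd379_ag, block E5b: a valuation ring containing `τ₁ = (θ - τ)/x₂^j`. -/

namespace Pool.Agent.WFT

open Polynomial IsLocalRing

/-- E5b. If moreover `κ ∈ m_A` and `z(τ) = f'(τ) ∉ m_A^2`, there is a valuation subring `V` of `L`
containing the integral closure of `D` and `τ₁`, with `1/x₁ ∉ V`. -/
theorem exists_valuation_tau {A D K L : Type*} [CommRing A] [IsDomain A] [IsLocalRing A]
    [CommRing D] [IsDomain D] [IsIntegrallyClosed D] [Field K] [Field L] [Algebra A D] [Algebra A K]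
    [Algebra D K] [IsFractionRing A K] [IsFractionRing D K] [Algebra K L] [Algebra A L] [Algebra D L]
    [IsScalarTower A K L] [IsScalarTower D K L] [IsScalarTower A D K]
    {x₁ x₂ b c e : A} (_hx₁ : x₁ ∈ maximalIdeal A) (hx₂ : x₂ ∈ maximalIdeal A)
    (hb : b ∈ maximalIdeal A) (hc : c ∈ maximalIdeal A) (he : e ∈ maximalIdeal A) (hx₁0 : x₁ ≠ 0)
    (hx₂0 : x₂ ≠ 0) (hD : OrdRing A D x₁) {θ : L} (hroot : aeval θ (cubicPoly x₁ b c e) = 0)
    (hindep : ∀ u v w : K, algebraMap K L u + algebraMap K L v * θ + algebraMap K L w * θ ^ 2 = 0 →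
      u = 0 ∧ v = 0 ∧ w = 0)
    (τ κ : A) (j : ℕ) (hj : 1 ≤ j) (hτ : (cubicPoly x₁ b c e).eval τ = x₂ ^ j * κ)
    (hκ : κ ∈ maximalIdeal A) (hder : (cubicPoly x₁ b c e).derivative.eval τ ∉ maximalIdeal A ^ 2) :
    ∃ V : Subring L, (∀ y : L, IsIntegral D y → y ∈ V) ∧ (algebraMap A L x₁)⁻¹ ∉ V ∧
      (θ - algebraMap A L τ) / algebraMap A L x₂ ^ j ∈ V := by
  classical
  -- maps
  have hAL : ∀ y : A, algebraMap D L (algebraMap A D y) = algebraMap A L y := by
    intro y
    rw [IsScalarTower.algebraMap_apply D K L, ← IsScalarTower.algebraMap_apply A D K,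
      ← IsScalarTower.algebraMap_apply A K L]
  have hinjA : Function.Injective (algebraMap A L) := by
    rw [IsScalarTower.algebraMap_eq A K L]
    exact (algebraMap K L).injective.comp (IsFractionRing.injective A K)
  have hinjD : Function.Injective (algebraMap D L) := by
    rw [IsScalarTower.algebraMap_eq D K L]
    exact (algebraMap K L).injective.comp (IsFractionRing.injective D K)
  obtain ⟨π, hπ⟩ : ∃ π : D, π = algebraMap A D x₁ := ⟨_, rfl⟩
  have hπ0 : π ≠ 0 := by
    intro h0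
    apply hx₁0
    apply hinjA
    rw [← hAL, ← hπ, h0, map_zero, map_zero]
  have hπL : algebraMap D L π = algebraMap A L x₁ := by rw [hπ, hAL]
  have hx1L : algebraMap A L x₁ ≠ 0 := fun h0 => hx₁0 (hinjA (by rw [h0, map_zero]))
  have hx2L : algebraMap A L x₂ ≠ 0 := fun h0 => hx₂0 (hinjA (by rw [h0, map_zero]))
  -- divide by `x₁`
  obtain ⟨b', hb'⟩ := hD.dvd_of_mem b hb
  obtain ⟨c', hc'⟩ := hD.dvd_of_mem c hc
  obtain ⟨e', he'⟩ := hD.dvd_of_mem e he
  obtain ⟨κ', hκ'⟩ := hD.dvd_of_mem κ hκ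
  obtain ⟨x₂', hx₂'⟩ := hD.dvd_of_mem x₂ hx₂
  rw [← hπ] at hb' hc' he' hκ' hx₂'
  obtain ⟨t, ht⟩ : ∃ t : D, t = algebraMap A D τ := ⟨_, rfl⟩
  obtain ⟨X₂, hX₂⟩ : ∃ X₂ : D, X₂ = algebraMap A D x₂ := ⟨_, rfl⟩
  -- value of `F` at `τ`
  have hFτ : t ^ 3 + b' * t ^ 2 + c' * t + e' = X₂ ^ j * κ' := by
    apply mul_left_cancel₀ hπ0
    have h1 := congrArg (algebraMap A D) hτ
    simp only [cubicPoly, Polynomial.eval_add, Polynomial.eval_mul, Polynomial.eval_C,
      Polynomial.eval_pow, Polynomial.eval_X, map_add, map_mul, map_pow] at h1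
    rw [← hπ, ← ht, hb', hc', he', hκ', ← hX₂] at h1
    linear_combination h1
  -- derivative at `τ` is a unit
  have hder' : IsUnit (3 * t ^ 2 + 2 * b' * t + c') := by
    obtain ⟨d, hd⟩ := hD.dvd_of_notMem _ hder
    simp only [cubicPoly, Polynomial.derivative_mul,
      Polynomial.derivative_C, Polynomial.derivative_X_pow, Polynomial.derivative_X,
      Polynomial.eval_add, Polynomial.eval_mul, Polynomial.eval_C, Polynomial.eval_pow,
      Polynomial.eval_X, map_add, map_mul, map_pow, zero_mul, zero_add, mul_one, add_zero,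
      Nat.cast_ofNat, Polynomial.eval_ofNat, map_ofNat] at hd
    norm_num at hd
    rw [← hπ, ← ht, hb', hc'] at hd
    refine IsUnit.of_mul_eq_one d ?_
    apply mul_left_cancel₀ hπ0
    linear_combination -hd
  -- the polynomial `F`
  obtain ⟨F, hF⟩ : ∃ F : D[X], F = C 1 * X ^ 3 + C b' * X ^ 2 + C c' * X + C e' := ⟨_, rfl⟩
  have hFdeg : F.natDegree = 3 := by
    rw [hF]; exact Polynomial.natDegree_cubic one_ne_zero
  have hFlc : F.leadingCoeff = 1 := by
    rw [hF]; exact Polynomial.leadingCoeff_cubic one_ne_zero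
  have hFev : ∀ y : L, aeval y F = y ^ 3 + algebraMap D L b' * y ^ 2 + algebraMap D L c' * y +
      algebraMap D L e' := by
    intro y
    rw [hF]
    simp
  have hFθ' : θ ^ 3 + algebraMap D L b' * θ ^ 2 + algebraMap D L c' * θ +
      algebraMap D L e' = 0 := by
    apply mul_left_cancel₀ hx1L
    have h1 := hroot
    simp only [cubicPoly, map_add, map_mul, map_pow, Polynomial.aeval_C, Polynomial.aeval_X] at h1
    rw [← hAL b, ← hAL c, ← hAL e, hb', hc', he', map_mul, map_mul, map_mul, hπL] at h1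
    linear_combination h1
  have hFθ : aeval θ F = 0 := by rw [hFev, hFθ']
  have hker : ∀ G : D[X], aeval θ G = 0 → F ∣ G := fun G hG =>
    ker_dvd (K := K) F θ hFθ hFdeg hindep (by rw [hFlc]; exact fun y _ => one_dvd y) G hG
  -- the ring `D[θ]` and the ideal `(x₁, θ - τ)`
  obtain ⟨B, hB⟩ : ∃ B : Subring L, B = (Algebra.adjoin D {θ}).toSubring := ⟨_, rfl⟩
  have hBmem : ∀ y : L, y ∈ B ↔ ∃ G : D[X], aeval θ G = y := by
    intro y
    rw [hB, Subalgebra.mem_toSubring, Algebra.adjoin_singleton_eq_range_aeval, AlgHom.mem_range]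
  have hDB : ∀ y : D, algebraMap D L y ∈ B := fun y => (hBmem _).2 ⟨C y, by simp⟩
  have hθB : θ ∈ B := (hBmem _).2 ⟨X, by simp⟩
  obtain ⟨p₁, hp₁⟩ : ∃ p₁ : B, (p₁ : L) = algebraMap D L π := ⟨⟨_, hDB π⟩, rfl⟩
  obtain ⟨p₂, hp₂⟩ : ∃ p₂ : B, (p₂ : L) = θ - algebraMap D L t :=
    ⟨⟨_, B.sub_mem hθB (hDB t)⟩, rfl⟩
  have hI : Ideal.span {p₁, p₂} ≠ ⊤ := by
    intro htop
    have h1 : (1 : B) ∈ Ideal.span {p₁, p₂} := by rw [htop]; exact Submodule.mem_top
    rw [Ideal.mem_span_pair] at h1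
    obtain ⟨P, Q, hPQ⟩ := h1
    obtain ⟨P', hP'⟩ := (hBmem _).1 P.2
    obtain ⟨Q', hQ'⟩ := (hBmem _).1 Q.2
    have h2 : aeval θ (P' * C π + Q' * (X - C t) - 1) = 0 := by
      have h3 := congrArg (Subtype.val) hPQ
      simp only [Subring.coe_add, Subring.coe_mul, Subring.coe_one, hp₁, hp₂, ← hP', ← hQ'] at h3
      rw [map_sub, map_add, map_mul, map_mul, map_sub, Polynomial.aeval_C, Polynomial.aeval_C,
        Polynomial.aeval_X, map_one, h3, sub_self]
    obtain ⟨H, hH⟩ := hker _ h2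
    have h4 := congrArg (Polynomial.eval t) hH
    rw [Polynomial.eval_sub, Polynomial.eval_add, Polynomial.eval_mul, Polynomial.eval_mul,
      Polynomial.eval_mul, Polynomial.eval_sub, Polynomial.eval_C, Polynomial.eval_C,
      Polynomial.eval_X, Polynomial.eval_one, sub_self, mul_zero, add_zero] at h4
    have h5 : F.eval t = X₂ ^ j * κ' := by
      rw [← hFτ, hF]
      simp
    rw [h5] at h4
    apply hD.nonunit
    rw [← hπ]
    obtain ⟨i, rfl⟩ : ∃ i, j = i + 1 := ⟨j - 1, by omega⟩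
    refine IsUnit.of_mul_eq_one (P'.eval t - X₂ ^ i * x₂' * κ' * H.eval t) ?_
    have h6 : X₂ = π * x₂' := by rw [hX₂]; exact hx₂'
    have h7 : X₂ ^ (i + 1) = X₂ ^ i * (π * x₂') := by rw [pow_succ]; nth_rewrite 2 [h6]; rfl
    rw [h7] at h4
    linear_combination h4
  obtain ⟨V, hBV, hIV⟩ := Ideal.image_subset_nonunits_valuationSubring _ hI
  have hm₁ : algebraMap D L π ∈ V.nonunits := by
    apply hIV
    exact ⟨p₁, Ideal.subset_span (by simp), hp₁⟩
  have hm₂ : θ - algebraMap D L t ∈ V.nonunits := by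
    apply hIV
    exact ⟨p₂, Ideal.subset_span (by simp), hp₂⟩
  have hDV : ∀ y : D, algebraMap D L y ∈ V := fun y => hBV (hDB y)
  have hθV : θ ∈ V := hBV hθB
  have hnon : ∀ y : L, y ∈ V.nonunits ↔ V.valuation y < 1 := fun y => Iff.rfl
  have hmemV : ∀ y : L, y ∈ V ↔ V.valuation y ≤ 1 := fun y =>
    (ValuationSubring.valuation_le_one_iff V y).symm
  refine ⟨V.toSubring, ?_, ?_, ?_⟩
  · intro y hy
    -- valuation rings are integrally closed
    have h1 : IsIntegral V y := by
      obtain ⟨G, hG, hGy⟩ := hy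
      let ι : D →+* V := (algebraMap D L).codRestrict V.toSubring hDV
      refine ⟨G.map ι, hG.map ι, ?_⟩
      rw [Polynomial.eval₂_map]
      exact hGy
    obtain ⟨z, hz⟩ := (IsIntegrallyClosed.isIntegral_iff (R := V) (K := L)).1 h1
    rw [← hz]
    exact z.2
  · intro h1
    rw [← hπL] at h1
    have h2 : V.valuation (algebraMap D L π)⁻¹ ≤ 1 := (hmemV _).1 h1
    have h3 : V.valuation (algebraMap D L π) < 1 := (hnon _).1 hm₁
    have h4 : V.valuation (algebraMap D L π) ≠ 0 := by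
      rw [Valuation.ne_zero_iff, hπL]; exact hx1L
    rw [map_inv₀] at h2
    have h5 : (1 : V.ValueGroup) ≤ V.valuation (algebraMap D L π) :=
      (inv_le_one₀ (zero_lt_iff.2 h4)).1 h2
    exact absurd h3 (not_lt.2 h5)
  · -- `Z(θ)` is a unit of `V`
    obtain ⟨Z, hZ⟩ : ∃ Z : L, Z = θ ^ 2 + θ * algebraMap D L t + algebraMap D L t ^ 2 +
      algebraMap D L b' * (θ + algebraMap D L t) + algebraMap D L c' := ⟨_, rfl⟩
    have hZ1 : Z = algebraMap D L (3 * t ^ 2 + 2 * b' * t + c') +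
        (θ - algebraMap D L t) * (θ + 2 * algebraMap D L t + algebraMap D L b') := by
      rw [hZ]
      simp only [map_add, map_mul, map_pow, map_ofNat]
      ring
    have hZv : V.valuation Z = 1 := by
      have hu : V.valuation (algebraMap D L (3 * t ^ 2 + 2 * b' * t + c')) = 1 := by
        obtain ⟨u, hu⟩ := hder'
        have h1 : V.valuation (algebraMap D L (u : D)) ≤ 1 := (hmemV _).1 (hDV _)
        have h2 : V.valuation (algebraMap D L ((u⁻¹ : Dˣ) : D)) ≤ 1 := (hmemV _).1 (hDV _)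
        have h3 : V.valuation (algebraMap D L (u : D)) *
            V.valuation (algebraMap D L ((u⁻¹ : Dˣ) : D)) = 1 := by
          rw [← map_mul, ← map_mul, Units.mul_inv, map_one, map_one]
        rw [← hu]
        refine le_antisymm h1 ?_
        calc (1 : V.ValueGroup) = V.valuation (algebraMap D L (u : D)) *
            V.valuation (algebraMap D L ((u⁻¹ : Dˣ) : D)) := h3.symm
          _ ≤ V.valuation (algebraMap D L (u : D)) * 1 := mul_le_mul_right h2 _
          _ = _ := mul_one _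
      have hw : V.valuation ((θ - algebraMap D L t) *
          (θ + 2 * algebraMap D L t + algebraMap D L b')) < 1 := by
        rw [map_mul]
        have h1 : V.valuation (θ - algebraMap D L t) < 1 := (hnon _).1 hm₂
        have h2 : V.valuation (θ + 2 * algebraMap D L t + algebraMap D L b') ≤ 1 := by
          apply (hmemV _).1
          refine V.add_mem _ _ (V.add_mem _ _ hθV (V.mul_mem _ _ ?_ (hDV t))) (hDV b')
          have h3 := hDV 2
          rwa [map_ofNat] at h3
        exact mul_lt_one_of_lt_of_le h1 h2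
      rw [hZ1, Valuation.map_add_eq_of_lt_left, hu]
      rw [hu]; exact hw
    have hmul : (θ - algebraMap D L t) * Z = -(algebraMap D L X₂ ^ j * algebraMap D L κ') := by
      have h1 : algebraMap D L X₂ ^ j * algebraMap D L κ' = algebraMap D L (X₂ ^ j * κ') := by
        rw [map_mul, map_pow]
      rw [h1, ← hFτ, hZ]
      simp only [map_add, map_mul, map_pow]
      linear_combination hFθ'
    have hZ0 : Z ≠ 0 := by
      intro h0
      rw [h0, map_zero] at hZv
      exact zero_ne_one hZv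
    have hX₂L : algebraMap D L X₂ = algebraMap A L x₂ := by rw [hX₂, hAL]
    have htL : algebraMap D L t = algebraMap A L τ := by rw [ht, hAL]
    have h2 : (θ - algebraMap A L τ) / algebraMap A L x₂ ^ j = -(algebraMap D L κ') / Z := by
      rw [hX₂L, htL] at hmul
      rw [div_eq_div_iff (pow_ne_zero _ hx2L) hZ0, hmul]
      ring
    rw [h2]
    show _ ∈ V
    rw [hmemV, map_div₀, hZv, div_one, Valuation.map_neg]
    exact (hmemV _).1 (hDV κ')

end Pool.Agent.WFT
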