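import Pool.Agent.WFT.E3Defs

/-! MP_7dd379_ag, block E3, modules E6a, E6b, E6e. -/

namespace Pool.Agent.WFT

open Polynomial IsLocalRing

/-- E6a. `y ∈ A + Aθ + Aθ^2` and `y θ^2 ∈ A + Aθ + Aθ^2` imply `y` integral over `A` (`θ ≠ 0`). -/
theorem isIntegral_of_mul_sq {A L : Type*} [CommRing A] [Field L] [Algebra A L] {θ y : L}
    (hθ : θ ≠ 0) (h1 : ∃ U : A[X], U.natDegree ≤ 2 ∧ y = aeval θ U)
    (h2 : ∃ U : A[X], U.natDegree ≤ 2 ∧ y * θ ^ 2 = aeval θ U) : IsIntegral A y := by
  classical
  obtain ⟨U, hU, hyU⟩ := h1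
  obtain ⟨V, hV, hyV⟩ := h2
  have hUe : y = algebraMap A L (U.coeff 0) + algebraMap A L (U.coeff 1) * θ
      + algebraMap A L (U.coeff 2) * θ ^ 2 := by
    rw [hyU, aeval_eq_sum_range' (n := 3) (by omega)]
    simp [Finset.sum_range_succ, Algebra.smul_def]
  have hVe : y * θ ^ 2 = algebraMap A L (V.coeff 0) + algebraMap A L (V.coeff 1) * θ
      + algebraMap A L (V.coeff 2) * θ ^ 2 := by
    rw [hyV, aeval_eq_sum_range' (n := 3) (by omega)]
    simp [Finset.sum_range_succ, Algebra.smul_def]
  set g : Fin 5 → L := ![(θ ^ 2)⁻¹, θ⁻¹, 1, θ, θ ^ 2] with hg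
  set N : Submodule A L := Submodule.span A (Set.range g) with hN
  have hmem : ∀ i : Fin 5, g i ∈ N := fun i => Submodule.subset_span ⟨i, rfl⟩
  have g0 : (θ ^ 2)⁻¹ ∈ N := hmem 0
  have g1 : θ⁻¹ ∈ N := hmem 1
  have g2 : (1 : L) ∈ N := hmem 2
  have g3 : θ ∈ N := hmem 3
  have g4 : θ ^ 2 ∈ N := hmem 4
  have hNbot : N ≠ ⊥ := by
    intro h
    rw [h] at g2
    exact one_ne_zero ((Submodule.mem_bot A).1 g2)
  have hNfg : N.FG := Submodule.fg_span (Set.finite_range g)
  have hsm : ∀ (u : A) (v : L), v ∈ N → algebraMap A L u * v ∈ N := by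
    intro u v hv
    rw [← Algebra.smul_def]
    exact N.smul_mem u hv
  have e0 : y * (θ ^ 2)⁻¹ ∈ N := by
    have : y * (θ ^ 2)⁻¹ = algebraMap A L (U.coeff 0) * (θ ^ 2)⁻¹
        + algebraMap A L (U.coeff 1) * θ⁻¹ + algebraMap A L (U.coeff 2) * 1 := by
      rw [hUe]; field_simp
    rw [this]
    exact N.add_mem (N.add_mem (hsm _ _ g0) (hsm _ _ g1)) (hsm _ _ g2)
  have e1 : y * θ⁻¹ ∈ N := by
    have : y * θ⁻¹ = algebraMap A L (U.coeff 0) * θ⁻¹
        + algebraMap A L (U.coeff 1) * 1 + algebraMap A L (U.coeff 2) * θ := by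
      rw [hUe]; field_simp
    rw [this]
    exact N.add_mem (N.add_mem (hsm _ _ g1) (hsm _ _ g2)) (hsm _ _ g3)
  have e2 : y * 1 ∈ N := by
    have : y * 1 = algebraMap A L (U.coeff 0) * 1
        + algebraMap A L (U.coeff 1) * θ + algebraMap A L (U.coeff 2) * θ ^ 2 := by
      rw [mul_one, mul_one]; exact hUe
    rw [this]
    exact N.add_mem (N.add_mem (hsm _ _ g2) (hsm _ _ g3)) (hsm _ _ g4)
  have e3 : y * θ ∈ N := by
    have h' : y * θ = (y * θ ^ 2) * θ⁻¹ := by field_simp
    have : y * θ = algebraMap A L (V.coeff 0) * θ⁻¹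
        + algebraMap A L (V.coeff 1) * 1 + algebraMap A L (V.coeff 2) * θ := by
      rw [h', hVe]; field_simp
    rw [this]
    exact N.add_mem (N.add_mem (hsm _ _ g1) (hsm _ _ g2)) (hsm _ _ g3)
  have e4 : y * θ ^ 2 ∈ N := by
    rw [hVe]
    have := N.add_mem (N.add_mem (hsm (V.coeff 0) _ g2) (hsm (V.coeff 1) _ g3))
      (hsm (V.coeff 2) _ g4)
    simpa using this
  refine isIntegral_of_smul_mem_submodule N hNbot hNfg y ?_
  intro n hn
  rw [hN] at hn
  induction hn using Submodule.span_induction with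
  | mem x hx =>
    obtain ⟨i, rfl⟩ := hx
    fin_cases i
    · exact e0
    · exact e1
    · exact e2
    · exact e3
    · exact e4
  | zero => rw [smul_zero]; exact N.zero_mem
  | add x z _ _ hx hz => rw [smul_add]; exact N.add_mem hx hz
  | smul a x _ hx =>
    rw [smul_comm]
    exact N.smul_mem a hx

/-- E6b. `ρ = x / P(θ)` lies in `(R : ω^{deg P})` when `f = P z + x κ` with `P` monic coprime to `κ`. -/
theorem rho_mem {A L : Type*} [CommRing A] [IsDomain A] [Field L] [Algebra A L]
    (hinj : Function.Injective (algebraMap A L)) {θ : L}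
    (hθ : θ ≠ 0) (f P z κ : A[X]) (x : A) (hf : aeval θ f = 0) (hP : P.Monic) (hPdeg : P.natDegree ≤ 3)
    (hzdeg : z.natDegree + P.natDegree ≤ 3) (hκdeg : κ.natDegree ≤ 3) (hPθ : aeval θ P ≠ 0)
    (hfac : f = P * z + C x * κ) (hcop : IsCoprime P κ) :
    ColonMem A θ P.natDegree (algebraMap A L x / aeval θ P) := by
  obtain ⟨α, β, hab⟩ := hcop
  have hrel : aeval θ P * aeval θ z + algebraMap A L x * aeval θ κ = 0 := by
    have := hf
    rw [hfac] at this
    simpa using this
  have key : ∀ U : A[X], U.natDegree ≤ P.natDegree + 2 →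
      ∃ W : A[X], W.natDegree ≤ 2 ∧ algebraMap A L x / aeval θ P * aeval θ U = aeval θ W := by
    intro U hU
    set U2 : A[X] := (U * β) %ₘ P with hU2
    set U1 : A[X] := U * α + κ * ((U * β) /ₘ P) with hU1
    have hdec : U = P * U1 + κ * U2 := by
      have h1 := modByMonic_add_div (U * β) P
      calc U = U * (α * P + β * κ) := by rw [hab, mul_one]
        _ = P * (U * α) + κ * (U * β) := by ring
        _ = P * (U * α) + κ * ((U * β) %ₘ P + P * ((U * β) /ₘ P)) := by rw [h1]
        _ = P * U1 + κ * U2 := by rw [hU1, hU2]; ring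
    have hU2deg : U2 = 0 ∨ U2.natDegree + 1 ≤ P.natDegree := by
      by_cases hP1 : P = 1
      · left
        rw [hU2, hP1, modByMonic_one]
      · right
        exact natDegree_modByMonic_lt _ hP hP1
    have hprod : (κ * U2).natDegree ≤ P.natDegree + 2 := by
      rcases hU2deg with h0 | h0
      · rw [h0, mul_zero, natDegree_zero]; omega
      · refine natDegree_mul_le.trans ?_
        omega
    have hPU1 : (P * U1).natDegree ≤ P.natDegree + 2 := by
      have : P * U1 = U - κ * U2 := by rw [eq_sub_iff_add_eq]; exact hdec.symm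
      rw [this]
      exact (natDegree_sub_le _ _).trans (max_le hU hprod)
    have hU1deg : U1.natDegree ≤ 2 := by
      by_cases h0 : U1 = 0
      · rw [h0, natDegree_zero]; omega
      · rw [hP.natDegree_mul' h0] at hPU1
        omega
    have hzU2 : (z * U2).natDegree ≤ 2 := by
      rcases hU2deg with h0 | h0
      · rw [h0, mul_zero, natDegree_zero]; omega
      · refine natDegree_mul_le.trans ?_
        omega
    refine ⟨C x * U1 - z * U2, ?_, ?_⟩
    · refine (natDegree_sub_le _ _).trans (max_le ?_ hzU2)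
      exact (natDegree_C_mul_le _ _).trans hU1deg
    · rw [hdec]
      simp only [map_add, map_mul, map_sub, aeval_C]
      field_simp
      linear_combination (aeval θ U2) * hrel
  intro i hi
  refine isIntegral_of_mul_sq hθ ?_ ?_
  · obtain ⟨W, hW, hWe⟩ := key (X ^ i) ((natDegree_X_pow_le i).trans (by omega))
    refine ⟨W, hW, ?_⟩
    rw [← hWe, map_pow, aeval_X]
  · obtain ⟨W, hW, hWe⟩ := key (X ^ (i + 2)) ((natDegree_X_pow_le _).trans (by omega))
    refine ⟨W, hW, ?_⟩
    rw [← hWe, map_pow, aeval_X, mul_assoc, ← pow_add]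

/-- E6e. Coprimality lifts from the residue field when one polynomial is monic. -/
theorem isCoprime_of_map {A : Type*} [CommRing A] [IsLocalRing A] (P Q : A[X]) (hP : P.Monic)
    (h : IsCoprime (P.map (residue A)) (Q.map (residue A))) : IsCoprime P Q := by
  classical
  obtain ⟨a', b', hab⟩ := h
  obtain ⟨a, rfl⟩ := map_surjective (residue A) residue_surjective a'
  obtain ⟨b, rfl⟩ := map_surjective (residue A) residue_surjective b'
  haveI : Module.Finite A (AdjoinRoot P) := hP.finite_adjoinRoot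
  have hR : ∀ i, (a * P + b * Q - 1).coeff i ∈ maximalIdeal A := by
    intro i
    have h0 : (a * P + b * Q - 1).map (residue A) = 0 := by
      rw [Polynomial.map_sub, Polynomial.map_add, Polynomial.map_mul, Polynomial.map_mul, hab]
      simp
    have h1 := congrArg (fun p => p.coeff i) h0
    simp only [coeff_map, coeff_zero] at h1
    exact (residue_eq_zero_iff _).1 h1
  set R : A[X] := a * P + b * Q - 1 with hRdef
  have hRmem : AdjoinRoot.mk P R ∈ (maximalIdeal A) • (⊤ : Submodule A (AdjoinRoot P)) := by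
    rw [R.as_sum_range_C_mul_X_pow, map_sum]
    refine Submodule.sum_mem _ fun i _ => ?_
    have : AdjoinRoot.mk P (C (R.coeff i) * X ^ i) = (R.coeff i) • (AdjoinRoot.mk P (X ^ i)) := by
      rw [map_mul, AdjoinRoot.mk_C, Algebra.smul_def]; rfl
    rw [this]
    exact Submodule.smul_mem_smul (hR i) Submodule.mem_top
  set J : Submodule A (AdjoinRoot P) :=
    (Ideal.span {AdjoinRoot.mk P Q} : Ideal (AdjoinRoot P)).restrictScalars A with hJ
  have htop : (⊤ : Submodule A (AdjoinRoot P)) ≤ J := by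
    refine Submodule.le_of_le_smul_of_le_jacobson_bot (Module.Finite.fg_top)
      (IsLocalRing.maximalIdeal_le_jacobson ⊥) ?_
    intro v _
    obtain ⟨w, rfl⟩ := AdjoinRoot.mk_surjective v
    have hexp : AdjoinRoot.mk P w = AdjoinRoot.mk P (w * b) * AdjoinRoot.mk P Q
        - AdjoinRoot.mk P (w * R) := by
      rw [← map_mul, ← map_sub]
      have : w * b * Q - w * R = w - P * (w * a) := by rw [hRdef]; ring
      rw [this, map_sub, map_mul, AdjoinRoot.mk_self, zero_mul, sub_zero]
    rw [hexp]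
    refine Submodule.sub_mem _ (Submodule.mem_sup_left ?_) (Submodule.mem_sup_right ?_)
    · rw [hJ, Submodule.restrictScalars_mem]
      exact Ideal.mul_mem_left _ _ (Ideal.mem_span_singleton_self _)
    · rw [map_mul]
      have hle : ∀ u ∈ (maximalIdeal A) • (⊤ : Submodule A (AdjoinRoot P)),
          AdjoinRoot.mk P w * u ∈ (maximalIdeal A) • (⊤ : Submodule A (AdjoinRoot P)) := by
        intro u hu
        refine Submodule.smul_induction_on hu ?_ ?_
        · intro r hr n _
          rw [mul_smul_comm]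
          exact Submodule.smul_mem_smul hr Submodule.mem_top
        · intro x y hx hy
          rw [mul_add]
          exact Submodule.add_mem _ hx hy
      exact hle _ hRmem
  have h1 : (1 : AdjoinRoot P) ∈ J := htop Submodule.mem_top
  rw [hJ, Submodule.restrictScalars_mem, Ideal.mem_span_singleton'] at h1
  obtain ⟨c', hc⟩ := h1
  obtain ⟨c, rfl⟩ := AdjoinRoot.mk_surjective c'
  have h2 : AdjoinRoot.mk P (1 - c * Q) = 0 := by
    rw [map_sub, map_mul, hc, map_one, sub_self]
  rw [AdjoinRoot.mk_eq_zero] at h2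
  obtain ⟨d, hd⟩ := h2
  exact ⟨d, c, by linear_combination -hd⟩

end Pool.Agent.WFT
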