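import Pool.Agent.WFT.E3Defs
import Pool.Agent.WFT.E3_6abe

/-!
MP_7dd379_ag, modules E6c and E6d: the Q-Gorenstein cases of base degree at most one.
-/

namespace Pool.Agent.WFT

open Polynomial IsLocalRing

section E6cd

/-- Multiplying an element of `(R : ω^n)` by a polynomial of degree at most `n` in `θ`. -/
theorem ColonMem.mul_aeval {A L : Type*} [CommRing A] [Field L] [Algebra A L] {θ : L} {n : ℕ} {r : L}
    (hr : ColonMem A θ n r) (U : A[X]) (hU : U.natDegree ≤ n) : IsIntegral A (r * aeval θ U) := by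
  rw [Polynomial.aeval_eq_sum_range, Finset.mul_sum]
  refine IsIntegral.sum _ fun i hi => ?_
  have hi' : i ≤ n := (Nat.lt_succ_iff.mp (Finset.mem_range.mp hi)).trans hU
  rw [Algebra.smul_def, mul_left_comm]
  exact isIntegral_algebraMap.mul (hr i hi')

/-- Products in the colon modules. -/
theorem ColonMem.pow_mul {A L : Type*} [CommRing A] [Field L] [Algebra A L] {θ : L} {n : ℕ} {r : L}
    (hr : ColonMem A θ n r) (j : ℕ) : ColonMem A θ (n * j) (r ^ j) := by
  induction j with
  | zero =>
    intro i hi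
    have : i = 0 := by simpa using hi
    subst this
    simpa using isIntegral_one
  | succ j ih =>
    intro i hi
    by_cases h : i ≤ n
    · have := (ih 0 (Nat.zero_le _)).mul (hr i h)
      have e : r ^ j * θ ^ 0 * (r * θ ^ i) = r ^ (j + 1) * θ ^ i := by ring
      rwa [e] at this
    · push Not at h
      have h2 : i - n ≤ n * j := by
        rw [Nat.mul_succ] at hi
        omega
      have := (ih (i - n) h2).mul (hr n le_rfl)
      have e : r ^ j * θ ^ (i - n) * (r * θ ^ n) = r ^ (j + 1) * θ ^ i := by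
        have : θ ^ i = θ ^ (i - n) * θ ^ n := by
          rw [← pow_add]
          congr 1
          omega
        rw [this]
        ring
      rwa [e] at this

/-- An element of `K` whose multiples by `x₁^j` and `x₂^j` lie in `A` lies in `A`. -/
theorem RegPair.mem_of_pow_mul {A K : Type*} [CommRing A] [IsDomain A] [Field K] [Algebra A K]
    [IsFractionRing A K] {x₁ x₂ : A} (hx : RegPair x₁ x₂) (j : ℕ) (u : K)
    (h₁ : ∃ α : A, algebraMap A K x₁ ^ j * u = algebraMap A K α)
    (h₂ : ∃ β : A, algebraMap A K x₂ ^ j * u = algebraMap A K β) :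
    ∃ γ : A, u = algebraMap A K γ := by
  obtain ⟨α, hα⟩ := h₁
  obtain ⟨β, hβ⟩ := h₂
  have hinj : Function.Injective (algebraMap A K) := IsFractionRing.injective A K
  have hp : Prime x₁ := (Ideal.span_singleton_prime hx.ne₁).mp hx.prime₁
  have hnd : ¬ x₁ ∣ x₂ := fun h => hx.notMem₂ (Ideal.mem_span_singleton.mpr h)
  have key : x₂ ^ j * α = x₁ ^ j * β := by
    apply hinj
    rw [map_mul, map_mul, map_pow, map_pow, ← hα, ← hβ]
    ring
  have hd : x₁ ^ j ∣ x₂ ^ j * α := ⟨β, key⟩
  have hd' : x₁ ^ j ∣ α := by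
    refine hp.pow_dvd_of_dvd_mul_left j ?_ hd
    intro h
    exact hnd (hp.dvd_of_dvd_pow h)
  obtain ⟨γ, hγ⟩ := hd'
  refine ⟨γ, ?_⟩
  have hne : algebraMap A K x₁ ^ j ≠ 0 := by
    apply pow_ne_zero
    intro h
    exact hx.ne₁ (hinj (by rw [h, map_zero]))
  apply mul_left_cancel₀ hne
  rw [hα, hγ, map_mul, map_pow]

/-- An element of `L` whose multiples by `x₁^j` and `x₂^j` are integral is integral. -/
theorem CubicData.isIntegral_of_pow_mul {A K L : Type*} [CommRing A] [IsDomain A] [Field K] [Field L]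
    [Algebra A K] [IsFractionRing A K] [Algebra K L] [Algebra A L] [IsScalarTower A K L]
    {x₁ x₂ b c e : A} (hx : RegPair x₁ x₂) {θ : L} (hd : CubicData A K L x₁ b c e θ) (j : ℕ) (y : L)
    (h₁ : IsIntegral A (algebraMap A L x₁ ^ j * y)) (h₂ : IsIntegral A (algebraMap A L x₂ ^ j * y)) :
    IsIntegral A y := by
  have hinj : Function.Injective (algebraMap A K) := IsFractionRing.injective A K
  have hx₁K : algebraMap A K x₁ ≠ 0 := by
    intro h
    exact hx.ne₁ (hinj (by rw [h, map_zero]))
  obtain ⟨u, v, w, hy⟩ := hd.span y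
  set w' : K := w / algebraMap A K x₁ with hw'
  set v' : K := (v - w' * algebraMap A K b) / algebraMap A K x₁ with hv'
  have hw : w = w' * algebraMap A K x₁ := by rw [hw']; field_simp
  have hv : v = v' * algebraMap A K x₁ + w' * algebraMap A K b := by
    rw [hv']; field_simp; ring
  have coord : ∀ x : A, IsIntegral A (algebraMap A L x ^ j * y) →
      (∃ α : A, algebraMap A K x ^ j * u = algebraMap A K α) ∧
      (∃ α : A, algebraMap A K x ^ j * v' = algebraMap A K α) ∧
      (∃ α : A, algebraMap A K x ^ j * w' = algebraMap A K α) := by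
    intro x hxI
    obtain ⟨u₁, v₁, w₁, h⟩ := (hd.int_iff _).mp hxI
    have h0 := hd.indep (algebraMap A K x ^ j * u - algebraMap A K u₁)
      (algebraMap A K x ^ j * v - (algebraMap A K v₁ * algebraMap A K x₁
        + algebraMap A K w₁ * algebraMap A K b))
      (algebraMap A K x ^ j * w - algebraMap A K w₁ * algebraMap A K x₁) (by
        rw [hy] at h
        simp only [map_sub, map_mul, map_pow, map_add, ← IsScalarTower.algebraMap_apply]
        linear_combination h)
    obtain ⟨e1, e2, e3⟩ := h0
    have e1' : algebraMap A K x ^ j * u = algebraMap A K u₁ := sub_eq_zero.mp e1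
    have e3' : algebraMap A K x ^ j * w' = algebraMap A K w₁ := by
      apply mul_right_cancel₀ hx₁K
      have := sub_eq_zero.mp e3
      rw [hw] at this
      linear_combination this
    have e2' : algebraMap A K x ^ j * v' = algebraMap A K v₁ := by
      apply mul_right_cancel₀ hx₁K
      have := sub_eq_zero.mp e2
      rw [hv] at this
      linear_combination this - algebraMap A K b * e3'
    exact ⟨⟨_, e1'⟩, ⟨_, e2'⟩, ⟨_, e3'⟩⟩
  obtain ⟨hu1, hv1, hw1⟩ := coord x₁ h₁
  obtain ⟨hu2, hv2, hw2⟩ := coord x₂ h₂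
  obtain ⟨U, hU⟩ := hx.mem_of_pow_mul j u hu1 hu2
  obtain ⟨V, hV⟩ := hx.mem_of_pow_mul j v' hv1 hv2
  obtain ⟨W, hW⟩ := hx.mem_of_pow_mul j w' hw1 hw2
  refine (hd.int_iff y).mpr ⟨U, V, W, ?_⟩
  rw [hy, hw, hv, hU, hV, hW]
  simp only [map_mul, map_add, ← IsScalarTower.algebraMap_apply]
  ring

/-- E6d. Base degree zero: `f = x₁ g + x₂ h`, `g` monic cubic coprime to `h`, `deg h ≤ 3`:
`(R : ω^3)` is principal, generated by `x₂ / g(θ)`. -/
theorem colonPrincipal_zero {A K L : Type*} [CommRing A] [IsDomain A] [Field K] [Field L]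
    [Algebra A K] [IsFractionRing A K] [Algebra K L] [Algebra A L] [IsScalarTower A K L]
    {x₁ x₂ b c e : A} (hx : RegPair x₁ x₂) {θ : L} (hd : CubicData A K L x₁ b c e θ) (hθ : θ ≠ 0)
    (g h : A[X]) (hg : g.Monic) (hgdeg : g.natDegree = 3) (hhdeg : h.natDegree ≤ 3)
    (hf : cubicPoly x₁ b c e = C x₁ * g + C x₂ * h) (hcop : IsCoprime g h) :
    ColonPrincipal A θ 3 := by
  have hinj : Function.Injective (algebraMap A L) := by
    rw [IsScalarTower.algebraMap_eq A K L]
    exact (algebraMap K L).injective.comp (IsFractionRing.injective A K)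
  have hx₁L : algebraMap A L x₁ ≠ 0 := fun h0 => hx.ne₁ (hinj (by rw [h0, map_zero]))
  have hx₂L : algebraMap A L x₂ ≠ 0 := fun h0 => hx.ne₂ (hinj (by rw [h0, map_zero]))
  have hroot : algebraMap A L x₁ * aeval θ g + algebraMap A L x₂ * aeval θ h = 0 := by
    have := hd.root
    rw [hf] at this
    simpa using this
  have hgθ : aeval θ g ≠ 0 := by
    intro h0
    have hh0 : aeval θ h = 0 := by
      rw [h0, mul_zero, zero_add] at hroot
      exact (mul_eq_zero.mp hroot).resolve_left hx₂L
    obtain ⟨u, v, huv⟩ := hcop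
    have := congrArg (aeval θ) huv
    rw [map_add, map_mul, map_mul, h0, hh0, mul_zero, mul_zero, map_one, add_zero] at this
    exact zero_ne_one this
  have hρ : ColonMem A θ 3 (algebraMap A L x₂ / aeval θ g) := by
    have := rho_mem hinj hθ (cubicPoly x₁ b c e) g (C x₁) h x₂ hd.root hg hgdeg.le
      (by rw [natDegree_C, hgdeg]) hhdeg hgθ (by rw [hf, mul_comm]) hcop
    rwa [hgdeg] at this
  refine ⟨algebraMap A L x₂ / aeval θ g, div_ne_zero hx₂L hgθ, fun r => ⟨fun hr => ?_, fun hr => ?_⟩⟩
  · refine hd.isIntegral_of_pow_mul hx 1 _ ?_ ?_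
    · have e1 : algebraMap A L x₁ ^ 1 * (r / (algebraMap A L x₂ / aeval θ g)) = - (r * aeval θ h) := by
        field_simp
        linear_combination r * hroot
      rw [e1]
      exact (hr.mul_aeval h hhdeg).neg
    · have e2 : algebraMap A L x₂ ^ 1 * (r / (algebraMap A L x₂ / aeval θ g)) = r * aeval θ g := by
        field_simp
      rw [e2]
      exact hr.mul_aeval g hgdeg.le
  · intro i hi
    have := hr.mul (hρ i hi)
    have e3 : r / (algebraMap A L x₂ / aeval θ g) * (algebraMap A L x₂ / aeval θ g * θ ^ i)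
        = r * θ ^ i := by
      field_simp
    rwa [e3] at this

/-- E6c. The product case of base degree one: `f = x₁ G Q + x₂ h`, `G = T - τ`, `Q` monic quadratic,
`h = G h' + x₂^(j-1) κ`, `κ` a unit: `(R : ω^(2j+1))` is principal, generated by
`x₂^j / (G Q^j)(θ)`. -/
theorem colonPrincipal_product {A K L : Type*} [CommRing A] [IsDomain A] [Field K] [Field L]
    [Algebra A K] [IsFractionRing A K] [Algebra K L] [Algebra A L] [IsScalarTower A K L]
    {x₁ x₂ b c e : A} (hx : RegPair x₁ x₂) {θ : L} (hd : CubicData A K L x₁ b c e θ) (hθ : θ ≠ 0)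
    (τ κ : A) (Q h h' : A[X]) (j : ℕ) (hj : 1 ≤ j) (hQ : Q.Monic) (hQdeg : Q.natDegree = 2)
    (hh' : h'.natDegree ≤ 1) (hκ : IsUnit κ) (hh : h = (X - C τ) * h' + C (x₂ ^ (j - 1) * κ))
    (hf : cubicPoly x₁ b c e = C x₁ * ((X - C τ) * Q) + C x₂ * h)
    (hcop₁ : IsCoprime Q h) (hcop₂ : IsCoprime Q (X - C τ)) :
    ColonPrincipal A θ (2 * j + 1) := by
  have hinj : Function.Injective (algebraMap A L) := by
    rw [IsScalarTower.algebraMap_eq A K L]
    exact (algebraMap K L).injective.comp (IsFractionRing.injective A K)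
  have hx₁L : algebraMap A L x₁ ≠ 0 := fun h0 => hx.ne₁ (hinj (by rw [h0, map_zero]))
  have hx₂L : algebraMap A L x₂ ≠ 0 := fun h0 => hx.ne₂ (hinj (by rw [h0, map_zero]))
  obtain ⟨i, rfl⟩ : ∃ i, j = i + 1 := ⟨j - 1, by omega⟩
  simp only [Nat.add_sub_cancel] at hh
  set G : A[X] := X - C τ with hG
  have hGm : G.Monic := monic_X_sub_C τ
  have hGdeg : G.natDegree = 1 := natDegree_X_sub_C τ
  -- the factorisation `f = G z + x₂^j κ`
  set z : A[X] := C x₁ * Q + C x₂ * h' with hz
  have hfac : cubicPoly x₁ b c e = G * z + C (x₂ ^ (i + 1)) * C κ := by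
    rw [hf, hh, hz]
    simp only [map_mul, map_pow]
    ring
  have hzdeg : z.natDegree ≤ 2 := by
    refine (natDegree_add_le _ _).trans (max_le ?_ ?_)
    · exact (natDegree_C_mul_le _ _).trans hQdeg.le
    · exact (natDegree_C_mul_le _ _).trans (hh'.trans (by norm_num))
  have hroot : algebraMap A L x₁ * (aeval θ G * aeval θ Q) + algebraMap A L x₂ * aeval θ h = 0 := by
    have := hd.root
    rw [hf] at this
    simpa using this
  have hroot2 : aeval θ G * aeval θ z + algebraMap A L x₂ ^ (i + 1) * algebraMap A L κ = 0 := by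
    have := hd.root
    rw [hfac] at this
    simpa using this
  have hκL : algebraMap A L κ ≠ 0 := fun h0 => hκ.ne_zero (hinj (by rw [h0, map_zero]))
  have hGθ : aeval θ G ≠ 0 := by
    intro h0
    rw [h0, zero_mul, zero_add] at hroot2
    exact (mul_ne_zero (pow_ne_zero _ hx₂L) hκL) hroot2
  have hQθ : aeval θ Q ≠ 0 := by
    intro h0
    have hh0 : aeval θ h = 0 := by
      rw [h0, mul_zero, mul_zero, zero_add] at hroot
      exact (mul_eq_zero.mp hroot).resolve_left hx₂L
    obtain ⟨u, v, huv⟩ := hcop₁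
    have := congrArg (aeval θ) huv
    rw [map_add, map_mul, map_mul, h0, hh0, mul_zero, mul_zero, map_one, add_zero] at this
    exact zero_ne_one this
  have hhθ : aeval θ h = aeval θ G * aeval θ h' + algebraMap A L x₂ ^ i * algebraMap A L κ := by
    rw [hh]
    simp
  have hhdeg : h.natDegree ≤ 3 := by
    rw [hh]
    refine (natDegree_add_le _ _).trans (max_le ?_ ?_)
    · exact (natDegree_mul_le).trans (by omega)
    · rw [natDegree_C]; omega
  -- the two elementary elements
  have hρG : IsIntegral A (algebraMap A L x₂ ^ (i + 1) / aeval θ G) := by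
    have := rho_mem hinj hθ (cubicPoly x₁ b c e) G z (C κ) (x₂ ^ (i + 1)) hd.root hGm
      (by omega) (by omega) (by rw [natDegree_C]; omega) hGθ hfac
      (by
        obtain ⟨κ', hκ'⟩ := hκ.exists_right_inv
        exact ⟨0, C κ', by rw [zero_mul, zero_add, ← C_mul, mul_comm, hκ', C_1]⟩)
    have := this 0 (Nat.zero_le _)
    rwa [pow_zero, mul_one, map_pow] at this
  have hρQ : ColonMem A θ 2 (algebraMap A L x₂ / aeval θ Q) := by
    have := rho_mem hinj hθ (cubicPoly x₁ b c e) Q (C x₁ * G) h x₂ hd.root hQ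
      (by omega) (by
        have := natDegree_C_mul_le x₁ G
        omega) hhdeg hQθ (by rw [hf]; ring) hcop₁
    rwa [hQdeg] at this
  have hρQj : ColonMem A θ (2 * (i + 1)) ((algebraMap A L x₂ / aeval θ Q) ^ (i + 1)) :=
    hρQ.pow_mul (i + 1)
  have hr₀ne : algebraMap A L x₂ ^ (i + 1) / (aeval θ G * aeval θ Q ^ (i + 1)) ≠ 0 :=
    div_ne_zero (pow_ne_zero _ hx₂L) (mul_ne_zero hGθ (pow_ne_zero _ hQθ))
  refine ⟨algebraMap A L x₂ ^ (i + 1) / (aeval θ G * aeval θ Q ^ (i + 1)), hr₀ne,
    fun r => ⟨fun hr => ?_, fun hr => ?_⟩⟩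
  · refine hd.isIntegral_of_pow_mul hx (i + 1) _ ?_ ?_
    · -- `x₁^j y = ± r h^j / G^(j-1)`
      have e1 : algebraMap A L x₁ ^ (i + 1) *
          (r / (algebraMap A L x₂ ^ (i + 1) / (aeval θ G * aeval θ Q ^ (i + 1))))
          = (-1) ^ (i + 1) * (r * (aeval θ G * (aeval θ h / aeval θ G) ^ (i + 1))) := by
        have e0 : algebraMap A L x₁ * aeval θ Q = - algebraMap A L x₂ * (aeval θ h / aeval θ G) := by
          field_simp
          linear_combination hroot
        have e0' : algebraMap A L x₁ ^ (i + 1) * aeval θ Q ^ (i + 1)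
            = (-1) ^ (i + 1) * algebraMap A L x₂ ^ (i + 1) * (aeval θ h / aeval θ G) ^ (i + 1) := by
          rw [← mul_pow, e0, neg_mul, neg_pow, mul_pow]
          ring
        have hx2j : algebraMap A L x₂ ^ (i + 1) ≠ 0 := pow_ne_zero _ hx₂L
        rw [div_div_eq_mul_div, mul_div_assoc', div_eq_iff hx2j]
        linear_combination r * aeval θ G * e0'
      rw [e1]
      obtain ⟨κ', hκ'⟩ := hκ.exists_right_inv
      have hκ'L : algebraMap A L κ * algebraMap A L κ' = 1 := by
        rw [← map_mul, hκ', map_one]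
      -- `x₂^j / G(θ) = - κ' z(θ)`
      have hw : algebraMap A L x₂ ^ (i + 1) / aeval θ G = aeval θ (- C κ' * z) := by
        rw [div_eq_iff hGθ]
        simp only [map_mul, map_neg, aeval_C]
        linear_combination (algebraMap A L κ') * hroot2 - (algebraMap A L x₂ ^ (i + 1)) * hκ'L
      have hwdeg : (- C κ' * z).natDegree ≤ 2 := by
        rw [neg_mul, natDegree_neg]
        exact (natDegree_C_mul_le _ _).trans hzdeg
      have hexp : aeval θ G * (aeval θ h / aeval θ G) ^ (i + 1)
          = aeval θ (h' ^ (i + 1) * G + ∑ m ∈ Finset.range (i + 1),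
              C ((Nat.choose (i + 1) (m + 1) : ℕ) : A) * (h' ^ (i - m) * C (κ ^ (m + 1))
                * C (x₂ ^ (i - m)) * (- C κ' * z) ^ m)) := by
        have h1 : aeval θ h / aeval θ G
            = algebraMap A L x₂ ^ i * algebraMap A L κ / aeval θ G + aeval θ h' := by
          rw [hhθ]
          field_simp
          ring
        rw [h1, add_pow, Finset.mul_sum, Finset.sum_range_succ', map_add, map_sum, add_comm]
        congr 1
        · simp only [map_mul, map_pow]
          simp
          ring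
        · refine Finset.sum_congr rfl fun m hm => ?_
          have hm' : m ≤ i := Nat.lt_succ_iff.mp (Finset.mem_range.mp hm)
          rw [map_mul, map_mul, map_mul, map_mul, map_pow (aeval θ) (- C κ' * z) m, ← hw]
          simp only [aeval_C, map_pow, map_natCast]
          have e5 : i + 1 - (m + 1) = i - m := by omega
          rw [e5]
          obtain ⟨s, rfl⟩ : ∃ s, i = m + s := ⟨i - m, by omega⟩
          have e6 : m + s - m = s := by omega
          rw [e6]
          have hG' : aeval θ G ≠ 0 := hGθ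
          rw [div_pow, div_pow]
          field_simp
          ring
      rw [hexp]
      refine IsIntegral.mul ?_ (hr.mul_aeval _ ?_)
      · exact (isIntegral_one.neg).pow _
      · refine (natDegree_add_le _ _).trans (max_le ?_ ?_)
        · refine natDegree_mul_le.trans ?_
          have := natDegree_pow_le (p := h') (n := i + 1)
          have : (i + 1) * h'.natDegree ≤ (i + 1) * 1 := Nat.mul_le_mul_left _ hh'
          omega
        · refine natDegree_sum_le_of_forall_le _ _ fun m hm => ?_
          have hm' : m ≤ i := Nat.lt_succ_iff.mp (Finset.mem_range.mp hm)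
          refine (natDegree_C_mul_le _ _).trans ?_
          refine natDegree_mul_le.trans ?_
          have d1 : (h' ^ (i - m) * C (κ ^ (m + 1)) * C (x₂ ^ (i - m))).natDegree ≤ i - m := by
            refine (natDegree_mul_C_le _ _).trans ((natDegree_mul_C_le _ _).trans ?_)
            have := natDegree_pow_le (p := h') (n := i - m)
            have : (i - m) * h'.natDegree ≤ (i - m) * 1 := Nat.mul_le_mul_left _ hh'
            omega
          have d2 : ((- C κ' * z) ^ m).natDegree ≤ m * 2 := by
            refine natDegree_pow_le.trans (Nat.mul_le_mul_left _ hwdeg)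
          omega
    · have e2 : algebraMap A L x₂ ^ (i + 1) *
          (r / (algebraMap A L x₂ ^ (i + 1) / (aeval θ G * aeval θ Q ^ (i + 1))))
          = r * aeval θ (G * Q ^ (i + 1)) := by
        rw [map_mul, map_pow]
        field_simp
      rw [e2]
      refine hr.mul_aeval _ (natDegree_mul_le.trans ?_)
      have := natDegree_pow_le (p := Q) (n := i + 1)
      rw [hQdeg] at this
      omega
  · -- partial fractions
    have hcop : IsCoprime (Q ^ (i + 1)) G := hcop₂.pow_left
    obtain ⟨α, β, hαβ⟩ := hcop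
    intro m hm
    set U₁ : A[X] := (α * X ^ m) %ₘ G with hU₁
    set q : A[X] := (α * X ^ m) /ₘ G with hq
    have hdiv : U₁ + G * q = α * X ^ m := modByMonic_add_div (α * X ^ m) G
    set U₂ : A[X] := β * X ^ m + q * Q ^ (i + 1) with hU₂
    have hsum : U₁ * Q ^ (i + 1) + U₂ * G = X ^ m := by
      have h5 : (α * Q ^ (i + 1) + β * G) * X ^ m = X ^ m := by rw [hαβ, one_mul]
      have h6 : U₁ * Q ^ (i + 1) + U₂ * G = (α * Q ^ (i + 1) + β * G) * X ^ m := by
        rw [hU₂]
        linear_combination Q ^ (i + 1) * hdiv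
      rw [h6, h5]
    have hU₁deg : U₁.natDegree ≤ 0 := by
      have hne1 : G ≠ 1 := by
        intro h1
        rw [h1, natDegree_one] at hGdeg
        omega
      have h7 := natDegree_modByMonic_lt (α * X ^ m) hGm hne1
      rw [← hU₁, hGdeg] at h7
      omega
    have hU₂deg : U₂.natDegree ≤ 2 * (i + 1) := by
      have hQpow : (Q ^ (i + 1)).natDegree = (i + 1) * 2 := by
        rw [hQ.natDegree_pow, hQdeg]
      have h1 : (U₂ * G).natDegree ≤ 2 * (i + 1) + 1 := by
        have : U₂ * G = X ^ m - U₁ * Q ^ (i + 1) := by rw [← hsum]; ring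
        rw [this]
        refine (natDegree_sub_le _ _).trans (max_le ?_ ?_)
        · exact (natDegree_X_pow_le _).trans hm
        · refine natDegree_mul_le.trans ?_
          omega
      by_cases h0 : U₂ = 0
      · rw [h0, natDegree_zero]; omega
      · rw [mul_comm, hGm.natDegree_mul' h0, hGdeg] at h1
        omega
    have e3 : r * θ ^ m = (r / (algebraMap A L x₂ ^ (i + 1) / (aeval θ G * aeval θ Q ^ (i + 1))))
        * (algebraMap A L x₂ ^ (i + 1) / aeval θ G * aeval θ U₁
          + (algebraMap A L x₂ / aeval θ Q) ^ (i + 1) * aeval θ U₂) := by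
      have h4 := congrArg (aeval θ) hsum
      simp only [map_add, map_mul, map_pow, aeval_X] at h4
      rw [← h4, div_pow]
      field_simp
    rw [e3]
    refine hr.mul (IsIntegral.add ?_ (hρQj.mul_aeval _ hU₂deg))
    have : ColonMem A θ 0 (algebraMap A L x₂ ^ (i + 1) / aeval θ G) := by
      intro m hm
      have : m = 0 := by omega
      subst this
      rw [pow_zero, mul_one]
      exact hρG
    exact this.mul_aeval _ hU₁deg

end E6cd

end Pool.Agent.WFT
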