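import Pool.Agent.WFT.E3_1
import Pool.Agent.WFT.E3_2
import Pool.Agent.WFT.E3_3
import Pool.Agent.WFT.E3_4
import Pool.Agent.WFT.E3_5a
import Pool.Agent.WFT.E3_5b
import Pool.Agent.WFT.E3_6abe
import Pool.Agent.WFT.E3_6cd

/-! E7: assembly of the base degree `≤ 1` case. -/

namespace Pool.Agent.WFT

open Polynomial IsLocalRing

section aux

theorem adjoin_mono_pow {A L : Type*} [CommRing A] [Field L] [Algebra A L] (t s : L) (x₁ x₂ : A)
    (k : ℕ) (h₁ : algebraMap A L x₁ ^ k * s ∈ Algebra.adjoin A {t})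
    (h₂ : algebraMap A L x₂ ^ k * s ∈ Algebra.adjoin A {t}) :
    algebraMap A L (x₂ - x₁) ^ (2 * k) * s ∈ Algebra.adjoin A {t} := by
  rw [map_sub, sub_eq_add_neg, add_pow, Finset.sum_mul]
  refine Subalgebra.sum_mem _ fun i hi => ?_
  have halg : ∀ (y : A) (n : ℕ), algebraMap A L y ^ n ∈ Algebra.adjoin A {t} := fun y n =>
    Subalgebra.pow_mem _ (Subalgebra.algebraMap_mem _ y) n
  rcases le_total k i with hki | hki
  · obtain ⟨l, rfl⟩ := Nat.exists_eq_add_of_le hki
    have : algebraMap A L x₂ ^ (k + l) * (-algebraMap A L x₁) ^ (2 * k - (k + l)) *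
        ((2 * k).choose (k + l) : L) * s = algebraMap A L x₂ ^ l *
        (-algebraMap A L x₁) ^ (2 * k - (k + l)) * ((2 * k).choose (k + l) : L) *
        (algebraMap A L x₂ ^ k * s) := by ring
    rw [this]
    refine Subalgebra.mul_mem _ (Subalgebra.mul_mem _ (Subalgebra.mul_mem _ (halg _ _) ?_) ?_) h₂
    · exact Subalgebra.pow_mem _ (Subalgebra.neg_mem _ (Subalgebra.algebraMap_mem _ _)) _
    · exact Subalgebra.natCast_mem _ _
  · have hi' : i ≤ 2 * k := Nat.lt_succ_iff.mp (Finset.mem_range.mp hi)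
    obtain ⟨l, hl⟩ := Nat.exists_eq_add_of_le (show k ≤ 2 * k - i by omega)
    have : algebraMap A L x₂ ^ i * (-algebraMap A L x₁) ^ (2 * k - i) *
        ((2 * k).choose i : L) * s = algebraMap A L x₂ ^ i * (-1) ^ (k + l) *
        algebraMap A L x₁ ^ l * ((2 * k).choose i : L) *
        (algebraMap A L x₁ ^ k * s) := by
      rw [hl, neg_pow (algebraMap A L x₁) (k + l)]
      ring
    rw [this]
    refine Subalgebra.mul_mem _ (Subalgebra.mul_mem _ (Subalgebra.mul_mem _
      (Subalgebra.mul_mem _ (halg _ _) ?_) (halg _ _)) ?_) h₁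
    · exact Subalgebra.pow_mem _ (Subalgebra.neg_mem _ (Subalgebra.one_mem _)) _
    · exact Subalgebra.natCast_mem _ _

theorem finrank_eq_three {A K L : Type*} [CommRing A] [Field K] [Field L] [Algebra A K]
    [Algebra K L] [Algebra A L] {a b c e : A} {θ : L} (hd : CubicData A K L a b c e θ) :
    Module.finrank K L = 3 := by
  classical
  have hli : LinearIndependent K (fun i : Fin 3 => θ ^ (i : ℕ)) := by
    rw [Fintype.linearIndependent_iff]
    intro g hg
    have h1 := hd.indep (g 0) (g 1) (g 2) (by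
      rw [Fin.sum_univ_three] at hg
      simpa [Algebra.smul_def] using hg)
    intro i
    fin_cases i
    · exact h1.1
    · exact h1.2.1
    · exact h1.2.2
  have hsp : ⊤ ≤ Submodule.span K (Set.range (fun i : Fin 3 => θ ^ (i : ℕ))) := by
    intro y _
    obtain ⟨u, v, w, rfl⟩ := hd.span y
    have hm : ∀ i : Fin 3, θ ^ (i : ℕ) ∈
        Submodule.span K (Set.range (fun i : Fin 3 => θ ^ (i : ℕ))) := fun i =>
      Submodule.subset_span ⟨i, rfl⟩
    refine Submodule.add_mem _ (Submodule.add_mem _ ?_ ?_) ?_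
    · have := Submodule.smul_mem _ u (hm 0)
      simpa [Algebra.smul_def] using this
    · have := Submodule.smul_mem _ v (hm 1)
      simpa [Algebra.smul_def] using this
    · have := Submodule.smul_mem _ w (hm 2)
      simpa [Algebra.smul_def] using this
  rw [Module.finrank_eq_card_basis (Module.Basis.mk hli hsp)]
  simp

theorem theta_sub_ne_zero {A K L : Type*} [CommRing A] [Field K] [Field L] [Algebra A K]
    [Algebra K L] [Algebra A L] [IsScalarTower A K L] {θ : L}
    (hindep : ∀ u v w : K, algebraMap K L u + algebraMap K L v * θ + algebraMap K L w * θ ^ 2 = 0 →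
      u = 0 ∧ v = 0 ∧ w = 0) (t : A) : θ - algebraMap A L t ≠ 0 := by
  intro h
  have := hindep (-(algebraMap A K t)) 1 0 (by
    rw [map_neg, ← IsScalarTower.algebraMap_apply A K L, map_one, map_zero]
    linear_combination h)
  exact one_ne_zero this.2.1

theorem cubic_eval_ne_zero {A K L : Type*} [CommRing A] [IsDomain A] [Field K] [Field L]
    [Algebra A K] [IsFractionRing A K]
    [Algebra K L] [Algebra A L] [IsScalarTower A K L] {a b c e : A} {θ : L} (ha : a ≠ 0)
    (hroot : aeval θ (cubicPoly a b c e) = 0)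
    (hindep : ∀ u v w : K, algebraMap K L u + algebraMap K L v * θ + algebraMap K L w * θ ^ 2 = 0 →
      u = 0 ∧ v = 0 ∧ w = 0) (t : A) : (cubicPoly a b c e).eval t ≠ 0 := by
  intro h
  have h1 : (θ - algebraMap A L t) * (algebraMap A L a * θ ^ 2 +
      (algebraMap A L a * algebraMap A L t + algebraMap A L b) * θ +
      (algebraMap A L a * algebraMap A L t ^ 2 + algebraMap A L b * algebraMap A L t +
        algebraMap A L c)) = 0 := by
    have h2 := congrArg (algebraMap A L) h
    simp only [cubicPoly, eval_add, eval_mul, eval_C, eval_pow, eval_X, map_add, map_mul, map_pow,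
      map_zero, aeval_C, aeval_X] at h2 hroot
    linear_combination hroot - h2
  rcases mul_eq_zero.mp h1 with h2 | h2
  · exact theta_sub_ne_zero hindep t h2
  · have := hindep (algebraMap A K (a * t ^ 2 + b * t + c)) (algebraMap A K (a * t + b))
      (algebraMap A K a) (by
        rw [← IsScalarTower.algebraMap_apply A K L, ← IsScalarTower.algebraMap_apply A K L,
          ← IsScalarTower.algebraMap_apply A K L]
        simp only [map_add, map_mul, map_pow]
        linear_combination h2)
    exact ha ((IsFractionRing.injective A K) (by rw [this.2.2, map_zero]))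

theorem cubicPoly_natDegree {A : Type*} [CommRing A] {a b c e : A} (ha : a ≠ 0) :
    (cubicPoly a b c e).natDegree = 3 := by
  unfold cubicPoly
  compute_degree!

theorem cubicPoly_coeff {A : Type*} [CommRing A] (a b c e : A) :
    (cubicPoly a b c e).coeff 0 = e ∧ (cubicPoly a b c e).coeff 1 = c ∧
    (cubicPoly a b c e).coeff 2 = b ∧ (cubicPoly a b c e).coeff 3 = a := by
  unfold cubicPoly
  refine ⟨?_, ?_, ?_, ?_⟩ <;> simp [coeff_X, coeff_C, coeff_X_pow]

/-- `θ` is integral over `D`. -/
theorem theta_isIntegral {A D K L : Type*} [CommRing A] [IsLocalRing A] [CommRing D]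
    [IsDomain D] [Field K] [Field L] [Algebra A D]
    [Algebra D K] [Algebra A K] [IsFractionRing D K] [Algebra K L] [Algebra A L] [Algebra D L]
    [IsScalarTower A K L] [IsScalarTower D K L] [IsScalarTower A D K]
    {x₁ b c e : A} (hb : b ∈ maximalIdeal A) (hc : c ∈ maximalIdeal A) (he : e ∈ maximalIdeal A)
    (hx : algebraMap A L x₁ ≠ 0) (hD : OrdRing A D x₁) {θ : L}
    (hroot : aeval θ (cubicPoly x₁ b c e) = 0) : IsIntegral D θ := by
  obtain ⟨b', hb'⟩ := hD.dvd_of_mem b hb
  obtain ⟨c', hc'⟩ := hD.dvd_of_mem c hc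
  obtain ⟨e', he'⟩ := hD.dvd_of_mem e he
  have htow : ∀ y : A, algebraMap A L y = algebraMap D L (algebraMap A D y) := fun y => by
    rw [IsScalarTower.algebraMap_apply A K L, IsScalarTower.algebraMap_apply A D K,
      ← IsScalarTower.algebraMap_apply D K L]
  refine ⟨X ^ 3 + C b' * X ^ 2 + C c' * X + C e', by monicity!, ?_⟩
  have h1 : algebraMap A L x₁ * (θ ^ 3 + algebraMap D L b' * θ ^ 2 + algebraMap D L c' * θ +
      algebraMap D L e') = 0 := by
    simp only [cubicPoly, map_add, map_mul, map_pow, aeval_C, aeval_X] at hroot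
    rw [htow b, hb', htow c, hc', htow e, he', map_mul, map_mul, map_mul, ← htow] at hroot
    linear_combination hroot
  have h2 := (mul_eq_zero.mp h1).resolve_left hx
  simpa [eval₂_add, eval₂_mul] using h2

/-- `A[t] ⊆ V` when `V` contains the integral closure of `D` and `t`. -/
theorem adjoin_le_subring {A D K L : Type*} [CommRing A] [CommRing D] [Field K] [Field L]
    [Algebra A D]
    [Algebra D K] [Algebra A K] [Algebra K L] [Algebra A L] [Algebra D L]
    [IsScalarTower A K L] [IsScalarTower D K L] [IsScalarTower A D K]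
    (V : Subring L) (hV : ∀ y : L, IsIntegral D y → y ∈ V) (t : L) (ht : t ∈ V) (y : L)
    (hy : y ∈ Algebra.adjoin A {t}) : y ∈ V := by
  induction hy using Algebra.adjoin_induction with
  | mem x hx => rw [Set.mem_singleton_iff.mp hx]; exact ht
  | algebraMap r =>
    rw [IsScalarTower.algebraMap_apply A K L, IsScalarTower.algebraMap_apply A D K,
      ← IsScalarTower.algebraMap_apply D K L]
    exact hV _ isIntegral_algebraMap
  | add x y _ _ hx hy => exact V.add_mem hx hy
  | mul x y _ _ hx hy => exact V.mul_mem hx hy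

theorem inv_not_integral {A D K L : Type*} [CommRing A] [IsLocalRing A] [CommRing D]
    [IsDomain D] [IsIntegrallyClosed D] [Field K] [Field L] [Algebra A D]
    [Algebra D K] [Algebra A K] [IsFractionRing D K] [Algebra K L] [Algebra A L] [Algebra D L]
    [IsScalarTower A K L] [IsScalarTower D K L] [IsScalarTower A D K]
    {x₁ : A} (hx : algebraMap A L x₁ ≠ 0) (hD : OrdRing A D x₁) :
    ¬ IsIntegral D (algebraMap A L x₁)⁻¹ := by
  intro h
  have h1 : (algebraMap A L x₁)⁻¹ = algebraMap K L ((algebraMap A K x₁)⁻¹) := by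
    rw [map_inv₀, ← IsScalarTower.algebraMap_apply A K L]
  rw [h1, isIntegral_algebraMap_iff (algebraMap K L).injective] at h
  obtain ⟨y, hy⟩ := IsIntegrallyClosed.isIntegral_iff.mp h
  have hxK : algebraMap A K x₁ ≠ 0 := by
    intro h0
    apply hx
    rw [IsScalarTower.algebraMap_apply A K L, h0, map_zero]
  apply hD.nonunit
  refine IsUnit.of_mul_eq_one y (IsFractionRing.injective D K ?_)
  rw [map_mul, hy, ← IsScalarTower.algebraMap_apply A D K, map_one, mul_inv_cancel₀ hxK]

end aux

section core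

/-- Case II core: `f = x₁ g + x₂ h`, `p` a common root of `g`, `h` mod `m`, simple for `g`. -/
theorem caseII_core {A D K L : Type*} [CommRing A] [IsDomain A] [IsLocalRing A]
    [IsIntegrallyClosed A] [IsAdicComplete (maximalIdeal A) A]
    [CommRing D] [IsDomain D] [IsIntegrallyClosed D] [Field K] [Field L] [Algebra A D] [Algebra A K]
    [Algebra D K] [IsFractionRing A K] [IsFractionRing D K] [Algebra K L] [Algebra A L] [Algebra D L]
    [IsScalarTower A K L] [IsScalarTower D K L] [IsScalarTower A D K] [FiniteDimensional K L]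
    {x₁ x₂ b c e : A} (hx : RegPair x₁ x₂)
    (hx₁ : x₁ ∈ maximalIdeal A) (hx₂ : x₂ ∈ maximalIdeal A)
    (hind : ∀ u v : A, u * x₁ + v * x₂ ∈ maximalIdeal A ^ 2 → u ∈ maximalIdeal A ∧ v ∈ maximalIdeal A)
    (hb : b ∈ maximalIdeal A) (hc : c ∈ maximalIdeal A) (he : e ∈ maximalIdeal A)
    (hD : OrdRing A D x₁) {θ : L} (hθ : θ ≠ 0)
    (hd : CubicData A K L x₁ b c e θ) (g h : A[X]) (hg : g.Monic) (hgdeg : g.natDegree = 3)
    (hhdeg : h.natDegree ≤ 2)
    (hf : cubicPoly x₁ b c e = C x₁ * g + C x₂ * h)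
    (hbase : ∀ G : (ResidueField A)[X], G ∣ g.map (residue A) → G ∣ h.map (residue A) →
      G.natDegree ≤ 1) (p : A) (hgp : g.eval p ∈ maximalIdeal A) (hhp : h.eval p ∈ maximalIdeal A)
    (hgp' : IsUnit (g.derivative.eval p))
    (r : L) (hr0 : r ≠ 0) (k : ℕ) (Y : ℤ)
    (hz : IsIntegral D (algebraMap A L x₁ ^ Y / r)) (k' : ℕ)
    (h₁ : algebraMap A L x₁ ^ k' * (algebraMap K L (Algebra.norm K r) / r / algebraMap A L x₁ ^ k) ∈
        Algebra.adjoin A {θ})
    (h₂ : algebraMap A L x₂ ^ k' * (algebraMap K L (Algebra.norm K r) / r / algebraMap A L x₁ ^ k) ∈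
        Algebra.adjoin A {θ}) :
    (k : ℤ) ≤ 2 * Y ∨ ∃ n, 1 ≤ n ∧ ColonPrincipal A θ n := by
  classical
  have hinj : Function.Injective (algebraMap A L) := by
    rw [IsScalarTower.algebraMap_eq A K L]
    exact (algebraMap K L).injective.comp (IsFractionRing.injective A K)
  have hx₁L : algebraMap A L x₁ ≠ 0 := fun h => hx.ne₁ (hinj (by rw [h, map_zero]))
  have hroots := cubic_eval_ne_zero (K := K) hx.ne₁ hd.root hd.indep
  have hIJ : ∀ i, g.coeff i * x₁ + h.coeff i * x₂ = (cubicPoly x₁ b c e).coeff i := fun i => by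
    rw [hf, coeff_add, coeff_C_mul, coeff_C_mul]; ring
  obtain ⟨h0c, h1c, h2c, h3c⟩ := cubicPoly_coeff x₁ b c e
  have hcI : c ∈ Ideal.span {x₁, x₂} := by
    rw [Ideal.mem_span_pair]
    exact ⟨_, _, by rw [hIJ 1, h1c]⟩
  have hbI : b ∈ Ideal.span {x₁, x₂} := by
    rw [Ideal.mem_span_pair]
    exact ⟨_, _, by rw [hIJ 2, h2c]⟩
  have heI : e ∈ Ideal.span {x₁, x₂} := by
    rw [Ideal.mem_span_pair]
    exact ⟨_, _, by rw [hIJ 0, h0c]⟩
  obtain ⟨τ, j, κ, hτp, hj, hκI, hτ⟩ := exists_newton hx₁ hx₂ g h hg p hgp hgp' (by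
    intro t
    rw [← hf]
    exact hroots t)
  rw [← hf] at hτ
  -- evaluation at `τ` and at `p` agree modulo `m`
  have hevm : ∀ P : A[X], P.eval τ - P.eval p ∈ maximalIdeal A := fun P => by
    have := (P.sub_dvd_eval_sub τ p)
    exact Ideal.mem_of_dvd _ this hτp
  have hgτ' : IsUnit (g.derivative.eval τ) := by
    by_contra hcon
    have h1 : g.derivative.eval τ ∈ maximalIdeal A := hcon
    have h2 := Ideal.sub_mem _ h1 (hevm g.derivative)
    rw [sub_sub_cancel] at h2
    exact h2 hgp'
  by_cases hκ : κ ∈ maximalIdeal A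
  · left
    have hder : (cubicPoly x₁ b c e).derivative.eval τ ∉ maximalIdeal A ^ 2 := by
      rw [hf]
      intro hcon
      simp only [derivative_add, derivative_mul, derivative_C, zero_mul, zero_add, eval_add,
        eval_mul, eval_C] at hcon
      have := hind (g.derivative.eval τ) (h.derivative.eval τ) (by
        rwa [mul_comm _ x₁, mul_comm _ x₂])
      exact this.1 hgτ'
    obtain ⟨V, hV, hV1, hV2⟩ := exists_valuation_tau (K := K) hx₁ hx₂ hb hc he hx.ne₁ hx.ne₂ hD
      hd.root hd.indep τ κ j hj hτ hκ hder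
    have hs := mem_adjoin_tau (K := K) hx hd.root hd.indep hbI hcI heI τ κ j hj hτ hκI _ k' h₁ h₂
    exact final_ineq (finrank_eq_three hd) x₁ hx₁L r hr0 k Y hz V hV hV1
      (adjoin_le_subring (D := D) (K := K) V hV _ hV2 _ hs)
  · right
    have hκu : IsUnit κ := by
      by_contra hcon
      exact hκ hcon
    -- the quotient `z = x₁ Q + x₂ h'`
    obtain ⟨q1, η1, hq1⟩ : ∃ q η : A, q * x₁ + η * x₂ = b + x₁ * τ := by
      have : b + x₁ * τ ∈ Ideal.span {x₁, x₂} := Ideal.add_mem _ hbI
        (Ideal.mul_mem_right _ _ (Ideal.subset_span (by simp)))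
      rwa [Ideal.mem_span_pair] at this
    obtain ⟨q0, η0, hq0⟩ : ∃ q η : A, q * x₁ + η * x₂ = c + b * τ + x₁ * τ ^ 2 := by
      have : c + b * τ + x₁ * τ ^ 2 ∈ Ideal.span {x₁, x₂} := Ideal.add_mem _
        (Ideal.add_mem _ hcI (Ideal.mul_mem_right _ _ hbI))
        (Ideal.mul_mem_right _ _ (Ideal.subset_span (by simp)))
      rwa [Ideal.mem_span_pair] at this
    set Q : A[X] := X ^ 2 + C q1 * X + C q0 with hQ
    set h' : A[X] := C η1 * X + C η0 with hh'
    set hn : A[X] := (X - C τ) * h' + C (x₂ ^ (j - 1) * κ) with hhn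
    have hQm : Q.Monic := by rw [hQ]; monicity!
    have hQdeg : Q.natDegree = 2 := by rw [hQ]; compute_degree!
    have hh'deg : h'.natDegree ≤ 1 := by rw [hh']; compute_degree
    have hpow : x₂ * (x₂ ^ (j - 1) * κ) = x₂ ^ j * κ := by
      obtain ⟨i, rfl⟩ := Nat.exists_eq_add_of_le hj
      rw [Nat.add_sub_cancel_left]
      ring
    have hf' : cubicPoly x₁ b c e = C x₁ * ((X - C τ) * Q) + C x₂ * hn := by
      have e1 : C x₂ * hn = (X - C τ) * (C x₂ * h') + C (x₂ ^ j * κ) := by
        rw [hhn, mul_add, ← C_mul, hpow]; ring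
      have e2 : C x₁ * Q + C x₂ * h' = C x₁ * X ^ 2 + C (b + x₁ * τ) * X +
          C (c + b * τ + x₁ * τ ^ 2) := by
        rw [hQ, hh', ← hq1, ← hq0]
        simp only [map_add, map_mul]
        ring
      have e3 : C x₁ * ((X - C τ) * Q) + C x₂ * hn =
          (X - C τ) * (C x₁ * Q + C x₂ * h') + C (x₂ ^ j * κ) := by
        rw [e1]; ring
      rw [e3, e2, ← hτ]
      simp only [cubicPoly, eval_add, eval_mul, eval_C, eval_pow, eval_X, map_add, map_mul, map_pow]
      ring
    -- uniqueness modulo `m`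
    have huniq : ∀ i, g.coeff i - ((X - C τ) * Q).coeff i ∈ maximalIdeal A ∧
        h.coeff i - hn.coeff i ∈ maximalIdeal A := by
      intro i
      apply hind
      have h1 := congrArg (fun P : A[X] => P.coeff i) (hf.symm.trans hf')
      simp only [coeff_add, coeff_C_mul] at h1
      have : (g.coeff i - ((X - C τ) * Q).coeff i) * x₁ + (h.coeff i - hn.coeff i) * x₂ = 0 := by
        linear_combination h1
      rw [this]
      exact Ideal.zero_mem _
    have hmapg : g.map (residue A) = (X - C (residue A τ)) * Q.map (residue A) := by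
      have : g.map (residue A) = ((X - C τ) * Q).map (residue A) := by
        ext i
        rw [coeff_map, coeff_map, ← sub_eq_zero, ← map_sub]
        exact (residue_eq_zero_iff _).mpr (huniq i).1
      rw [this, Polynomial.map_mul, Polynomial.map_sub, map_X, map_C]
    have hmaph : h.map (residue A) = hn.map (residue A) := by
      ext i
      rw [coeff_map, coeff_map, ← sub_eq_zero, ← map_sub]
      exact (residue_eq_zero_iff _).mpr (huniq i).2
    have hQτ : IsUnit (Q.eval τ) := by
      by_contra hcon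
      have h1 : Q.eval τ ∈ maximalIdeal A := hcon
      have h2 : residue A (Q.eval τ) = 0 := (residue_eq_zero_iff _).mpr h1
      have h3 : residue A (g.derivative.eval τ) = 0 := by
        have h4 : residue A (g.derivative.eval τ) =
            (derivative (g.map (residue A))).eval (residue A τ) := by
          rw [derivative_map, eval_map, eval₂_at_apply]
        rw [h4, hmapg]
        simp only [derivative_mul, derivative_sub, derivative_X, derivative_C, sub_zero, one_mul,
          eval_add, eval_mul, eval_sub, eval_X, eval_C, sub_self, zero_mul, add_zero]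
        rw [eval_map, eval₂_at_apply, h2]
      exact (residue_eq_zero_iff _).mp h3 hgτ'
    have hcop2 : IsCoprime Q (X - C τ) := by
      apply isCoprime_of_map _ _ hQm
      rw [Polynomial.map_sub, map_X, map_C]
      have hirr : Irreducible (X - C (residue A τ)) := irreducible_X_sub_C _
      refine ((hirr.coprime_iff_not_dvd).mpr ?_).symm
      rw [dvd_iff_isRoot, IsRoot.def, eval_map, eval₂_at_apply]
      intro h0
      exact (residue_eq_zero_iff _).mp h0 hQτ
    have hhroot : (X - C (residue A τ)) ∣ h.map (residue A) := by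
      rw [dvd_iff_isRoot, IsRoot.def, eval_map, eval₂_at_apply, residue_eq_zero_iff]
      have := Ideal.add_mem _ (hevm h) hhp
      rwa [sub_add_cancel] at this
    have hcop1 : IsCoprime Q hn := by
      apply isCoprime_of_map _ _ hQm
      rw [← hmaph]
      have hQne : Q.map (residue A) ≠ 0 := (hQm.map _).ne_zero
      rw [← EuclideanDomain.gcd_isUnit_iff]
      set G := EuclideanDomain.gcd (Q.map (residue A)) (h.map (residue A)) with hG
      have hGQ : G ∣ Q.map (residue A) := EuclideanDomain.gcd_dvd_left _ _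
      have hGh : G ∣ h.map (residue A) := EuclideanDomain.gcd_dvd_right _ _
      have hGne : G ≠ 0 := fun h0 => hQne (by rw [h0] at hGQ; exact zero_dvd_iff.mp hGQ)
      have hcopG : IsCoprime (X - C (residue A τ)) G := by
        have h1 : IsCoprime (X - C (residue A τ)) (Q.map (residue A)) := by
          have hirr : Irreducible (X - C (residue A τ)) := irreducible_X_sub_C _
          refine (hirr.coprime_iff_not_dvd).mpr ?_
          rw [dvd_iff_isRoot, IsRoot.def, eval_map, eval₂_at_apply]
          intro h0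
          exact (residue_eq_zero_iff _).mp h0 hQτ
        exact h1.of_isCoprime_of_dvd_right hGQ
      have h2 := hbase ((X - C (residue A τ)) * G) (by rw [hmapg]; exact mul_dvd_mul_left _ hGQ)
        (hcopG.mul_dvd hhroot hGh)
      rw [natDegree_mul (X_sub_C_ne_zero _) hGne, natDegree_X_sub_C] at h2
      rw [Polynomial.isUnit_iff_degree_eq_zero, degree_eq_natDegree hGne]
      have : G.natDegree = 0 := by omega
      rw [this]
      rfl
    refine ⟨2 * j + 1, by omega, ?_⟩
    exact colonPrincipal_product hx hd hθ τ κ Q hn h' j hj hQm hQdeg hh'deg hκu hhn hf' hcop1 hcop2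

end core

section final

theorem e3_final' {A D K L : Type*} [CommRing A] [IsDomain A] [IsLocalRing A]
    [IsIntegrallyClosed A] [IsAdicComplete (maximalIdeal A) A]
    [CommRing D] [IsDomain D] [IsIntegrallyClosed D] [Field K] [Field L] [Algebra A D] [Algebra A K]
    [Algebra D K] [IsFractionRing A K] [IsFractionRing D K] [Algebra K L] [Algebra A L] [Algebra D L]
    [IsScalarTower A K L] [IsScalarTower D K L] [IsScalarTower A D K]
    {x₁ x₂ b c : A} (hx : RegPair x₁ x₂) (hx' : RegPair x₁ (x₂ - x₁))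
    (hx₁ : x₁ ∈ maximalIdeal A) (hx₂ : x₂ ∈ maximalIdeal A)
    (hind : ∀ u v : A, u * x₁ + v * x₂ ∈ maximalIdeal A ^ 2 → u ∈ maximalIdeal A ∧ v ∈ maximalIdeal A)
    (hb : b ∈ maximalIdeal A) (hc : c ∈ maximalIdeal A) (hD : OrdRing A D x₁) {θ : L}
    (hd : CubicData A K L x₁ b c x₂ θ)
    (hbase : ∀ b₁ b₂ c₁ c₂ : A, b = b₁ * x₁ + b₂ * x₂ → c = c₁ * x₁ + c₂ * x₂ →
      ∀ G : (ResidueField A)[X], G ∣ (X ^ 3 + C b₁ * X ^ 2 + C c₁ * X : A[X]).map (residue A) →
        G ∣ (C b₂ * X ^ 2 + C c₂ * X + 1 : A[X]).map (residue A) → G.natDegree ≤ 1)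
    (r : L) (hr0 : r ≠ 0) (k : ℕ) (hr : ColonMem A θ k r) (Y : ℤ)
    (hz : IsIntegral D (algebraMap A L x₁ ^ Y / r)) :
    (k : ℤ) ≤ 2 * Y ∨ ∃ n, 1 ≤ n ∧ ColonPrincipal A θ n := by
  classical
  have hinj : Function.Injective (algebraMap A L) := by
    rw [IsScalarTower.algebraMap_eq A K L]
    exact (algebraMap K L).injective.comp (IsFractionRing.injective A K)
  have hx₁L : algebraMap A L x₁ ≠ 0 := fun h => hx.ne₁ (hinj (by rw [h, map_zero]))
  have hx₂L : algebraMap A L x₂ ≠ 0 := fun h => hx.ne₂ (hinj (by rw [h, map_zero]))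
  have hrank := finrank_eq_three hd
  have : FiniteDimensional K L := FiniteDimensional.of_finrank_pos (by omega)
  obtain ⟨h0c, h1c, h2c, h3c⟩ := cubicPoly_coeff x₁ b c x₂
  have hθ : θ ≠ 0 := by
    rintro rfl
    have := hd.root
    simp [cubicPoly] at this
    exact hx₂L this
  have hndeg := cubicPoly_natDegree (b := b) (c := c) (e := x₂) hx.ne₁
  have hlead : (cubicPoly x₁ b c x₂).leadingCoeff = x₁ := by
    rw [leadingCoeff, hndeg, h3c]
  have hker : ∀ G : A[X], aeval θ G = 0 → cubicPoly x₁ b c x₂ ∣ G :=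
    ker_dvd (K := K) _ θ hd.root hndeg hd.indep (by
      intro y hy
      rw [hlead] at hy ⊢
      rw [h0c] at hy
      rw [← Ideal.mem_span_singleton] at hy ⊢
      exact (hx.prime₁.mem_or_mem hy).resolve_left hx.notMem₂)
  obtain ⟨hs₁, hs₂⟩ := sharp_mem hd hx.ne₁ hx.ne₂ r hr0 k hr
  by_cases hbc : b ∈ Ideal.span {x₁, x₂} ∧ c ∈ Ideal.span {x₁, x₂}
  swap
  · -- Case I
    left
    have hF : ∃ i, (cubicPoly x₁ b c x₂).coeff i ∉ Ideal.span {x₁, x₂} := by
      by_contra hcon
      push Not at hcon
      exact hbc ⟨by rw [← h2c]; exact hcon 2, by rw [← h1c]; exact hcon 1⟩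
    have hs := mem_adjoin_of_pow_mul_mem hinj hx _ θ hd.root hker hF _ k hs₁ hs₂
    set V : Subring L := (integralClosure D L).toSubring with hVdef
    have hV : ∀ y : L, IsIntegral D y → y ∈ V := fun y hy => hy
    have hθD : IsIntegral D θ := theta_isIntegral (K := K) hb hc hx₂ hx₁L hD hd.root
    exact final_ineq hrank x₁ hx₁L r hr0 k Y hz V hV
      (fun h => inv_not_integral (K := K) hx₁L hD h)
      (adjoin_le_subring (D := D) (K := K) V hV _ hθD _ hs)
  -- Case II
  obtain ⟨hbI, hcI⟩ := hbc
  obtain ⟨b₁, b₂, hbb⟩ := Ideal.mem_span_pair.mp hbI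
  obtain ⟨c₁, c₂, hcc⟩ := Ideal.mem_span_pair.mp hcI
  set g0 : A[X] := X ^ 3 + C b₁ * X ^ 2 + C c₁ * X with hg0
  set h0 : A[X] := C b₂ * X ^ 2 + C c₂ * X + 1 with hh0
  have hbase' := hbase b₁ b₂ c₁ c₂ hbb.symm hcc.symm
  have hf : cubicPoly x₁ b c x₂ = C x₁ * g0 + C x₂ * h0 := by
    rw [hg0, hh0, ← hbb, ← hcc]
    simp only [cubicPoly, map_add, map_mul]
    ring
  have hg0m : g0.Monic := by rw [hg0]; monicity!
  have hg0deg : g0.natDegree = 3 := by rw [hg0]; compute_degree!
  have hh0deg : h0.natDegree ≤ 2 := by rw [hh0]; compute_degree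
  have hgne : g0.map (residue A) ≠ 0 := (hg0m.map _).ne_zero
  set G := EuclideanDomain.gcd (g0.map (residue A)) (h0.map (residue A)) with hG
  have hGg : G ∣ g0.map (residue A) := EuclideanDomain.gcd_dvd_left _ _
  have hGh : G ∣ h0.map (residue A) := EuclideanDomain.gcd_dvd_right _ _
  have hGne : G ≠ 0 := fun h0 => hgne (by rw [h0] at hGg; exact zero_dvd_iff.mp hGg)
  rcases Nat.eq_zero_or_pos G.natDegree with hG0 | hG1
  · -- base degree zero
    right
    refine ⟨3, by norm_num, colonPrincipal_zero hx hd hθ g0 h0 hg0m hg0deg (by omega) hf ?_⟩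
    apply isCoprime_of_map _ _ hg0m
    rw [← EuclideanDomain.gcd_isUnit_iff, Polynomial.isUnit_iff_degree_eq_zero,
      degree_eq_natDegree hGne, hG0]
    rfl
  · -- base degree one
    have hG1' : G.natDegree = 1 := le_antisymm (hbase' G hGg hGh) hG1
    obtain ⟨pbar, hpbar⟩ : ∃ z, G.IsRoot z := exists_root_of_degree_eq_one
      (by rw [degree_eq_natDegree hGne, hG1']; rfl)
    obtain ⟨p, rfl⟩ := residue_surjective pbar
    have hgroot : (g0.map (residue A)).IsRoot (residue A p) := hpbar.dvd hGg
    have hhroot : (h0.map (residue A)).IsRoot (residue A p) := hpbar.dvd hGh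
    have hmem : ∀ P : A[X], (P.map (residue A)).IsRoot (residue A p) → P.eval p ∈ maximalIdeal A := by
      intro P hP
      rw [IsRoot.def, eval_map, eval₂_at_apply, residue_eq_zero_iff] at hP
      exact hP
    by_cases hsimple : IsUnit (g0.derivative.eval p)
    · exact caseII_core hx hx₁ hx₂ hind hb hc hx₂ hD hθ hd g0 h0 hg0m hg0deg hh0deg hf hbase' p
        (hmem g0 hgroot) (hmem h0 hhroot) hsimple r hr0 k Y hz k hs₁ hs₂
    · -- replace `g` by `g + h`
      have hgd : residue A (g0.derivative.eval p) = 0 := by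
        rw [residue_eq_zero_iff]
        exact hsimple
      have hhd : residue A (h0.derivative.eval p) ≠ 0 := by
        intro hh
        have hdbl : ∀ P : A[X], (P.map (residue A)).IsRoot (residue A p) →
            residue A (P.derivative.eval p) = 0 → (X - C (residue A p)) ^ 2 ∣ P.map (residue A) := by
          intro P hP hP'
          obtain ⟨W, hW⟩ := dvd_iff_isRoot.mpr hP
          have h1 : residue A (P.derivative.eval p) =
              (derivative (P.map (residue A))).eval (residue A p) := by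
            rw [derivative_map, eval_map, eval₂_at_apply]
          rw [h1, hW] at hP'
          simp only [derivative_mul, derivative_sub, derivative_X, derivative_C, sub_zero, one_mul,
            eval_add, eval_mul, eval_sub, eval_X, eval_C, sub_self, zero_mul, add_zero] at hP'
          obtain ⟨W', hW'⟩ := dvd_iff_isRoot.mpr (show W.IsRoot (residue A p) from hP')
          exact ⟨W', by rw [hW, hW']; ring⟩
        have h2 := hbase' _ (hdbl g0 hgroot hgd) (hdbl h0 hhroot hh)
        rw [natDegree_pow, natDegree_X_sub_C] at h2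
        omega
      have hsum : IsUnit ((g0 + h0).derivative.eval p) := by
        by_contra hcon
        have h1 : residue A ((g0 + h0).derivative.eval p) = 0 := by
          rw [residue_eq_zero_iff]
          exact hcon
        rw [derivative_add, eval_add, map_add, hgd, zero_add] at h1
        exact hhd h1
      have hx₂' : x₂ - x₁ ∈ maximalIdeal A := Ideal.sub_mem _ hx₂ hx₁
      have hgh_m : (g0 + h0).Monic := by
        apply hg0m.add_of_left
        rw [degree_eq_natDegree hg0m.ne_zero, hg0deg]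
        exact lt_of_le_of_lt (degree_le_natDegree.trans (WithBot.coe_le_coe.mpr hh0deg))
          (by norm_num)
      have hgh_deg : (g0 + h0).natDegree = 3 := by
        rw [natDegree_add_eq_left_of_natDegree_lt (by omega), hg0deg]
      refine caseII_core hx' hx₁ hx₂' ?_ hb hc hx₂ hD hθ hd (g0 + h0) h0 hgh_m hgh_deg hh0deg ?_ ?_ p
        ?_ (hmem h0 hhroot) hsum r hr0 k Y hz (2 * k) ?_ ?_
      · intro u v huv
        obtain ⟨h1, h2⟩ := hind (u - v) v (by
          convert huv using 1
          ring)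
        exact ⟨by have := Ideal.add_mem _ h1 h2; rwa [sub_add_cancel] at this, h2⟩
      · rw [hf, C_sub]
        ring
      · intro W hW1 hW2
        refine hbase' W ?_ hW2
        rw [Polynomial.map_add] at hW1
        exact (dvd_add_left hW2).mp hW1
      · rw [eval_add]
        exact Ideal.add_mem _ (hmem g0 hgroot) (hmem h0 hhroot)
      · rw [two_mul, pow_add, mul_assoc]
        exact Subalgebra.mul_mem _ (Subalgebra.pow_mem _ (Subalgebra.algebraMap_mem _ _) _) hs₁
      · exact adjoin_mono_pow θ _ x₁ x₂ k hs₁ hs₂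

end final

end Pool.Agent.WFT
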