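import Pool.Agent.WFT.Defs
import Pool.Agent.WFT.E3Defs

/-!
# MP_7dd379_ag, E8a: from a Delone-Faddeev cubic algebra to `CubicData`, and the translation between
`ColonPrincipal` and `PrinPow`.
-/

namespace Pool.Agent.WFT

open Polynomial IsLocalRing

namespace Cubic

variable {A T L : Type*} [CommRing A] [CommRing T] [Algebra A T] (S : Cubic A T)

include S in
theorem algebraMap_injective : Function.Injective (algebraMap A T) := by
  rw [injective_iff_map_eq_zero]
  intro x hx
  have h := S.indep ![x, 0, 0] (by simp [hx])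
  have := congrFun h 0
  simpa using this

theorem indep' (u v w : A) (h : algebraMap A T u + algebraMap A T v * S.α + algebraMap A T w * S.β = 0) :
    u = 0 ∧ v = 0 ∧ w = 0 := by
  have h1 := S.indep ![u, v, w] (by simpa [Algebra.smul_def] using h)
  exact ⟨by simpa using congrFun h1 0, by simpa using congrFun h1 1, by simpa using congrFun h1 2⟩

theorem α_ne_zero [Nontrivial A] : S.α ≠ 0 := by
  intro h
  have := (S.indep' 0 1 0 (by simp [h])).2.1
  exact one_ne_zero this

theorem β_ne_zero [Nontrivial A] : S.β ≠ 0 := by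
  intro h
  have := (S.indep' 0 0 1 (by simp [h])).2.2
  exact one_ne_zero this

section

variable [IsDomain T] [Nontrivial A]

theorem ad_ne_zero : S.a * S.d ≠ 0 := by
  intro h
  have h1 := S.αβ
  rw [h, map_zero, neg_zero] at h1
  rcases mul_eq_zero.mp h1 with h2 | h2
  · exact S.α_ne_zero h2
  · exact S.β_ne_zero h2

theorem a_ne_zero : S.a ≠ 0 := left_ne_zero_of_mul S.ad_ne_zero

theorem d_ne_zero : S.d ≠ 0 := right_ne_zero_of_mul S.ad_ne_zero

end

variable [Field L] [Algebra T L] [Algebra A L] [IsScalarTower A T L]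

section theta

variable {S} {θ : L}

theorem theta_α (h : IsTheta S θ) : θ * algebraMap T L S.α = algebraMap A L S.a := by
  rw [h, ← IsScalarTower.algebraMap_apply A T L]

variable [IsDomain T] [Nontrivial A] [IsFractionRing T L]

theorem theta_ne_zero (h : IsTheta S θ) : θ ≠ 0 := by
  intro h0
  have h1 := theta_α (A := A) (T := T) h
  rw [h0, zero_mul] at h1
  have h2 : algebraMap T L (algebraMap A T S.a) = 0 := by
    rw [← IsScalarTower.algebraMap_apply A T L]
    exact h1.symm
  have h3 : algebraMap A T S.a = 0 := by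
    apply IsFractionRing.injective T L
    rw [h2, map_zero]
  have h4 : S.a = 0 := S.algebraMap_injective (by rw [h3, map_zero])
  exact S.a_ne_zero h4

theorem theta_β (h : IsTheta S θ) : algebraMap T L S.β = - (algebraMap A L S.d * θ) := by
  have hα : algebraMap T L S.α ≠ 0 := by
    intro h0
    exact S.α_ne_zero (IsFractionRing.injective T L (by rw [h0, map_zero]))
  have h1 := congrArg (algebraMap T L) S.αβ
  rw [map_mul, map_neg, ← IsScalarTower.algebraMap_apply A T L, map_mul] at h1
  have h2 := theta_α (A := A) (T := T) h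
  apply mul_left_cancel₀ hα
  rw [h1, ← h2]
  ring

theorem theta_root (h : IsTheta S θ) :
    algebraMap A L S.a + algebraMap A L S.b * θ + algebraMap A L S.c * θ ^ 2 +
      algebraMap A L S.d * θ ^ 3 = 0 := by
  have h1 := congrArg (algebraMap T L) S.αα
  simp only [map_mul, map_add, map_sub, map_neg, Algebra.smul_def] at h1
  simp only [← IsScalarTower.algebraMap_apply A T L] at h1
  rw [theta_β (A := A) (T := T) h] at h1
  have h2 := theta_α (A := A) (T := T) h
  have ha : algebraMap A L S.a ≠ 0 := by
    intro h0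
    rw [h0] at h2
    have hα : algebraMap T L S.α ≠ 0 := by
      intro h0
      exact S.α_ne_zero (IsFractionRing.injective T L (by rw [h0, map_zero]))
    exact (mul_ne_zero (theta_ne_zero (A := A) (T := T) h) hα) h2
  apply mul_left_cancel₀ ha
  rw [mul_zero]
  linear_combination θ ^ 2 * h1 - (algebraMap A L S.a + algebraMap T L S.α * θ + algebraMap A L S.b * θ) * h2

theorem theta_α' (h : IsTheta S θ) : algebraMap T L S.α =
    - (algebraMap A L S.b + algebraMap A L S.c * θ + algebraMap A L S.d * θ ^ 2) := by
  have hθ := theta_ne_zero (A := A) (T := T) h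
  apply mul_left_cancel₀ hθ
  rw [theta_α (A := A) (T := T) h]
  linear_combination theta_root (A := A) (T := T) h

end theta

section data

variable {K : Type*} [IsDomain A] [IsDomain T] [IsFractionRing T L] [Field K]
  [Algebra A K] [IsFractionRing A K] [Algebra K L] [IsScalarTower A K L]

theorem exists_repr (t : T) : ∃ u v w : A, t = algebraMap A T u + algebraMap A T v * S.α +
    algebraMap A T w * S.β := by
  obtain ⟨x, hx⟩ := S.repr t
  exact ⟨x 0, x 1, x 2, by simpa [Algebra.smul_def] using hx⟩

theorem isIntegral_iff_mem_range [IsIntegrallyClosed T] [Module.Finite A T] (y : L) :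
    IsIntegral A y ↔ y ∈ (algebraMap T L).range := by
  constructor
  · intro h
    obtain ⟨t, ht⟩ := IsIntegrallyClosed.isIntegral_iff.mp (h.tower_top (A := T))
    exact ⟨t, ht⟩
  · rintro ⟨t, rfl⟩
    exact (Algebra.IsIntegral.isIntegral (R := A) t).map (IsScalarTower.toAlgHom A T L)

theorem cubicData [IsIntegrallyClosed T] [Module.Finite A T] {θ : L} (h : IsTheta S θ) :
    CubicData A K L S.d S.c S.b S.a θ := by
  have hβ := theta_β (A := A) (T := T) h
  have hα := theta_α' (A := A) (T := T) h
  have hroot := theta_root (A := A) (T := T) h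
  refine ⟨?_, ?_, ?_, ?_⟩
  · simp only [cubicPoly, map_add, map_mul, aeval_C, aeval_X_pow, aeval_X]
    linear_combination hroot
  · intro y
    have hinjL : Function.Injective (algebraMap A L) := by
      rw [IsScalarTower.algebraMap_eq A T L]
      exact (IsFractionRing.injective T L).comp S.algebraMap_injective
    have : Module.IsTorsionFree A L := Module.isTorsionFree_iff_algebraMap_injective.mpr hinjL
    have : Module.IsTorsionFree A T := Module.isTorsionFree_iff_algebraMap_injective.mpr
      S.algebraMap_injective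
    have hint : Algebra.IsAlgebraic A L := by
      have : Algebra.IsAlgebraic A T := inferInstance
      exact (IsFractionRing.isAlgebraic_iff' A T L).mp this
    obtain ⟨s, hs, hz⟩ := IsAlgebraic.exists_integral_multiple
      (Algebra.IsAlgebraic.isAlgebraic (R := A) y)
    have hzT := (isIntegral_iff_mem_range (T := T) (s • y)).mp hz
    obtain ⟨t, ht⟩ := hzT
    obtain ⟨u, v, w, huvw⟩ := S.exists_repr t
    have hsK : algebraMap A K s ≠ 0 := by
      intro h0
      exact hs (IsFractionRing.injective A K (by rw [h0, map_zero]))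
    have hsL : algebraMap A L s ≠ 0 := by
      rw [IsScalarTower.algebraMap_apply A K L]
      exact fun h0 => hsK ((algebraMap K L).injective (by rw [h0, map_zero]))
    refine ⟨algebraMap A K (u - v * S.b) / algebraMap A K s,
      algebraMap A K (- (w * S.d) - v * S.c) / algebraMap A K s,
      algebraMap A K (- (v * S.d)) / algebraMap A K s, ?_⟩
    have hy : algebraMap A L s * y = algebraMap T L t := by
      rw [ht, Algebra.smul_def]
    simp only [map_div₀, ← IsScalarTower.algebraMap_apply A K L]
    apply mul_left_cancel₀ hsL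
    rw [hy, huvw]
    field_simp
    simp only [map_add, map_sub, map_mul, map_neg, ← IsScalarTower.algebraMap_apply A T L]
    rw [hβ, hα]
    ring
  · intro u v w huvw
    obtain ⟨s, hs⟩ := IsLocalization.exist_integer_multiples (nonZeroDivisors A)
      (Finset.univ : Finset (Fin 3)) ![u, v, w]
    obtain ⟨u', hu'⟩ := hs 0 (Finset.mem_univ _)
    obtain ⟨v', hv'⟩ := hs 1 (Finset.mem_univ _)
    obtain ⟨w', hw'⟩ := hs 2 (Finset.mem_univ _)
    simp only [Matrix.cons_val_zero, Matrix.cons_val_one, Matrix.cons_val,
      Algebra.smul_def] at hu' hv' hw'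
    have hs0 : (s : A) ≠ 0 := nonZeroDivisors.ne_zero s.2
    have hsK : algebraMap A K s ≠ 0 := by
      intro h0
      exact hs0 (IsFractionRing.injective A K (by rw [h0, map_zero]))
    have h1 : algebraMap A L u' + algebraMap A L v' * θ + algebraMap A L w' * θ ^ 2 = 0 := by
      rw [IsScalarTower.algebraMap_apply A K L u', IsScalarTower.algebraMap_apply A K L v',
        IsScalarTower.algebraMap_apply A K L w', hu', hv', hw', map_mul, map_mul, map_mul]
      linear_combination algebraMap K L (algebraMap A K s) * huvw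
    have h2 : algebraMap T L (algebraMap A T (S.d ^ 2 * u' - w' * S.d * S.b) +
        algebraMap A T (- (w' * S.d)) * S.α + algebraMap A T (- (v' * S.d) + w' * S.c) * S.β) = 0 := by
      simp only [map_add, map_sub, map_mul, map_neg, map_pow, ← IsScalarTower.algebraMap_apply A T L]
      rw [hβ, hα]
      linear_combination (algebraMap A L S.d) ^ 2 * h1
    have h3 := (injective_iff_map_eq_zero _).mp (IsFractionRing.injective T L) _ h2
    obtain ⟨e1, e2, e3⟩ := S.indep' _ _ _ h3
    have hd := S.d_ne_zero
    have hw0 : w' = 0 := by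
      have : w' * S.d = 0 := by linear_combination - e2
      exact (mul_eq_zero.mp this).resolve_right hd
    have hv0 : v' = 0 := by
      have : v' * S.d = 0 := by rw [hw0] at e3; linear_combination - e3
      exact (mul_eq_zero.mp this).resolve_right hd
    have hu0 : u' = 0 := by
      have : S.d ^ 2 * u' = 0 := by rw [hw0] at e1; linear_combination e1
      exact (mul_eq_zero.mp this).resolve_left (pow_ne_zero 2 hd)
    rw [hu0, map_zero] at hu'
    rw [hv0, map_zero] at hv'
    rw [hw0, map_zero] at hw'
    exact ⟨(mul_eq_zero.mp hu'.symm).resolve_left hsK, (mul_eq_zero.mp hv'.symm).resolve_left hsK,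
      (mul_eq_zero.mp hw'.symm).resolve_left hsK⟩
  · intro y
    rw [isIntegral_iff_mem_range (T := T)]
    constructor
    · rintro ⟨t, rfl⟩
      obtain ⟨u, v, w, huvw⟩ := S.exists_repr t
      refine ⟨u - v * S.b, -w, -v, ?_⟩
      rw [huvw]
      simp only [map_add, map_sub, map_mul, map_neg, ← IsScalarTower.algebraMap_apply A T L]
      rw [hβ, hα]
      ring
    · rintro ⟨u, v, w, rfl⟩
      refine ⟨algebraMap A T (u - w * S.b) + algebraMap A T (-w) * S.α + algebraMap A T (-v) * S.β, ?_⟩
      simp only [map_add, map_sub, map_mul, map_neg, ← IsScalarTower.algebraMap_apply A T L]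
      rw [hβ, hα]
      ring

end data

end Cubic

/-! ### powers of `(1, θ)` -/

section pow

variable {A T L : Type*} [CommRing A] [CommRing T] [Field L] [Algebra T L]

theorem span_one_theta_pow (θ : L) (n : ℕ) :
    (Submodule.span T {1, θ} : Submodule T L) ^ n = Submodule.span T ((fun i => θ ^ i) '' Set.Iic n) := by
  induction n with
  | zero =>
    rw [pow_zero, Submodule.one_eq_span]
    congr 1
    ext x
    simp [eq_comm]
  | succ n ih =>
    rw [pow_succ, ih, Submodule.span_mul_span]
    congr 1
    ext x
    simp only [Set.mem_mul, Set.mem_image, Set.mem_Iic, Set.mem_insert_iff, Set.mem_singleton_iff]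
    constructor
    · rintro ⟨_, ⟨i, hi, rfl⟩, y, rfl | rfl, rfl⟩
      · exact ⟨i, by omega, by rw [mul_one]⟩
      · exact ⟨i + 1, by omega, by rw [pow_succ]⟩
    · rintro ⟨i, hi, rfl⟩
      by_cases h : i ≤ n
      · exact ⟨θ ^ i, ⟨i, h, rfl⟩, 1, Or.inl rfl, mul_one _⟩
      · have : i = n + 1 := by omega
        subst this
        exact ⟨θ ^ n, ⟨n, le_rfl, rfl⟩, θ, Or.inr rfl, (pow_succ _ _).symm⟩

theorem mem_colon_iff (θ r : L) (n : ℕ) :
    r ∈ (1 : Submodule T L) / (Submodule.span T {1, θ} : Submodule T L) ^ n ↔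
      ∀ i ≤ n, InT T (r * θ ^ i) := by
  rw [span_one_theta_pow]
  constructor
  · intro h i hi
    have := Submodule.mem_div_iff_forall_mul_mem.mp h (θ ^ i) (Submodule.subset_span ⟨i, hi, rfl⟩)
    obtain ⟨t, ht⟩ := Submodule.mem_one.mp this
    exact ⟨t, ht⟩
  · intro h
    rw [Submodule.mem_div_iff_forall_mul_mem]
    intro y hy
    induction hy using Submodule.span_induction with
    | mem x hx =>
      obtain ⟨i, hi, rfl⟩ := hx
      obtain ⟨t, ht⟩ := h i hi
      exact Submodule.mem_one.mpr ⟨t, ht⟩
    | zero => simp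
    | add x y _ _ hx hy => rw [mul_add]; exact Submodule.add_mem _ hx hy
    | smul a x _ hx =>
      rw [mul_smul_comm]
      exact Submodule.smul_mem _ _ hx

variable [Algebra A T] [Algebra A L] [IsScalarTower A T L] [IsDomain A] [IsDomain T]
  [IsFractionRing T L] [IsIntegrallyClosed T] [Module.Finite A T]

theorem inT_iff_isIntegral (y : L) : InT T y ↔ IsIntegral A y :=
  (Cubic.isIntegral_iff_mem_range (T := T) y).symm

theorem colonMem_iff_mem (θ r : L) (n : ℕ) : ColonMem A θ n r ↔
    r ∈ (1 : Submodule T L) / (Submodule.span T {1, θ} : Submodule T L) ^ n := by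
  rw [mem_colon_iff]
  unfold ColonMem
  constructor
  · intro h i hi
    exact (inT_iff_isIntegral (A := A) _).mpr (h i hi)
  · intro h i hi
    exact (inT_iff_isIntegral (T := T) _).mp (h i hi)

theorem prinPow_of_colonPrincipal {θ : L} {n : ℕ} (h : ColonPrincipal A θ n) :
    PrinPow (Submodule.span T {1, θ} : Submodule T L) n := by
  obtain ⟨r₀, hr0, hr⟩ := h
  refine ⟨r₀, ?_⟩
  ext r
  rw [← colonMem_iff_mem (A := A), hr, ← inT_iff_isIntegral (T := T), Submodule.mem_span_singleton]
  constructor
  · rintro ⟨t, ht⟩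
    refine ⟨t, ?_⟩
    rw [Algebra.smul_def, ht]
    field_simp
  · rintro ⟨t, rfl⟩
    refine ⟨t, ?_⟩
    rw [Algebra.smul_def]
    field_simp

end pow

/-! ### scaling -/

section scale

variable {T L : Type*} [CommRing T] [Field L] [Algebra T L]

theorem prinPow_scale {W W' : Submodule T L} {c : L} (hc : c ≠ 0)
    (h : ∀ x, x ∈ W' ↔ ∃ w ∈ W, x = c * w) {n : ℕ} (hW : PrinPow W n) : PrinPow W' n := by
  obtain ⟨e, he⟩ := hW
  have hW' : W' = Submodule.span T {c} * W := by
    ext x
    rw [h, Submodule.mem_span_singleton_mul]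
    constructor
    · rintro ⟨w, hw, rfl⟩
      exact ⟨w, hw, rfl⟩
    · rintro ⟨w, hw, rfl⟩
      exact ⟨w, hw, rfl⟩
  refine ⟨e / c ^ n, ?_⟩
  ext x
  have h1 : x ∈ (1 : Submodule T L) / W' ^ n ↔ x * c ^ n ∈ (1 : Submodule T L) / W ^ n := by
    rw [hW', mul_pow, Submodule.span_pow, Set.singleton_pow, Submodule.mem_div_iff_forall_mul_mem,
      Submodule.mem_div_iff_forall_mul_mem]
    constructor
    · intro hx y hy
      have := hx (c ^ n * y) (Submodule.mem_span_singleton_mul.mpr ⟨y, hy, rfl⟩)
      rwa [← mul_assoc] at this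
    · intro hx y hy
      obtain ⟨z, hz, rfl⟩ := Submodule.mem_span_singleton_mul.mp hy
      have := hx z hz
      rwa [← mul_assoc]
  rw [h1, he, Submodule.mem_span_singleton, Submodule.mem_span_singleton]
  have hcn : c ^ n ≠ 0 := pow_ne_zero n hc
  constructor
  · rintro ⟨t, ht⟩
    refine ⟨t, ?_⟩
    rw [Algebra.smul_def] at ht ⊢
    field_simp
    rw [ht, mul_comm]
  · rintro ⟨t, rfl⟩
    refine ⟨t, ?_⟩
    rw [Algebra.smul_def, Algebra.smul_def]
    field_simp

end scale

end Pool.Agent.WFT
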