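import Pool.Agent.WFT.Tab
import Pool.Agent.WFT.Defs
import Pool.Agent.Lib_helper22.CN.Dim

/-!
# MP_7dd379_ag: the case distinction for cubic tables
-/

namespace Pool.Agent.WFT

open IsLocalRing Polynomial

section

variable {d : ℕ} {k : Type*} [Field k]

/-- `a` and `e` have linearly independent linear parts -/
def LinInd (a e : PS d k) : Prop :=
  ∀ u v : PS d k, u * a + v * e ∈ maximalIdeal (PS d k) ^ 2 →
    u ∈ maximalIdeal (PS d k) ∧ v ∈ maximalIdeal (PS d k)

/-- the vector of linear coefficients -/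
noncomputable def lin (x : PS d k) (i : Fin d) : k := MvPowerSeries.coeff (Finsupp.single i 1) x

theorem lin_add (x y : PS d k) (i : Fin d) : lin (x + y) i = lin x i + lin y i := by
  simp [lin]

theorem lin_C_mul (t : k) (x : PS d k) (i : Fin d) :
    lin (MvPowerSeries.C t * x) i = t * lin x i := by
  simp [lin]

theorem mem_max_iff (x : PS d k) :
    x ∈ maximalIdeal (PS d k) ↔ MvPowerSeries.constantCoeff x = 0 := by
  rw [mem_maximalIdeal, mem_nonunits_iff, MvPowerSeries.isUnit_iff_constantCoeff, isUnit_iff_ne_zero,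
    not_not]

theorem mem_sq_iff (x : PS d k) : x ∈ maximalIdeal (PS d k) ^ 2 ↔
    MvPowerSeries.constantCoeff x = 0 ∧ ∀ i, lin x i = 0 := by
  rw [CN.maximalIdeal_mvPowerSeries, CN.mem_varIdeal_pow_iff]
  constructor
  · intro h
    refine ⟨?_, fun i => h _ (by simp)⟩
    rw [← MvPowerSeries.coeff_zero_eq_constantCoeff_apply]
    exact h 0 (by simp)
  · rintro ⟨h0, h1⟩ ν hν
    rcases Nat.lt_or_ge ν.degree 1 with h2 | h2
    · have : ν = 0 := by
        rw [← Finsupp.degree_eq_zero_iff]; omega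
      rw [this, MvPowerSeries.coeff_zero_eq_constantCoeff_apply, h0]
    · have h3 : ν.degree = 1 := by omega
      obtain ⟨i, hi⟩ : ∃ i, ν i ≠ 0 := by
        by_contra hcon
        push Not at hcon
        have : ν = 0 := Finsupp.ext hcon
        rw [this] at h3
        simp at h3
      have h4 : Finsupp.single i 1 ≤ ν := by
        rw [Finsupp.single_le_iff]; omega
      have h5 : ν = Finsupp.single i 1 := by
        have h6 : (ν - Finsupp.single i 1) + Finsupp.single i 1 = ν := tsub_add_cancel_of_le h4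
        have h7 := congrArg Finsupp.degree h6
        rw [map_add, Finsupp.degree_single, h3] at h7
        have h8 : ν - Finsupp.single i 1 = 0 := by
          rw [← Finsupp.degree_eq_zero_iff]; omega
        rw [h8, zero_add] at h6
        exact h6.symm
      rw [h5]
      exact h1 i

theorem lin_C_mul_eq (u x : PS d k) (hx : x ∈ maximalIdeal (PS d k)) (i : Fin d) :
    lin (u * x) i = MvPowerSeries.constantCoeff u * lin x i := by
  have h1 : u * x = MvPowerSeries.C (MvPowerSeries.constantCoeff u) * x +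
      (u - MvPowerSeries.C (MvPowerSeries.constantCoeff u)) * x := by ring
  have h2 : (u - MvPowerSeries.C (MvPowerSeries.constantCoeff u)) * x ∈
      maximalIdeal (PS d k) ^ 2 := by
    rw [pow_two]
    refine Ideal.mul_mem_mul ?_ hx
    rw [mem_max_iff]
    simp
  rw [h1, lin_add, lin_C_mul, ((mem_sq_iff _).1 h2).2 i, add_zero]

theorem linInd_of {a e : PS d k} (ha : a ∈ maximalIdeal (PS d k)) (he : e ∈ maximalIdeal (PS d k))
    (i : Fin d) (hi : lin a i ≠ 0) (j : Fin d) (hj : lin a i * lin e j - lin a j * lin e i ≠ 0) :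
    LinInd a e := by
  intro u v huv
  have h1 : ∀ l, MvPowerSeries.constantCoeff u * lin a l + MvPowerSeries.constantCoeff v * lin e l = 0 := by
    intro l
    have := ((mem_sq_iff _).1 huv).2 l
    rwa [lin_add, lin_C_mul_eq u a ha, lin_C_mul_eq v e he] at this
  have h2 : MvPowerSeries.constantCoeff v = 0 := by
    have h3 := h1 i
    have h4 := h1 j
    have h5 : MvPowerSeries.constantCoeff v * (lin a i * lin e j - lin a j * lin e i) = 0 := by
      linear_combination lin a i * h4 - lin a j * h3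
    exact (mul_eq_zero.1 h5).resolve_right hj
  have h3 : MvPowerSeries.constantCoeff u = 0 := by
    have := h1 i
    rw [h2, zero_mul, add_zero] at this
    exact (mul_eq_zero.1 this).resolve_right hi
  rw [mem_max_iff, mem_max_iff]
  exact ⟨h3, h2⟩

/-- a cubic polynomial over an infinite field which vanishes everywhere is zero -/
theorem cubic_zero [Infinite k] (g₃ g₂ g₁ g₀ : k)
    (h : ∀ t : k, g₃ * t ^ 3 + g₂ * t ^ 2 + g₁ * t + g₀ = 0) : g₃ = 0 ∧ g₂ = 0 ∧ g₁ = 0 ∧ g₀ = 0 := by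
  have h1 : (C g₃ * X ^ 3 + C g₂ * X ^ 2 + C g₁ * X + C g₀ : k[X]) = 0 := by
    apply Polynomial.funext
    intro t
    simp [h t]
  have hc : ∀ n, (C g₃ * X ^ 3 + C g₂ * X ^ 2 + C g₁ * X + C g₀ : k[X]).coeff n = 0 := by
    intro n; rw [h1]; simp
  have e3 := hc 3
  have e2 := hc 2
  have e1 := hc 1
  have e0 := hc 0
  simp [coeff_X, coeff_C] at e3 e2 e1 e0
  exact ⟨e3, e2, e1, e0⟩

end

section

variable {d : ℕ} {k T : Type*} [Field k] [Infinite k] [CommRing T] [Algebra (PS d k) T]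

/-- all linear parts lie on a line -/
def OnLine (a b c e : PS d k) : Prop :=
  ∃ (v : Fin d → k) (g₃ g₂ g₁ g₀ : k), ∀ i, lin a i = g₃ * v i ∧ lin b i = g₂ * v i ∧
    lin c i = g₁ * v i ∧ lin e i = g₀ * v i

theorem split_aux {a b c e : PS d k} {X Y : T} (h : Tab (PS d k) T a b c e X Y)
    (ha : a ∈ maximalIdeal (PS d k)) (hb : b ∈ maximalIdeal (PS d k))
    (hc : c ∈ maximalIdeal (PS d k)) (he : e ∈ maximalIdeal (PS d k))
    (i : Fin d) (hi : lin a i ≠ 0) (hline : ¬ OnLine a b c e) :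
    ∃ (a' b' c' e' : PS d k) (X' Y' : T), Tab (PS d k) T a' b' c' e' X' Y' ∧
      a' ∈ maximalIdeal (PS d k) ∧ b' ∈ maximalIdeal (PS d k) ∧ c' ∈ maximalIdeal (PS d k) ∧
      e' ∈ maximalIdeal (PS d k) ∧ LinInd a' e' := by
  set m := maximalIdeal (PS d k)
  by_contra hcon
  apply hline
  refine ⟨lin a, 1, lin b i / lin a i, lin c i / lin a i, lin e i / lin a i, ?_⟩
  intro j
  have key : ∀ t : k, 0 * t ^ 3 + (lin a i * lin b j - lin a j * lin b i) * t ^ 2 +
      (lin a i * lin c j - lin a j * lin c i) * t + (lin a i * lin e j - lin a j * lin e i) = 0 := by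
    intro t
    by_contra hne
    apply hcon
    have hC : ∀ (x : PS d k), x ∈ m → ∀ y : PS d k, x * y ∈ m := fun x hx y => m.mul_mem_right _ hx
    refine ⟨_, _, _, _, _, _, h.trans (MvPowerSeries.C t), ha, ?_, ?_, ?_, ?_⟩
    · exact m.add_mem (m.mul_mem_right _ (m.mul_mem_left _ ha)) hb
    · exact m.add_mem (m.add_mem (m.mul_mem_right _ (m.mul_mem_left _ ha))
        (m.mul_mem_right _ (m.mul_mem_left _ hb))) hc
    · exact m.add_mem (m.add_mem (m.add_mem (m.mul_mem_right _ ha) (m.mul_mem_right _ hb))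
        (m.mul_mem_right _ hc)) he
    · refine linInd_of ha ?_ i hi j ?_
      · exact m.add_mem (m.add_mem (m.add_mem (m.mul_mem_right _ ha) (m.mul_mem_right _ hb))
          (m.mul_mem_right _ hc)) he
      · have hl : ∀ l, lin (a * MvPowerSeries.C t ^ 3 + b * MvPowerSeries.C t ^ 2 +
            c * MvPowerSeries.C t + e) l = t ^ 3 * lin a l + t ^ 2 * lin b l + t * lin c l +
            lin e l := by
          intro l
          rw [lin_add, lin_add, lin_add, mul_comm a, mul_comm b, mul_comm c, ← map_pow, ← map_pow,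
            lin_C_mul, lin_C_mul, lin_C_mul]
        rw [hl, hl]
        intro h0
        apply hne
        linear_combination h0
  obtain ⟨-, h2, h1, h0⟩ := cubic_zero _ _ _ _ key
  refine ⟨(one_mul _).symm, ?_, ?_, ?_⟩
  · field_simp; linear_combination h2
  · field_simp; linear_combination h1
  · field_simp; linear_combination h0

/-- either all linear parts lie on a line, or there is a table with independent linear parts of
`a` and `e`. -/
theorem split {a b c e : PS d k} {X Y : T} (h : Tab (PS d k) T a b c e X Y)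
    (ha : a ∈ maximalIdeal (PS d k)) (hb : b ∈ maximalIdeal (PS d k))
    (hc : c ∈ maximalIdeal (PS d k)) (he : e ∈ maximalIdeal (PS d k))
    (hline : ¬ OnLine a b c e) :
    ∃ (a' b' c' e' : PS d k) (X' Y' : T), Tab (PS d k) T a' b' c' e' X' Y' ∧
      a' ∈ maximalIdeal (PS d k) ∧ b' ∈ maximalIdeal (PS d k) ∧ c' ∈ maximalIdeal (PS d k) ∧
      e' ∈ maximalIdeal (PS d k) ∧ LinInd a' e' := by
  set m := maximalIdeal (PS d k) with hm
  -- a translation with nonzero linear part of the constant term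
  obtain ⟨t, i, hti⟩ : ∃ (t : k) (i : Fin d), t ^ 3 * lin a i + t ^ 2 * lin b i + t * lin c i +
      lin e i ≠ 0 := by
    by_contra hcon
    push Not at hcon
    apply hline
    refine ⟨0, 0, 0, 0, 0, fun i => ?_⟩
    obtain ⟨h3, h2, h1, h0⟩ := cubic_zero (lin a i) (lin b i) (lin c i) (lin e i) (fun t => by
      linear_combination hcon t i)
    simp [h3, h2, h1, h0]
  have hl : ∀ l, lin (a * MvPowerSeries.C t ^ 3 + b * MvPowerSeries.C t ^ 2 +
      c * MvPowerSeries.C t + e) l = t ^ 3 * lin a l + t ^ 2 * lin b l + t * lin c l +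
      lin e l := by
    intro l
    rw [lin_add, lin_add, lin_add, mul_comm a, mul_comm b, mul_comm c, ← map_pow, ← map_pow,
      lin_C_mul, lin_C_mul, lin_C_mul]
  have hb' : 3 * a * MvPowerSeries.C t + b ∈ m :=
    m.add_mem (m.mul_mem_right _ (m.mul_mem_left _ ha)) hb
  have hc' : 3 * a * MvPowerSeries.C t ^ 2 + 2 * b * MvPowerSeries.C t + c ∈ m :=
    m.add_mem (m.add_mem (m.mul_mem_right _ (m.mul_mem_left _ ha))
        (m.mul_mem_right _ (m.mul_mem_left _ hb))) hc
  have he' : a * MvPowerSeries.C t ^ 3 + b * MvPowerSeries.C t ^ 2 + c * MvPowerSeries.C t + e ∈ m :=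
    m.add_mem (m.add_mem (m.add_mem (m.mul_mem_right _ ha) (m.mul_mem_right _ hb))
        (m.mul_mem_right _ hc)) he
  refine split_aux (h.trans (MvPowerSeries.C t)).swap he' hc' hb' ha i (by rw [hl]; exact hti) ?_
  rintro ⟨v, g₃, g₂, g₁, g₀, hv⟩
  apply hline
  refine ⟨v, g₀, g₁ - 3 * t * g₀, g₂ - 2 * t * (g₁ - 3 * t * g₀) - 3 * t ^ 2 * g₀,
    g₃ - t ^ 3 * g₀ - t ^ 2 * (g₁ - 3 * t * g₀) -
      t * (g₂ - 2 * t * (g₁ - 3 * t * g₀) - 3 * t ^ 2 * g₀), fun l => ?_⟩
  obtain ⟨v3, v2, v1, v0⟩ := hv l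
  have hl2 : lin (3 * a * MvPowerSeries.C t ^ 2 + 2 * b * MvPowerSeries.C t + c) l =
      3 * t ^ 2 * lin a l + 2 * t * lin b l + lin c l := by
    have e1 : (3 * a * MvPowerSeries.C t ^ 2 + 2 * b * MvPowerSeries.C t + c : PS d k) =
        MvPowerSeries.C (3 * t ^ 2) * a + MvPowerSeries.C (2 * t) * b + c := by
      simp only [map_mul, map_pow, map_ofNat]; ring
    rw [e1, lin_add, lin_add, lin_C_mul, lin_C_mul]
  have hl1 : lin (3 * a * MvPowerSeries.C t + b) l = 3 * t * lin a l + lin b l := by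
    have e1 : (3 * a * MvPowerSeries.C t + b : PS d k) = MvPowerSeries.C (3 * t) * a + b := by
      simp only [map_mul, map_ofNat]; ring
    rw [e1, lin_add, lin_C_mul]
  rw [hl] at v3
  rw [hl2] at v2
  rw [hl1] at v1
  refine ⟨v0, ?_, ?_, ?_⟩
  · linear_combination v1 - 3 * t * v0
  · linear_combination v2 - 2 * t * (v1 - 3 * t * v0) - 3 * t ^ 2 * v0
  · linear_combination v3 - t ^ 3 * v0 - t ^ 2 * (v1 - 3 * t * v0) -
      t * (v2 - 2 * t * (v1 - 3 * t * v0) - 3 * t ^ 2 * v0)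

omit [Infinite k] in
/-- the case where all linear parts lie on a line -/
theorem onLine_cases {a b c e : PS d k} (h : OnLine a b c e)
    (ha : a ∈ maximalIdeal (PS d k)) (hb : b ∈ maximalIdeal (PS d k))
    (hc : c ∈ maximalIdeal (PS d k)) (he : e ∈ maximalIdeal (PS d k)) :
    (a ∈ maximalIdeal (PS d k) ^ 2 ∧ b ∈ maximalIdeal (PS d k) ^ 2 ∧
      c ∈ maximalIdeal (PS d k) ^ 2 ∧ e ∈ maximalIdeal (PS d k) ^ 2) ∨
    ∃ (x : PS d k) (g₃ g₂ g₁ g₀ : k), x ∈ maximalIdeal (PS d k) ∧ x ∉ maximalIdeal (PS d k) ^ 2 ∧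
      ¬ (g₃ = 0 ∧ g₂ = 0 ∧ g₁ = 0 ∧ g₀ = 0) ∧
      a - MvPowerSeries.C g₃ * x ∈ maximalIdeal (PS d k) ^ 2 ∧
      b - MvPowerSeries.C g₂ * x ∈ maximalIdeal (PS d k) ^ 2 ∧
      c - MvPowerSeries.C g₁ * x ∈ maximalIdeal (PS d k) ^ 2 ∧
      e - MvPowerSeries.C g₀ * x ∈ maximalIdeal (PS d k) ^ 2 := by
  classical
  obtain ⟨v, g₃, g₂, g₁, g₀, hv⟩ := h
  have ha' := (mem_max_iff a).1 ha
  have hb' := (mem_max_iff b).1 hb
  have hc' := (mem_max_iff c).1 hc
  have he' := (mem_max_iff e).1 he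
  by_cases hcase : (g₃ = 0 ∧ g₂ = 0 ∧ g₁ = 0 ∧ g₀ = 0) ∨ v = 0
  · left
    simp only [mem_sq_iff]
    rcases hcase with ⟨h3, h2, h1, h0⟩ | h0
    · refine ⟨⟨ha', fun i => ?_⟩, ⟨hb', fun i => ?_⟩, ⟨hc', fun i => ?_⟩, ⟨he', fun i => ?_⟩⟩
      · rw [(hv i).1, h3, zero_mul]
      · rw [(hv i).2.1, h2, zero_mul]
      · rw [(hv i).2.2.1, h1, zero_mul]
      · rw [(hv i).2.2.2, h0, zero_mul]
    · refine ⟨⟨ha', fun i => ?_⟩, ⟨hb', fun i => ?_⟩, ⟨hc', fun i => ?_⟩, ⟨he', fun i => ?_⟩⟩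
      · rw [(hv i).1, h0, Pi.zero_apply, mul_zero]
      · rw [(hv i).2.1, h0, Pi.zero_apply, mul_zero]
      · rw [(hv i).2.2.1, h0, Pi.zero_apply, mul_zero]
      · rw [(hv i).2.2.2, h0, Pi.zero_apply, mul_zero]
  · right
    push Not at hcase
    obtain ⟨hg, hv0⟩ := hcase
    set x : PS d k := ∑ j, MvPowerSeries.C (v j) * MvPowerSeries.X j with hx
    have hx0 : MvPowerSeries.constantCoeff x = 0 := by
      rw [hx, map_sum]
      exact Finset.sum_eq_zero fun j _ => by simp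
    have hxl : ∀ i, lin x i = v i := by
      intro i
      rw [hx, lin, map_sum, Finset.sum_eq_single i]
      · simp
      · intro j _ hji
        rw [MvPowerSeries.coeff_C_mul, MvPowerSeries.coeff_X, if_neg, mul_zero]
        intro hcon
        have := (Finsupp.single_eq_single_iff _ _ _ _).1 hcon
        simp at this
        exact hji this.symm
      · simp
    have hsub : ∀ (y : PS d k) (g : k), MvPowerSeries.constantCoeff y = 0 →
        (∀ i, lin y i = g * v i) → y - MvPowerSeries.C g * x ∈ maximalIdeal (PS d k) ^ 2 := by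
      intro y g hy0 hyl
      rw [mem_sq_iff]
      refine ⟨by simp [hy0, hx0], fun i => ?_⟩
      have : y - MvPowerSeries.C g * x = y + MvPowerSeries.C (-g) * x := by
        rw [map_neg]; ring
      rw [this, lin_add, lin_C_mul, hyl, hxl]
      ring
    refine ⟨x, g₃, g₂, g₁, g₀, (mem_max_iff x).2 hx0, ?_, ?_, hsub a g₃ ha' fun i => (hv i).1,
      hsub b g₂ hb' fun i => (hv i).2.1, hsub c g₁ hc' fun i => (hv i).2.2.1,
      hsub e g₀ he' fun i => (hv i).2.2.2⟩
    · intro hcon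
      apply hv0
      funext i
      rw [← hxl i, ((mem_sq_iff x).1 hcon).2 i, Pi.zero_apply]
    · rintro ⟨h3, h2, h1, h0⟩
      exact hg h3 h2 h1 h0

end

/-- two quadratic-type polynomials with a common factor of degree at least two -/
theorem common_factor {κ : Type*} [Field κ] (β₁ β₂ γ₁ γ₂ : κ) (G : κ[X])
    (h1 : G ∣ X ^ 3 + C β₁ * X ^ 2 + C γ₁ * X) (h2 : G ∣ C β₂ * X ^ 2 + C γ₂ * X + 1)
    (hdeg : 2 ≤ G.natDegree) : β₂ * γ₁ = 1 ∧ γ₂ = β₂ * β₁ := by
  have hX : IsCoprime G X := by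
    obtain ⟨H, hH⟩ := h2
    refine ⟨H, -(C β₂ * X + C γ₂), ?_⟩
    linear_combination -hH
  have h3 : G ∣ X ^ 2 + C β₁ * X + C γ₁ := by
    have h4 : G ∣ X * (X ^ 2 + C β₁ * X + C γ₁) := by
      convert h1 using 1; ring
    exact hX.dvd_of_dvd_mul_left h4
  set Q : κ[X] := X ^ 2 + C β₁ * X + C γ₁ with hQ
  have hQd : Q.natDegree = 2 := by rw [hQ]; compute_degree!
  have hQm : Q.Monic := by rw [hQ]; monicity!
  obtain ⟨H, hH⟩ := h3
  have hG0 : G ≠ 0 := by rintro rfl; simp at hdeg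
  have hH0 : H ≠ 0 := by
    rintro rfl
    rw [mul_zero] at hH
    exact hQm.ne_zero hH
  have hHd : H.natDegree = 0 := by
    have := natDegree_mul hG0 hH0
    rw [← hH, hQd] at this
    omega
  obtain ⟨u, hu⟩ := natDegree_eq_zero.1 hHd
  have hu0 : u ≠ 0 := by rintro rfl; apply hH0; rw [← hu, C_0]
  have hQG : Q ∣ G := by
    refine ⟨C u⁻¹, ?_⟩
    rw [hH, ← hu, mul_assoc, ← C_mul, mul_inv_cancel₀ hu0, C_1, mul_one]
  obtain ⟨W, hW⟩ := hQG.trans h2
  have hdegR : (C β₂ * X ^ 2 + C γ₂ * X + 1 : κ[X]).natDegree ≤ 2 := by compute_degree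
  have hR0 : (C β₂ * X ^ 2 + C γ₂ * X + 1 : κ[X]) ≠ 0 := by
    intro h0
    have := congrArg (fun P => coeff P 0) h0
    simp at this
  have hW0 : W ≠ 0 := by
    rintro rfl
    rw [mul_zero] at hW
    exact hR0 hW
  have hWd : W.natDegree = 0 := by
    have := natDegree_mul hQm.ne_zero hW0
    rw [← hW, hQd] at this
    omega
  obtain ⟨w, hw⟩ := natDegree_eq_zero.1 hWd
  rw [← hw, hQ] at hW
  have c2 := congrArg (fun P => coeff P 2) hW
  have c1 := congrArg (fun P => coeff P 1) hW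
  have c0 := congrArg (fun P => coeff P 0) hW
  simp [coeff_X, coeff_C, coeff_one] at c2 c1 c0
  subst c2
  exact ⟨by rw [mul_comm]; exact c0.symm, by rw [mul_comm]; exact c1⟩

/-- failure of the base condition -/
theorem base_fail {d : ℕ} {k : Type*} [Field k] {a b c e : PS d k}
    (ha : a ∈ maximalIdeal (PS d k)) (he : e ∈ maximalIdeal (PS d k))
    (h : ¬ ∀ b₁ b₂ c₁ c₂ : PS d k, b = b₁ * a + b₂ * e → c = c₁ * a + c₂ * e →
      ∀ G : (ResidueField (PS d k))[X],
        G ∣ (X ^ 3 + C b₁ * X ^ 2 + C c₁ * X : (PS d k)[X]).map (residue (PS d k)) →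
        G ∣ (C b₂ * X ^ 2 + C c₂ * X + 1 : (PS d k)[X]).map (residue (PS d k)) →
        G.natDegree ≤ 1) :
    ∃ g₁ g₀ γ : k, γ * g₀ = 1 ∧
      b - MvPowerSeries.C g₁ * a - MvPowerSeries.C γ * e ∈ maximalIdeal (PS d k) ^ 2 ∧
      c - MvPowerSeries.C g₀ * a - MvPowerSeries.C (γ * g₁) * e ∈ maximalIdeal (PS d k) ^ 2 := by
  push Not at h
  obtain ⟨b₁, b₂, c₁, c₂, hb, hc, G, h1, h2, hG⟩ := h
  have hm1 : (X ^ 3 + C b₁ * X ^ 2 + C c₁ * X : (PS d k)[X]).map (residue (PS d k)) =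
      X ^ 3 + C (residue (PS d k) b₁) * X ^ 2 + C (residue (PS d k) c₁) * X := by
    simp
  have hm2 : (C b₂ * X ^ 2 + C c₂ * X + 1 : (PS d k)[X]).map (residue (PS d k)) =
      C (residue (PS d k) b₂) * X ^ 2 + C (residue (PS d k) c₂) * X + 1 := by
    simp
  rw [hm1] at h1
  rw [hm2] at h2
  obtain ⟨h3, h4⟩ := common_factor _ _ _ _ G h1 h2 (by omega)
  have hcc : ∀ x y : PS d k, residue (PS d k) x = residue (PS d k) y →
      MvPowerSeries.constantCoeff x = MvPowerSeries.constantCoeff y := by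
    intro x y hxy
    have h5 : x - y ∈ maximalIdeal (PS d k) := by
      rw [← residue_eq_zero_iff, map_sub, hxy, sub_self]
    rw [mem_max_iff, map_sub, sub_eq_zero] at h5
    exact h5
  have h5 := hcc (b₂ * c₁) 1 (by rw [map_mul, h3, map_one])
  have h6 := hcc c₂ (b₂ * b₁) (by rw [map_mul, h4])
  rw [map_mul, map_one] at h5
  rw [map_mul] at h6
  refine ⟨MvPowerSeries.constantCoeff b₁, MvPowerSeries.constantCoeff c₁,
    MvPowerSeries.constantCoeff b₂, h5, ?_, ?_⟩
  · have e1 : b - MvPowerSeries.C (MvPowerSeries.constantCoeff b₁) * a -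
        MvPowerSeries.C (MvPowerSeries.constantCoeff b₂) * e =
        (b₁ - MvPowerSeries.C (MvPowerSeries.constantCoeff b₁)) * a +
        (b₂ - MvPowerSeries.C (MvPowerSeries.constantCoeff b₂)) * e := by rw [hb]; ring
    rw [e1, pow_two]
    exact Ideal.add_mem _ (Ideal.mul_mem_mul ((mem_max_iff _).2 (by simp)) ha)
      (Ideal.mul_mem_mul ((mem_max_iff _).2 (by simp)) he)
  · have e1 : c - MvPowerSeries.C (MvPowerSeries.constantCoeff c₁) * a -
        MvPowerSeries.C (MvPowerSeries.constantCoeff b₂ * MvPowerSeries.constantCoeff b₁) * e =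
        (c₁ - MvPowerSeries.C (MvPowerSeries.constantCoeff c₁)) * a +
        (c₂ - MvPowerSeries.C (MvPowerSeries.constantCoeff c₂)) * e := by rw [hc, ← h6]; ring
    rw [e1, pow_two]
    exact Ideal.add_mem _ (Ideal.mul_mem_mul ((mem_max_iff _).2 (by simp)) ha)
      (Ideal.mul_mem_mul ((mem_max_iff _).2 (by simp)) he)

end Pool.Agent.WFT
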