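import Pool.Agent.WFT.Stmts
import Pool.Agent.WFT.E3_7
import Pool.Agent.WFT.E8a
import Pool.Agent.WFT.C1
import Pool.Agent.WFT.Split
import Pool.Agent.WFT.Mods22
import Pool.Agent.Lib_helper56.NB.PSNorm
import Pool.Agent.Lib_helper22.CN.UFD

/-!
# MP_7dd379_ag, E8: the dichotomy in rank three
-/

namespace Pool.Agent.WFT

open Polynomial IsLocalRing

universe u

section tab

variable {A T : Type*} [CommRing A] [CommRing T] [Algebra A T] {a b c e : A} {X Y : T}

/-- from the table `Tab` to the Delone-Faddeev form `Cubic` -/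
def Tab.toCubic (h : Tab A T a b c e X Y) : Cubic A T where
  α := -Y
  β := -X
  a := e
  b := c
  c := b
  d := a
  repr t := by
    obtain ⟨u, v, w, huvw⟩ := h.span t
    refine ⟨![u, -w, -v], ?_⟩
    rw [huvw]
    simp only [Matrix.cons_val_zero, Matrix.cons_val_one, Matrix.cons_val, neg_smul, smul_neg]
    ring
  indep x hx := by
    obtain ⟨h0, h1, h2⟩ := h.indep (x 0) (-x 2) (-x 1) (by
      rw [← hx]
      simp only [neg_smul, smul_neg]
      ring)
    funext i
    fin_cases i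
    · exact h0
    · exact neg_eq_zero.mp h2
    · exact neg_eq_zero.mp h1
  αα := by
    rw [neg_mul_neg, h.YY, mul_comm b e]
    simp only [smul_neg]
    ring
  αβ := by rw [neg_mul_neg, mul_comm Y X, h.XY, mul_comm a e]
  ββ := by
    rw [neg_mul_neg, h.XX, mul_comm a c]
    simp only [smul_neg]
    ring

theorem Cubic.toTab (S : Cubic A T) : Tab A T S.d S.c S.b S.a (-S.β) (-S.α) where
  span t := by
    obtain ⟨x, hx⟩ := S.repr t
    refine ⟨x 0, -x 2, -x 1, ?_⟩
    rw [hx]
    simp only [neg_smul, smul_neg]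
    ring
  indep u v w huvw := by
    have h := S.indep ![u, -w, -v] (by
      rw [← huvw]
      simp only [Matrix.cons_val_zero, Matrix.cons_val_one, Matrix.cons_val, neg_smul, smul_neg]
      ring)
    have h0 := congrFun h 0
    have h1 := congrFun h 1
    have h2 := congrFun h 2
    simp only [Matrix.cons_val_zero, Matrix.cons_val_one, Matrix.cons_val, Pi.zero_apply,
      neg_eq_zero] at h0 h1 h2
    exact ⟨h0, h2, h1⟩
  XX := by
    rw [neg_mul_neg, S.ββ, mul_comm S.b S.d]
    simp only [smul_neg]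
    ring
  XY := by rw [neg_mul_neg, mul_comm, S.αβ, mul_comm S.a]
  YY := by
    rw [neg_mul_neg, S.αα, mul_comm S.a S.c]
    simp only [smul_neg]
    ring

end tab

section bound

variable {p : ℕ} [Fact p.Prime] {d : ℕ} {k T L : Type u} [Field k] [Infinite k]
    [CharP k p] [CommRing T] [IsDomain T] [IsLocalRing T] [IsNoetherianRing T] [IsIntegrallyClosed T]
    [Algebra (PS d k) T] [Module.Finite (PS d k) T] [Module.Free (PS d k) T] [Field L]
    [Algebra T L] [IsFractionRing T L] [Algebra (PS d k) L] [IsScalarTower (PS d k) T L]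

/-- all coefficients in `m ^ 2` -/
theorem bound_of_sq (hFed : StmtFedder.{u}) (hF : FFin k p) (hMM : MM d k T) (hd : 3 ≤ d)
    (S : Cubic (PS d k) T) (θ : L) (hθ : IsTheta S θ)
    (ha : S.a ∈ maximalIdeal (PS d k) ^ 2) (hb : S.b ∈ maximalIdeal (PS d k) ^ 2)
    (hc : S.c ∈ maximalIdeal (PS d k) ^ 2) (hdd : S.d ∈ maximalIdeal (PS d k) ^ 2)
    (e N : ℕ) (hs : HasSplit T (p ^ e) N) : 2 * N ≤ (2 * d - 3) * (p ^ e - 1) := by
  have h21 : ∀ x ∈ maximalIdeal (PS d k) ^ 2, x ∈ maximalIdeal (PS d k) := fun x hx =>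
    Ideal.pow_le_self two_ne_zero hx
  obtain ⟨r, hr0, hr, hbd⟩ := hFed p d k T L hF hMM S θ hθ (h21 _ ha) (h21 _ hb) (h21 _ hc)
    (h21 _ hdd) e N hs
  have h1 := hbd 2 0 (by
    intro i
    simp only [Cubic.F, coeff_add, coeff_C, coeff_C_mul, coeff_X, coeff_X_pow]
    refine Ideal.add_mem _ (Ideal.add_mem _ (Ideal.add_mem _ ?_ ?_) ?_) ?_
    · split_ifs <;> simp [ha]
    · exact Ideal.mul_mem_right _ _ hb
    · exact Ideal.mul_mem_right _ _ hc
    · exact Ideal.mul_mem_right _ _ hdd) ?_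
  · have h2 : 2 * N ≤ 2 * ((d - 2) * (p ^ e - 1)) := by
      have h3 : d * (p ^ e - 1) = 2 * (p ^ e - 1) + (d - 2) * (p ^ e - 1) := by
        rw [← add_mul]
        congr 1
        omega
      rw [h3] at h1
      omega
    refine h2.trans ?_
    rw [← mul_assoc]
    exact Nat.mul_le_mul_right _ (by omega)
  · -- `OrdGe θ r 0`
    have hr1 := hr 0 (Nat.zero_le _)
    rw [pow_zero, mul_one] at hr1
    obtain ⟨t, ht⟩ := hr1
    obtain ⟨u, v, w, huvw⟩ := S.exists_repr t
    refine ⟨1, C (u - v * S.b) + C (- (w * S.d) - v * S.c) * X + C (- (v * S.d)) * X ^ 2,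
      ⟨0, ?_⟩, fun i => by simp, ?_⟩
    · rw [coeff_one_zero]
      exact (Ideal.ne_top_iff_one _).mp (IsLocalRing.maximalIdeal.isMaximal _).ne_top
    · rw [map_one, one_mul, ← ht, huvw]
      simp only [map_add, map_sub, map_mul, map_neg, map_pow, aeval_C, aeval_X,
        ← IsScalarTower.algebraMap_apply (PS d k) T L]
      rw [Cubic.theta_β (A := PS d k) (T := T) hθ, Cubic.theta_α' (A := PS d k) (T := T) hθ]
      ring

/-- the linear part of the cubic polynomial has a factor of degree `ℓ ≥ 2` -/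
theorem bound_of_pole (hFed : StmtFedder.{u}) (hPole : StmtPole.{u}) (hKer : StmtKer.{u})
    (hF : FFin k p) (hMM : MM d k T) (hd : 3 ≤ d)
    (S : Cubic (PS d k) T) (θ : L) (hθ : IsTheta S θ)
    (ha : S.a ∈ maximalIdeal (PS d k)) (hb : S.b ∈ maximalIdeal (PS d k))
    (hc : S.c ∈ maximalIdeal (PS d k)) (hdd : S.d ∈ maximalIdeal (PS d k))
    (ℓ : ℕ) (hℓ : ℓ = 2 ∨ ℓ = 3) (G : k[X]) (g : Fin d → k[X]) (hG : G ≠ 0)
    (hGdeg : G.natDegree ≤ ℓ) (hgdeg : ∀ i, (g i).natDegree ≤ 3 - ℓ)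
    (hlin : ∀ i, linPoly S i = G * g i) (hspan : Ideal.span (Set.range g) = ⊤)
    (hcoeff : ∃ i, (g i).coeff (3 - ℓ) ≠ 0)
    (e N : ℕ) (hs : HasSplit T (p ^ e) N) : 2 * N ≤ (2 * d - 3) * (p ^ e - 1) := by
  have : UniqueFactorizationMonoid (PS d k) := stmtUFD k d
  obtain ⟨hprime, hker⟩ := hKer (PS d k) T L S θ hθ
  obtain ⟨r, hr0, hr, hbd⟩ := hFed p d k T L hF hMM S θ hθ ha hb hc hdd e N hs
  obtain ⟨n, hn, hord⟩ := hPole d k T L (by omega) S θ hθ hprime hker ha hb hc hdd ℓ hℓ G g hG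
    hGdeg hgdeg hlin hspan hcoeff r hr0 (p ^ e - 1) (by simpa using hr 0 (Nat.zero_le _))
    (hr _ le_rfl)
  have h1 := hbd 1 n (by
    intro i
    rw [pow_one]
    simp only [Cubic.F, coeff_add, coeff_C, coeff_C_mul, coeff_X, coeff_X_pow]
    refine Ideal.add_mem _ (Ideal.add_mem _ (Ideal.add_mem _ ?_ ?_) ?_) ?_
    · split_ifs <;> simp [ha]
    · exact Ideal.mul_mem_right _ _ hb
    · exact Ideal.mul_mem_right _ _ hc
    · exact Ideal.mul_mem_right _ _ hdd) hord
  have h3 : 2 * (d * (p ^ e - 1)) = 3 * (p ^ e - 1) + (2 * d - 3) * (p ^ e - 1) := by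
    rw [← add_mul, ← mul_assoc]
    congr 1
    omega
  omega

omit [Infinite k] [CharP k p] [IsDomain T] [IsLocalRing T] [IsNoetherianRing T]
  [IsIntegrallyClosed T] [Module.Finite (PS d k) T] [Module.Free (PS d k) T] in
theorem linPoly_toCubic {a b c e : PS d k} {X' Y' : T} (h : Tab (PS d k) T a b c e X' Y')
    (i : Fin d) : linPoly h.toCubic i =
      C (lin e i) + C (lin c i) * X + C (lin b i) * X ^ 2 + C (lin a i) * X ^ 3 := rfl

omit [Infinite k] in
theorem lin_of_sub_mem {a x : PS d k} {g : k} (h : a - MvPowerSeries.C g * x ∈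
    maximalIdeal (PS d k) ^ 2) (i : Fin d) : lin a i = g * lin x i := by
  have h1 := ((mem_sq_iff _).1 h).2 i
  have h2 : lin a i = lin (a - MvPowerSeries.C g * x) i + lin (MvPowerSeries.C g * x) i := by
    rw [← lin_add]
    congr 1
    ring
  rw [h2, h1, zero_add, lin_C_mul]

theorem isTheta_toCubic {a b c e : PS d k} {X' Y' : T} (h : Tab (PS d k) T a b c e X' Y')
    {θ : L} (hθ : algebraMap (PS d k) L a * θ = algebraMap T L X') : IsTheta h.toCubic θ := by
  have ha : a ≠ 0 := h.a_ne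
  have hinj : Function.Injective (algebraMap (PS d k) L) := by
    rw [IsScalarTower.algebraMap_eq (PS d k) T L]
    exact (IsFractionRing.injective T L).comp h.inj
  have haL : algebraMap (PS d k) L a ≠ 0 := fun h0 => ha (hinj (by rw [h0, map_zero]))
  change θ * algebraMap T L (-Y') = algebraMap T L (algebraMap (PS d k) T e)
  apply mul_left_cancel₀ haL
  have h1 := congrArg (algebraMap T L) h.XY
  rw [map_mul, map_neg, map_mul, map_mul, ← IsScalarTower.algebraMap_apply (PS d k) T L,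
    ← IsScalarTower.algebraMap_apply (PS d k) T L, ← hθ] at h1
  rw [map_neg, ← IsScalarTower.algebraMap_apply (PS d k) T L]
  linear_combination -h1

/-- (P3) -/
theorem bound_of_P3 (hFed : StmtFedder.{u}) (hPole : StmtPole.{u}) (hKer : StmtKer.{u})
    (hF : FFin k p) (hMM : MM d k T) (hd : 3 ≤ d)
    {a b c e' : PS d k} {X' Y' : T} (h : Tab (PS d k) T a b c e' X' Y')
    (ha : a ∈ maximalIdeal (PS d k)) (hb : b ∈ maximalIdeal (PS d k))
    (hc : c ∈ maximalIdeal (PS d k)) (he : e' ∈ maximalIdeal (PS d k))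
    (θ : L) (hθ : algebraMap (PS d k) L a * θ = algebraMap T L X')
    (x : PS d k) (g₃ g₂ g₁ g₀ : k) (hx : x ∈ maximalIdeal (PS d k))
    (hx2 : x ∉ maximalIdeal (PS d k) ^ 2) (hg : ¬ (g₃ = 0 ∧ g₂ = 0 ∧ g₁ = 0 ∧ g₀ = 0))
    (h3 : a - MvPowerSeries.C g₃ * x ∈ maximalIdeal (PS d k) ^ 2)
    (h2 : b - MvPowerSeries.C g₂ * x ∈ maximalIdeal (PS d k) ^ 2)
    (h1 : c - MvPowerSeries.C g₁ * x ∈ maximalIdeal (PS d k) ^ 2)
    (h0 : e' - MvPowerSeries.C g₀ * x ∈ maximalIdeal (PS d k) ^ 2)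
    (e N : ℕ) (hs : HasSplit T (p ^ e) N) : 2 * N ≤ (2 * d - 3) * (p ^ e - 1) := by
  obtain ⟨i₀, hi₀⟩ : ∃ i, lin x i ≠ 0 := by
    by_contra hcon
    push Not at hcon
    exact hx2 ((mem_sq_iff x).2 ⟨(mem_max_iff x).1 hx, hcon⟩)
  refine bound_of_pole hFed hPole hKer hF hMM hd h.toCubic θ (isTheta_toCubic h hθ) he hc hb ha 3
    (Or.inr rfl) (C g₀ + C g₁ * X + C g₂ * X ^ 2 + C g₃ * X ^ 3) (fun i => C (lin x i)) ?_ ?_ ?_ ?_
    ?_ ?_ e N hs
  · intro hG
    have e3 := congrArg (fun P => coeff P 3) hG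
    have e2 := congrArg (fun P => coeff P 2) hG
    have e1 := congrArg (fun P => coeff P 1) hG
    have e0 := congrArg (fun P => coeff P 0) hG
    simp [coeff_X, coeff_C] at e3 e2 e1 e0
    exact hg ⟨e3, e2, e1, e0⟩
  · compute_degree
  · intro i
    simp
  · intro i
    rw [linPoly_toCubic, lin_of_sub_mem h3, lin_of_sub_mem h2, lin_of_sub_mem h1,
      lin_of_sub_mem h0]
    simp only [C_mul]
    ring
  · rw [Ideal.eq_top_iff_one]
    have hm : C (lin x i₀) ∈ Ideal.span (Set.range fun i => C (lin x i)) :=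
      Ideal.subset_span ⟨i₀, rfl⟩
    have := Ideal.mul_mem_left _ (C (lin x i₀)⁻¹) hm
    rwa [← C_mul, inv_mul_cancel₀ hi₀, C_1] at this
  · exact ⟨i₀, by simpa using hi₀⟩

omit [Infinite k] in
theorem LinInd.exists_minor {a e : PS d k} (h : LinInd a e) (ha : a ∈ maximalIdeal (PS d k))
    (he : e ∈ maximalIdeal (PS d k)) :
    ∃ i j : Fin d, lin a i ≠ 0 ∧ lin a i * lin e j - lin a j * lin e i ≠ 0 := by
  have hone : (1 : PS d k) ∉ maximalIdeal (PS d k) :=
    (Ideal.ne_top_iff_one _).mp (IsLocalRing.maximalIdeal.isMaximal _).ne_top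
  obtain ⟨i, hi⟩ : ∃ i, lin a i ≠ 0 := by
    by_contra hcon
    push Not at hcon
    have := h 1 0 (by
      rw [one_mul, zero_mul, add_zero]
      exact (mem_sq_iff a).2 ⟨(mem_max_iff a).1 ha, hcon⟩)
    exact hone this.1
  refine ⟨i, ?_⟩
  by_contra hcon
  push Not at hcon
  have := h (MvPowerSeries.C (- lin e i)) (MvPowerSeries.C (lin a i)) (by
    rw [mem_sq_iff]
    refine ⟨by simp [(mem_max_iff a).1 ha, (mem_max_iff e).1 he], fun j => ?_⟩
    rw [lin_add, lin_C_mul, lin_C_mul]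
    linear_combination hcon j hi)
  have h2 := (mem_max_iff _).1 this.2
  rw [MvPowerSeries.constantCoeff_C] at h2
  exact hi h2

/-- (P2) -/
theorem bound_of_P2 (hFed : StmtFedder.{u}) (hPole : StmtPole.{u}) (hKer : StmtKer.{u})
    (hF : FFin k p) (hMM : MM d k T) (hd : 3 ≤ d)
    {a b c e' : PS d k} {X' Y' : T} (h : Tab (PS d k) T a b c e' X' Y')
    (ha : a ∈ maximalIdeal (PS d k)) (hb : b ∈ maximalIdeal (PS d k))
    (hc : c ∈ maximalIdeal (PS d k)) (he : e' ∈ maximalIdeal (PS d k))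
    (θ : L) (hθ : algebraMap (PS d k) L a * θ = algebraMap T L X')
    (hind : LinInd a e') (g₁ g₀ γ : k) (hγ : γ * g₀ = 1)
    (h2 : b - MvPowerSeries.C g₁ * a - MvPowerSeries.C γ * e' ∈ maximalIdeal (PS d k) ^ 2)
    (h1 : c - MvPowerSeries.C g₀ * a - MvPowerSeries.C (γ * g₁) * e' ∈ maximalIdeal (PS d k) ^ 2)
    (e N : ℕ) (hs : HasSplit T (p ^ e) N) : 2 * N ≤ (2 * d - 3) * (p ^ e - 1) := by
  obtain ⟨i₀, j₀, hi₀, hij⟩ := hind.exists_minor ha he
  have hγ0 : γ ≠ 0 := by
    rintro rfl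
    simp at hγ
  have hb' : ∀ i, lin b i = g₁ * lin a i + γ * lin e' i := by
    intro i
    have e1 := ((mem_sq_iff _).1 h2).2 i
    have e2 : lin b i = lin (b - MvPowerSeries.C g₁ * a - MvPowerSeries.C γ * e') i +
        (g₁ * lin a i + γ * lin e' i) := by
      rw [← lin_C_mul, ← lin_C_mul, ← lin_add, ← lin_add]
      congr 1
      ring
    rw [e2, e1, zero_add]
  have hc' : ∀ i, lin c i = g₀ * lin a i + γ * g₁ * lin e' i := by
    intro i
    have e1 := ((mem_sq_iff _).1 h1).2 i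
    have e2 : lin c i = lin (c - MvPowerSeries.C g₀ * a - MvPowerSeries.C (γ * g₁) * e') i +
        (g₀ * lin a i + γ * g₁ * lin e' i) := by
      rw [← lin_C_mul, ← lin_C_mul, ← lin_add, ← lin_add]
      congr 1
      ring
    rw [e2, e1, zero_add]
  refine bound_of_pole hFed hPole hKer hF hMM hd h.toCubic θ (isTheta_toCubic h hθ) he hc hb ha 2
    (Or.inl rfl) (C g₀ + C g₁ * X + X ^ 2) (fun i => C (lin a i) * X + C (γ * lin e' i)) ?_ ?_ ?_ ?_
    ?_ ?_ e N hs
  · intro hG
    have e2 := congrArg (fun P => coeff P 2) hG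
    simp [coeff_X, coeff_C] at e2
  · compute_degree
  · intro i
    compute_degree
  · intro i
    rw [linPoly_toCubic, hb', hc']
    have e1 : (C γ * C g₀ : k[X]) = 1 := by rw [← C_mul, hγ, C_1]
    simp only [C_mul, C_add]
    linear_combination (-C (lin e' i)) * e1
  · rw [Ideal.eq_top_iff_one]
    have hmem : ∀ i, C (lin a i) * X + C (γ * lin e' i) ∈
        Ideal.span (Set.range fun i => C (lin a i) * X + C (γ * lin e' i)) := fun i =>
      Ideal.subset_span ⟨i, rfl⟩
    have h3 := Ideal.sub_mem _ (Ideal.mul_mem_left _ (C (lin a i₀)) (hmem j₀))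
      (Ideal.mul_mem_left _ (C (lin a j₀)) (hmem i₀))
    have h4 := Ideal.mul_mem_left _
      (C (γ * (lin a i₀ * lin e' j₀ - lin a j₀ * lin e' i₀))⁻¹) h3
    convert h4 using 1
    have h5 : (C (lin a i₀) * (C (lin a j₀) * X + C (γ * lin e' j₀)) -
        C (lin a j₀) * (C (lin a i₀) * X + C (γ * lin e' i₀)) : k[X]) =
        C (γ * (lin a i₀ * lin e' j₀ - lin a j₀ * lin e' i₀)) := by
      simp only [C_mul, C_sub]
      ring
    rw [h5, ← C_mul, inv_mul_cancel₀ (mul_ne_zero hγ0 hij), C_1]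
  · refine ⟨i₀, ?_⟩
    simpa using hi₀

end bound

section uniq

/-- two dual submodules differ by a scalar -/
theorem isDual_scale {A T L : Type*} [CommRing A] [CommRing T] [IsDomain T] [Algebra A T] [Field L]
    [Algebra T L] [IsFractionRing T L] (W W' : Submodule T L) (hW : IsDual A T W)
    (hW' : IsDual A T W') (h0 : W ≠ ⊥) :
    ∃ c : L, c ≠ 0 ∧ ∀ x, x ∈ W' ↔ ∃ w ∈ W, x = c * w := by
  obtain ⟨ε, hε⟩ := hW
  obtain ⟨ε', hε'⟩ := hW'
  -- the isomorphism
  let f : W ≃+ W' := ε.trans ε'.symm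
  have hf : ∀ (t : T) (w : W), f (t • w) = t • f w := by
    intro t w
    apply ε'.injective
    ext x
    rw [hε' t (f w) x]
    change ε' (ε'.symm (ε (t • w))) x = ε' (ε'.symm (ε w)) (t * x)
    rw [AddEquiv.apply_symm_apply, AddEquiv.apply_symm_apply, hε]
  obtain ⟨w₀, hw₀, hw₀0⟩ := Submodule.exists_mem_ne_zero_of_ne_bot h0
  set c : L := (f ⟨w₀, hw₀⟩ : L) / w₀ with hc
  have hfc : ∀ w : W, (f w : L) = c * w := by
    intro w
    obtain ⟨t, s, hs, hts⟩ := IsFractionRing.div_surjective (A := T) ((w : L) / w₀)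
    have hsL : algebraMap T L s ≠ 0 := by
      intro h
      exact nonZeroDivisors.ne_zero hs (IsFractionRing.injective T L (by rw [h, map_zero]))
    have h1 : s • w = t • (⟨w₀, hw₀⟩ : W) := by
      apply Subtype.ext
      simp only [Submodule.coe_smul, Algebra.smul_def]
      field_simp at hts
      linear_combination -hts
    have h2 := congrArg f h1
    rw [hf, hf] at h2
    have h3 := congrArg (Subtype.val) h2
    simp only [Submodule.coe_smul, Algebra.smul_def] at h3
    apply mul_left_cancel₀ hsL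
    rw [h3, hc]
    field_simp at hts ⊢
    linear_combination (f ⟨w₀, hw₀⟩ : L) * hts
  have hc0 : c ≠ 0 := by
    intro h
    have h1 := hfc ⟨w₀, hw₀⟩
    rw [h, zero_mul] at h1
    have h2 : f ⟨w₀, hw₀⟩ = 0 := Subtype.ext h1
    have h3 := f.injective (h2.trans (map_zero f).symm)
    exact hw₀0 (congrArg Subtype.val h3)
  refine ⟨c, hc0, fun x => ⟨fun hx => ?_, ?_⟩⟩
  · refine ⟨f.symm ⟨x, hx⟩, Subtype.mem _, ?_⟩
    rw [← hfc, AddEquiv.apply_symm_apply]
  · rintro ⟨w, hw, rfl⟩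
    have := hfc ⟨w, hw⟩
    rw [← this]
    exact Subtype.mem _

theorem prinPow_of_isDual {A T L : Type*} [CommRing A] [CommRing T] [IsDomain T] [Algebra A T]
    [Field L] [Algebra T L] [IsFractionRing T L] (W W' : Submodule T L) (hW : IsDual A T W)
    (hW' : IsDual A T W') (h0 : W ≠ ⊥) {n : ℕ} (h : PrinPow W n) : PrinPow W' n := by
  obtain ⟨c, hc, hcW⟩ := isDual_scale W W' hW hW' h0
  exact prinPow_scale hc hcW h

end uniq

section main

variable {p : ℕ} [Fact p.Prime] {d : ℕ} {k T : Type u} [Field k] [Infinite k]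
    [CharP k p] [CommRing T] [IsDomain T] [IsLocalRing T] [IsNoetherianRing T] [IsIntegrallyClosed T]
    [Algebra (PS d k) T] [Module.Finite (PS d k) T] [Module.Free (PS d k) T]

omit [Infinite k] [CharP k p] [IsNoetherianRing T] [IsIntegrallyClosed T]
  [Module.Finite (PS d k) T] [Module.Free (PS d k) T] in
theorem tab_mem_maximalIdeal (hMM : MM d k T) {a b c e' : PS d k} {X' Y' : T}
    (h : Tab (PS d k) T a b c e' X' Y')
    (ha : a ∈ maximalIdeal (PS d k)) (hb : b ∈ maximalIdeal (PS d k))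
    (hc : c ∈ maximalIdeal (PS d k)) (he : e' ∈ maximalIdeal (PS d k)) :
    X' ∈ maximalIdeal T ∧ Y' ∈ maximalIdeal T := by
  have hmap : ∀ x ∈ maximalIdeal (PS d k), algebraMap (PS d k) T x ∈ maximalIdeal T := fun x hx =>
    hMM.loc (Ideal.mem_map_of_mem _ hx)
  constructor
  · have h1 : X' * X' ∈ maximalIdeal T := by
      rw [h.XX, Algebra.smul_def, Algebra.smul_def]
      exact Ideal.add_mem _ (Ideal.sub_mem _ (neg_mem (hmap _ (Ideal.mul_mem_right _ _ ha)))
        (Ideal.mul_mem_right _ _ (hmap _ hb))) (Ideal.mul_mem_right _ _ (hmap _ ha))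
    rcases (IsLocalRing.maximalIdeal.isMaximal T).isPrime.mem_or_mem h1 with h2 | h2 <;> exact h2
  · have h1 : Y' * Y' ∈ maximalIdeal T := by
      rw [h.YY, Algebra.smul_def, Algebra.smul_def]
      exact Ideal.add_mem _ (Ideal.sub_mem _ (neg_mem (hmap _ (Ideal.mul_mem_right _ _ hb)))
        (Ideal.mul_mem_right _ _ (hmap _ he))) (Ideal.mul_mem_right _ _ (hmap _ hc))
    rcases (IsLocalRing.maximalIdeal.isMaximal T).isPrime.mem_or_mem h1 with h2 | h2 <;> exact h2

/-- **E8**: in rank three either the canonical class is torsion or the splitting exponents are bounded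
by `d - 3/2`. -/
theorem rank_three_dichotomy' (hCubic : StmtCubic.{u}) (hFed : StmtFedder.{u})
    (hPole : StmtPole.{u}) (hKer : StmtKer.{u}) (hPhi : StmtPhi.{u}) (hOmega : StmtOmega3.{u})
    (hd : 3 ≤ d) (hF : FFin k p) (hMM : MM d k T) (hrank : Module.finrank (PS d k) T = 3)
    (L : Type u) [Field L] [Algebra T L] [IsFractionRing T L] :
    (∀ W : Submodule T L, IsDual (PS d k) T W → ∃ m, 1 ≤ m ∧ PrinPow W m) ∨
    (∀ e N, HasSplit T (p ^ e) N → 2 * N ≤ (2 * d - 3) * (p ^ e - 1) + 1) := by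
  classical
  obtain ⟨S, -, -, hSa, hSb, hSc, hSd⟩ := hCubic d k T hMM hrank
  letI algAL : Algebra (PS d k) L := ((algebraMap T L).comp (algebraMap (PS d k) T)).toAlgebra
  have towAL : IsScalarTower (PS d k) T L := IsScalarTower.of_algebraMap_eq fun _ => rfl
  have hinj : Function.Injective (algebraMap (PS d k) L) := by
    rw [IsScalarTower.algebraMap_eq (PS d k) T L]
    exact (IsFractionRing.injective T L).comp S.algebraMap_injective
  have : FaithfulSMul (PS d k) L := (faithfulSMul_iff_algebraMap_injective (PS d k) L).mpr hinj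
  letI algKL : Algebra (FractionRing (PS d k)) L := FractionRing.liftAlgebra (PS d k) L
  have towKL : IsScalarTower (PS d k) (FractionRing (PS d k)) L :=
    FractionRing.isScalarTower_liftAlgebra (PS d k) L
  -- the value of theta for a table
  have hθex : ∀ {a b c e' : PS d k} {X' Y' : T}, Tab (PS d k) T a b c e' X' Y' →
      ∃ θ : L, algebraMap (PS d k) L a * θ = algebraMap T L X' := by
    intro a b c e' X' Y' h
    have haL : algebraMap (PS d k) L a ≠ 0 := fun h0 => h.a_ne (hinj (by rw [h0, map_zero]))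
    exact ⟨algebraMap T L X' / algebraMap (PS d k) L a, mul_div_cancel₀ _ haL⟩
  have htab := S.toTab
  by_cases hline : OnLine S.d S.c S.b S.a
  · right
    intro e N hs
    obtain ⟨θ, hθ⟩ := hθex htab
    rcases onLine_cases hline hSd hSc hSb hSa with ⟨h3, h2, h1, h0⟩ |
      ⟨x, g₃, g₂, g₁, g₀, hx, hx2, hg, h3, h2, h1, h0⟩
    · exact (bound_of_sq hFed hF hMM hd htab.toCubic θ (isTheta_toCubic htab hθ) h0 h1 h2 h3 e N
        hs).trans (Nat.le_succ _)
    · exact (bound_of_P3 hFed hPole hKer hF hMM hd htab hSd hSc hSb hSa θ hθ x g₃ g₂ g₁ g₀ hx hx2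
        hg h3 h2 h1 h0 e N hs).trans (Nat.le_succ _)
  · obtain ⟨a, b, c, e', X', Y', h, ha, hb, hc, he, hind⟩ := split htab hSd hSc hSb hSa hline
    obtain ⟨θ, hθ⟩ := hθex h
    by_cases hbase : ∀ b₁ b₂ c₁ c₂ : PS d k, b = b₁ * a + b₂ * e' → c = c₁ * a + c₂ * e' →
      ∀ G : (ResidueField (PS d k))[X],
        G ∣ (X ^ 3 + C b₁ * X ^ 2 + C c₁ * X : (PS d k)[X]).map (residue (PS d k)) →
        G ∣ (C b₂ * X ^ 2 + C c₂ * X + 1 : (PS d k)[X]).map (residue (PS d k)) →
        G.natDegree ≤ 1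
    · by_cases hQ : ∃ n, 1 ≤ n ∧ ColonPrincipal (PS d k) θ n
      · -- torsion
        left
        obtain ⟨n, hn, hn'⟩ := hQ
        intro W hW
        have h1 : PrinPow (Submodule.span T {1, θ} : Submodule T L) n :=
          prinPow_of_colonPrincipal (A := PS d k) hn'
        have h2 : IsDual (PS d k) T (Submodule.span T {1, θ} : Submodule T L) :=
          hOmega (PS d k) T L h.toCubic θ (isTheta_toCubic h hθ)
        refine ⟨n, hn, prinPow_of_isDual _ W h2 hW ?_ h1⟩
        intro hbot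
        have h3 : (1 : L) ∈ (Submodule.span T {1, θ} : Submodule T L) :=
          Submodule.subset_span (Set.mem_insert _ _)
        rw [hbot, Submodule.mem_bot] at h3
        exact one_ne_zero h3
      · right
        intro e N hs
        by_contra hcon
        push Not at hcon
        obtain ⟨hX, hY⟩ := tab_mem_maximalIdeal hMM h ha hb hc he
        have hone : (1 : PS d k) ∉ maximalIdeal (PS d k) :=
          (Ideal.ne_top_iff_one _).mp (IsLocalRing.maximalIdeal.isMaximal _).ne_top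
        have ha2 : a ∉ maximalIdeal (PS d k) ^ 2 := by
          intro h0
          exact hone (hind 1 0 (by rw [one_mul, zero_mul, add_zero]; exact h0)).1
        obtain ⟨G, -⟩ := hPhi p d k hF e
        obtain ⟨hcd, D, algAD, tow1, frac, icl, hord, r, hr0, hr, hz⟩ :=
          Pool.Agent.NB.cubic_split (K := FractionRing (PS d k)) (L := L) (by omega : 2 ≤ d) hMM h
            hX hY ha ha2 hb hc he hθ G hs (by omega)
        obtain ⟨hreg, hreg'⟩ := regPair_of_ind (by omega : 2 ≤ d) ha he hind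
        have hufd : UniqueFactorizationMonoid (PS d k) := stmtUFD k d
        rcases e3_final' hreg hreg' ha he hind hb hc hord hcd hbase r hr0 (p ^ e - 1) hr _ hz with
          h1 | h1
        · have h2 : (2 * d - 3) * (p ^ e - 1) + 3 * (p ^ e - 1) = 2 * (d * (p ^ e - 1)) := by
            rw [← add_mul, ← mul_assoc]
            congr 1
            omega
          have h3 : (d - 1) * (p ^ e - 1) + (p ^ e - 1) = d * (p ^ e - 1) := by
            conv_lhs => rw [← one_mul (p ^ e - 1), ← mul_assoc, ← add_mul]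
            rw [mul_one]
            congr 1
            omega
          omega
        · exact hQ h1
    · right
      intro e N hs
      obtain ⟨g₁, g₀, γ, hγ, h2, h1⟩ := base_fail ha he hbase
      exact (bound_of_P2 hFed hPole hKer hF hMM hd h ha hb hc he θ hθ hind g₁ g₀ γ hγ h2 h1 e N
        hs).trans (Nat.le_succ _)

end main

end Pool.Agent.WFT
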