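import Pool.Agent.WFT.E8
import Pool.Agent.Lib_helper84.Cub.WFTStmts
import Pool.Agent.Lib_helper77.FB.Pole

/-!
# MP_7dd379_ag, E8: the dichotomy in rank three, all hypotheses discharged
-/

namespace Pool.Agent.WFT

open Polynomial IsLocalRing

universe u

/-- **E8**: in rank three either the canonical class is torsion or the splitting exponents are bounded
by `d - 3/2`. -/
theorem rank_three_dichotomy (p : ℕ) [Fact p.Prime] (d : ℕ) (hd : 3 ≤ d) (k T L : Type u) [Field k]
    [Infinite k] [CharP k p]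
    [CommRing T] [IsDomain T] [IsLocalRing T] [IsNoetherianRing T] [IsIntegrallyClosed T]
    [Algebra (PS d k) T] [Module.Finite (PS d k) T] [Module.Free (PS d k) T]
    [Field L] [Algebra T L] [IsFractionRing T L]
    (hF : FFin k p) (hMM : MM d k T) (hrank : Module.finrank (PS d k) T = 3) :
    (∀ W : Submodule T L, IsDual (PS d k) T W → ∃ m : ℕ, 1 ≤ m ∧ PrinPow W m) ∨
    (∀ e N : ℕ, HasSplit T (p ^ e) N → 2 * N ≤ (2 * d - 3) * (p ^ e - 1) + 1) :=
  rank_three_dichotomy' stmtCubic stmtFedder Pool.Agent.Lib_helper77.FB.stmtPole stmtKer stmtPhi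
    stmtOmega3 hd hF hMM hrank L

end Pool.Agent.WFT
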