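import Mathlib

/-! Nonzero functionals on finite faithful algebras over a domain. -/

namespace Pool.Agent.WFT

theorem exists_functional (A T : Type*) [CommRing A] [IsDomain A] [CommRing T] [Algebra A T]
    [Module.Finite A T] (hinj : Function.Injective (algebraMap A T)) :
    ∃ lam : T →ₗ[A] A, lam 1 ≠ 0 := by
  classical
  let K := FractionRing A
  let V := LocalizedModule (nonZeroDivisors A) T
  have hv : LocalizedModule.mk (1 : T) (1 : nonZeroDivisors A) ≠ (0 : V) := by
    intro h0
    rw [← LocalizedModule.zero_mk (1 : nonZeroDivisors A), LocalizedModule.mk_eq] at h0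
    obtain ⟨s, hs⟩ := h0
    have h1 : algebraMap A T (s : A) = 0 := by
      rw [Algebra.algebraMap_eq_smul_one]
      simp only [smul_zero, one_smul] at hs
      exact hs
    have h2 : (s : A) = 0 := hinj (by rw [h1, map_zero])
    exact nonZeroDivisors.ne_zero s.2 h2
  obtain ⟨f, hf⟩ : ∃ f : Module.Dual K V, f (LocalizedModule.mk (1 : T) 1) ≠ 0 := by
    by_contra hcon
    push Not at hcon
    exact hv ((Module.forall_dual_apply_eq_zero_iff K _).1 hcon)
  let g : T →ₗ[A] K := (f.restrictScalars A).comp (LocalizedModule.mkLinearMap (nonZeroDivisors A) T)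
  obtain ⟨n, t, ht⟩ := Module.Finite.exists_fin (R := A) (M := T)
  obtain ⟨b, hb⟩ := IsLocalization.exist_integer_multiples (nonZeroDivisors A) Finset.univ
    (fun i => g (t i))
  have hint : ∀ x : T, (b : A) • g x ∈ LinearMap.range (Algebra.linearMap A K) := by
    intro x
    have hx : x ∈ Submodule.span A (Set.range t) := by rw [ht]; trivial
    induction hx using Submodule.span_induction with
    | mem y hy =>
      obtain ⟨i, rfl⟩ := hy
      obtain ⟨a, ha⟩ := hb i (Finset.mem_univ i)
      exact ⟨a, ha⟩
    | zero => rw [map_zero, smul_zero]; exact Submodule.zero_mem _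
    | add y z _ _ hy hz => rw [map_add, smul_add]; exact Submodule.add_mem _ hy hz
    | smul a y _ hy => rw [map_smul, smul_comm]; exact Submodule.smul_mem _ _ hy
  have hinjK : Function.Injective (Algebra.linearMap A K) := IsFractionRing.injective A K
  let e := LinearEquiv.ofInjective (Algebra.linearMap A K) hinjK
  let g' : T →ₗ[A] LinearMap.range (Algebra.linearMap A K) :=
    ((b : A) • g).codRestrict _ hint
  refine ⟨e.symm.toLinearMap.comp g', ?_⟩
  intro h0
  have h1 : g' 1 = 0 := by
    have : e.symm (g' 1) = 0 := h0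
    exact (LinearEquiv.map_eq_zero_iff _).1 this
  have h2 : (b : A) • g 1 = 0 := congrArg Subtype.val h1
  rw [smul_eq_zero] at h2
  rcases h2 with h2 | h2
  · exact nonZeroDivisors.ne_zero b.2 h2
  · exact hf h2

end Pool.Agent.WFT
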