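import Pool.Agent.WFT.Stmts

/-! MP_7dd379_ag, module GL2 (helper66): change of variables in the cubic table so that the two outer
coefficients have linearly independent linear parts. -/

namespace Pool.Agent.WFT

universe u

open IsLocalRing Polynomial

set_option linter.unusedSimpArgs false

namespace Cubic

variable {A T : Type*} [CommRing A] [CommRing T] [Algebra A T]

/-- translation `θ ↦ θ - p` -/
noncomputable def translate (S : Cubic A T) (p : A) : Cubic A T where
  α := S.α + p • S.β - algebraMap A T (S.c * p + S.d * p ^ 2)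
  β := S.β + algebraMap A T (S.d * p)
  a := S.a + S.b * p + S.c * p ^ 2 + S.d * p ^ 3
  b := S.b + 2 * S.c * p + 3 * S.d * p ^ 2
  c := S.c + 3 * S.d * p
  d := S.d
  repr := by
    intro t
    obtain ⟨x, hx⟩ := S.repr t
    refine ⟨![x 0 + x 1 * (S.c * p + 2 * S.d * p ^ 2) - x 2 * (S.d * p), x 1, x 2 - p * x 1], ?_⟩
    rw [hx]
    simp only [Matrix.cons_val_zero, Matrix.cons_val_one, Matrix.cons_val, Algebra.smul_def,
      map_add, map_sub, map_mul, map_pow, map_ofNat]
    ring
  indep := by
    intro y hy
    have h := S.indep ![y 0 - y 1 * (S.c * p + S.d * p ^ 2) + y 2 * (S.d * p), y 1,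
      y 2 + p * y 1] (by
        rw [← hy]
        simp only [Matrix.cons_val_zero, Matrix.cons_val_one, Matrix.cons_val, Algebra.smul_def,
          map_add, map_sub, map_mul, map_pow, map_ofNat]
        ring)
    have h0 := congrFun h 0
    have h1 := congrFun h 1
    have h2 := congrFun h 2
    simp only [Matrix.cons_val_zero, Matrix.cons_val_one, Matrix.cons_val, Pi.zero_apply] at h0 h1 h2
    rw [h1, mul_zero, add_zero] at h2
    rw [h1, h2, zero_mul, zero_mul, sub_zero, add_zero] at h0
    funext i
    fin_cases i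
    · exact h0
    · exact h1
    · exact h2
  αα := by
    have h1 := S.αα
    have h2 := S.αβ
    have h3 := S.ββ
    simp only [Algebra.smul_def, map_add, map_sub, map_mul, map_pow, map_ofNat, map_neg] at *
    linear_combination h1 + 2 * algebraMap A T p * h2 + algebraMap A T p ^ 2 * h3
  αβ := by
    have h1 := S.αα
    have h2 := S.αβ
    have h3 := S.ββ
    simp only [Algebra.smul_def, map_add, map_sub, map_mul, map_pow, map_ofNat, map_neg] at *
    linear_combination h2 + algebraMap A T p * h3
  ββ := by
    have h1 := S.αα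
    have h2 := S.αβ
    have h3 := S.ββ
    simp only [Algebra.smul_def, map_add, map_sub, map_mul, map_pow, map_ofNat, map_neg] at *
    linear_combination h3

/-- swap `θ ↦ 1 / θ` -/
noncomputable def swap (S : Cubic A T) : Cubic A T where
  α := - S.β
  β := - S.α
  a := S.d
  b := S.c
  c := S.b
  d := S.a
  repr := by
    intro t
    obtain ⟨x, hx⟩ := S.repr t
    refine ⟨![x 0, - x 2, - x 1], ?_⟩
    rw [hx]
    simp only [Matrix.cons_val_zero, Matrix.cons_val_one, Matrix.cons_val, Algebra.smul_def,
      map_neg]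
    ring
  indep := by
    intro y hy
    have h := S.indep ![y 0, - y 2, - y 1] (by
        rw [← hy]
        simp only [Matrix.cons_val_zero, Matrix.cons_val_one, Matrix.cons_val, Algebra.smul_def,
          map_neg]
        ring)
    have h0 := congrFun h 0
    have h1 := congrFun h 1
    have h2 := congrFun h 2
    simp only [Matrix.cons_val_zero, Matrix.cons_val_one, Matrix.cons_val, Pi.zero_apply,
      neg_eq_zero] at h0 h1 h2
    funext i
    fin_cases i
    · exact h0
    · exact h2
    · exact h1
  αα := by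
    have h3 := S.ββ
    simp only [Algebra.smul_def, map_add, map_sub, map_mul, map_pow, map_ofNat, map_neg] at *
    linear_combination h3
  αβ := by
    have h2 := S.αβ
    simp only [Algebra.smul_def, map_add, map_sub, map_mul, map_pow, map_ofNat, map_neg] at *
    linear_combination h2
  ββ := by
    have h1 := S.αα
    simp only [Algebra.smul_def, map_add, map_sub, map_mul, map_pow, map_ofNat, map_neg] at *
    linear_combination h1

/-- all data in the maximal ideals -/
structure InMax [IsLocalRing A] [IsLocalRing T] (S : Cubic A T) : Prop where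
  a : S.a ∈ maximalIdeal A
  b : S.b ∈ maximalIdeal A
  c : S.c ∈ maximalIdeal A
  d : S.d ∈ maximalIdeal A
  α : S.α ∈ maximalIdeal T
  β : S.β ∈ maximalIdeal T

lemma InMax.translate [IsLocalRing A] [IsLocalRing T]
    (hloc : (maximalIdeal A).map (algebraMap A T) ≤ maximalIdeal T) {S : Cubic A T}
    (h : S.InMax) (p : A) : (S.translate p).InMax := by
  refine ⟨?_, ?_, ?_, ?_, ?_, ?_⟩
  · exact add_mem (add_mem (add_mem h.a (Ideal.mul_mem_right _ _ h.b))
      (Ideal.mul_mem_right _ _ h.c)) (Ideal.mul_mem_right _ _ h.d)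
  · exact add_mem (add_mem h.b (Ideal.mul_mem_right _ _ (Ideal.mul_mem_left _ _ h.c)))
      (Ideal.mul_mem_right _ _ (Ideal.mul_mem_left _ _ h.d))
  · exact add_mem h.c (Ideal.mul_mem_right _ _ (Ideal.mul_mem_left _ _ h.d))
  · exact h.d
  · refine sub_mem (add_mem h.α ?_) (hloc (Ideal.mem_map_of_mem _ ?_))
    · rw [Algebra.smul_def]; exact Ideal.mul_mem_left _ _ h.β
    · exact add_mem (Ideal.mul_mem_right _ _ h.c) (Ideal.mul_mem_right _ _ h.d)
  · exact add_mem h.β (hloc (Ideal.mem_map_of_mem _ (Ideal.mul_mem_right _ _ h.d)))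

lemma InMax.swap [IsLocalRing A] [IsLocalRing T] {S : Cubic A T}
    (h : S.InMax) : S.swap.InMax :=
  ⟨h.d, h.c, h.b, h.a, neg_mem h.β, neg_mem h.α⟩

end Cubic

section lin

variable {d : ℕ} {k : Type*} [Field k]

lemma linc_mul (i : Fin d) (x y : PS d k) (hy : MvPowerSeries.constantCoeff y = 0) :
    linc i (x * y) = MvPowerSeries.constantCoeff x * linc i y := by
  classical
  unfold linc
  rw [MvPowerSeries.coeff_mul]
  rw [Finset.sum_eq_single (0, Finsupp.single i 1)]
  · simp
  · rintro ⟨a, b⟩ hab hne
    replace hab : a + b = Finsupp.single i 1 := Finset.HasAntidiagonal.mem_antidiagonal.1 hab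
    have hle : b ≤ Finsupp.single i 1 := by rw [← hab]; exact le_add_self
    have hb : b = 0 ∨ b = Finsupp.single i 1 := by
      rcases Nat.eq_zero_or_pos (b i) with h0 | h0
      · left
        ext j
        by_cases hj : j = i
        · rw [hj, h0]; rfl
        · have := hle j
          rw [Finsupp.single_eq_of_ne hj] at this
          simpa using this
      · right
        ext j
        by_cases hj : j = i
        · have := hle i
          rw [Finsupp.single_eq_same] at this
          rw [hj, Finsupp.single_eq_same]; omega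
        · have := hle j
          rw [Finsupp.single_eq_of_ne hj] at this ⊢
          simpa using this
    rcases hb with rfl | rfl
    · rw [← MvPowerSeries.coeff_zero_eq_constantCoeff_apply] at hy
      simp only
      rw [hy, mul_zero]
    · exfalso
      apply hne
      have : a = 0 := by
        have := hab
        rwa [add_eq_right] at this
      rw [this]
  · intro h
    exact absurd (by simp) h

lemma mem_max_iff (x : PS d k) :
    x ∈ maximalIdeal (PS d k) ↔ MvPowerSeries.constantCoeff x = 0 := by
  rw [mem_maximalIdeal, mem_nonunits_iff, MvPowerSeries.isUnit_iff_constantCoeff,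
    isUnit_iff_ne_zero, not_not]

lemma linc_sq (i : Fin d) (x : PS d k) (hx : x ∈ maximalIdeal (PS d k) ^ 2) : linc i x = 0 := by
  rw [pow_two] at hx
  refine Submodule.mul_induction_on hx ?_ ?_
  · intro y hy z hz
    rw [mem_max_iff] at hy hz
    rw [linc_mul i y z hz, hy, zero_mul]
  · intro y z hy hz
    unfold linc at *
    rw [map_add, hy, hz, add_zero]

lemma linc_add (i : Fin d) (x y : PS d k) : linc i (x + y) = linc i x + linc i y := by
  unfold linc; rw [map_add]

lemma linc_C_mul (i : Fin d) (c : k) (y : PS d k) :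
    linc i (MvPowerSeries.C c * y) = c * linc i y := by
  unfold linc; rw [MvPowerSeries.coeff_C_mul]

/-- independence of the linear parts gives the abstract condition. -/
lemma hind_of_linc {x y : PS d k} (hx : x ∈ maximalIdeal (PS d k))
    (hy : y ∈ maximalIdeal (PS d k))
    (h : ∀ s t : k, (∀ i, s * linc i x + t * linc i y = 0) → s = 0 ∧ t = 0) (u v : PS d k)
    (huv : u * x + v * y ∈ maximalIdeal (PS d k) ^ 2) :
    u ∈ maximalIdeal (PS d k) ∧ v ∈ maximalIdeal (PS d k) := by
  rw [mem_max_iff] at hx hy
  rw [mem_max_iff, mem_max_iff]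
  refine h _ _ fun i => ?_
  have := linc_sq i _ huv
  rwa [linc_add, linc_mul i u x hx, linc_mul i v y hy] at this

end lin

/-- GL2 -/
theorem exists_gl2 {d : ℕ} {k : Type u} {T : Type u} [Field k] [Infinite k] [CommRing T]
    [IsLocalRing T] [Algebra (PS d k) T]
    (hloc : (maximalIdeal (PS d k)).map (algebraMap (PS d k) T) ≤ maximalIdeal T)
    (S : Cubic (PS d k) T) (hS : S.InMax)
    (hrank : ¬ ∃ (c : Fin d → k) (G : k[X]), ∀ i, linPoly S i = C (c i) * G) :
    ∃ S' : Cubic (PS d k) T, S'.InMax ∧ ∀ u v : PS d k,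
      u * S'.d + v * S'.a ∈ maximalIdeal (PS d k) ^ 2 →
      u ∈ maximalIdeal (PS d k) ∧ v ∈ maximalIdeal (PS d k) := by
  classical
  -- values of the linear parts
  have hval : ∀ (i : Fin d) (p : k), linc i (S.translate (MvPowerSeries.C p)).a =
      (linPoly S i).eval p := by
    intro i p
    simp only [Cubic.translate, linPoly]
    have e : S.a + S.b * MvPowerSeries.C p + S.c * MvPowerSeries.C p ^ 2 +
        S.d * MvPowerSeries.C p ^ 3 = S.a + MvPowerSeries.C p * S.b +
        MvPowerSeries.C (p ^ 2) * S.c + MvPowerSeries.C (p ^ 3) * S.d := by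
      rw [map_pow, map_pow]; ring
    rw [e, linc_add, linc_add, linc_add, linc_C_mul, linc_C_mul, linc_C_mul]
    simp only [eval_add, eval_mul, eval_C, eval_pow, eval_X]
    ring
  -- two points with independent values
  obtain ⟨p₁, p₂, hp⟩ : ∃ p₁ p₂ : k, ∀ s t : k,
      (∀ i, s * (linPoly S i).eval p₁ + t * (linPoly S i).eval p₂ = 0) → s = 0 ∧ t = 0 := by
    by_contra hcon
    push Not at hcon
    apply hrank
    by_cases h0 : ∀ i, linPoly S i = 0
    · exact ⟨0, 0, fun i => by rw [h0 i, mul_zero]⟩
    · push Not at h0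
      obtain ⟨i₀, hi₀⟩ := h0
      obtain ⟨p₁, hp₁⟩ : ∃ p₁, (linPoly S i₀).eval p₁ ≠ 0 := by
        by_contra hall
        push Not at hall
        exact hi₀ (Polynomial.funext fun x => by rw [hall x, eval_zero])
      refine ⟨fun i => (linPoly S i).eval p₁, C ((linPoly S i₀).eval p₁)⁻¹ * linPoly S i₀,
        fun i => Polynomial.funext fun x => ?_⟩
      obtain ⟨s, t, hst, hne⟩ := hcon p₁ x
      have ht : t ≠ 0 := by
        intro ht0
        have h1 := hst i₀
        rw [ht0, zero_mul, add_zero, mul_eq_zero, or_iff_left hp₁] at h1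
        exact hne h1 ht0
      have hi := hst i
      have hi0 := hst i₀
      simp only [eval_mul, eval_C]
      have e1 : (linPoly S i).eval x = -(s / t) * (linPoly S i).eval p₁ := by
        field_simp
        linear_combination hi
      have e2 : (linPoly S i₀).eval x = -(s / t) * (linPoly S i₀).eval p₁ := by
        field_simp
        linear_combination hi0
      rw [e1, e2]
      field_simp
  have hp12 : p₁ ≠ p₂ := by
    intro h
    subst h
    have := hp 1 (-1) (fun i => by ring)
    exact one_ne_zero this.1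
  set s : k := (p₂ - p₁)⁻¹ with hs
  have hs0 : s ≠ 0 := inv_ne_zero (sub_ne_zero.2 hp12.symm)
  set S1 := S.translate (MvPowerSeries.C p₁) with hS1
  set S3 := S1.swap.translate (MvPowerSeries.C s) with hS3
  refine ⟨S3, (hS.translate hloc _).swap.translate hloc _, ?_⟩
  have hS3m : S3.InMax := (hS.translate hloc _).swap.translate hloc _
  refine hind_of_linc hS3m.d hS3m.a fun x y hxy => ?_
  have hd : ∀ i, linc i S3.d = (linPoly S i).eval p₁ := by
    intro i
    rw [← hval i p₁]
    rfl
  have ha : ∀ i, linc i S3.a = s ^ 3 * (linPoly S i).eval p₂ := by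
    intro i
    have e : S3.a = MvPowerSeries.C (s ^ 3) * (S.translate (MvPowerSeries.C p₂)).a := by
      have hsp : MvPowerSeries.C s * (MvPowerSeries.C p₂ - MvPowerSeries.C p₁) = (1 : PS d k) := by
        rw [← map_sub, ← map_mul, hs, inv_mul_cancel₀ (sub_ne_zero.2 hp12.symm), map_one]
      have hp2 : (MvPowerSeries.C (s ^ 3) : PS d k) * (S.translate (MvPowerSeries.C p₂)).a =
        MvPowerSeries.C s ^ 3 * (S.a + S.b * MvPowerSeries.C p₂ + S.c * MvPowerSeries.C p₂ ^ 2 +
        S.d * MvPowerSeries.C p₂ ^ 3) := by rw [map_pow]; rfl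
      rw [hp2]
      change S.d + (S.c + 3 * S.d * MvPowerSeries.C p₁) * MvPowerSeries.C s +
        (S.b + 2 * S.c * MvPowerSeries.C p₁ + 3 * S.d * MvPowerSeries.C p₁ ^ 2) *
          MvPowerSeries.C s ^ 2 +
        (S.a + S.b * MvPowerSeries.C p₁ + S.c * MvPowerSeries.C p₁ ^ 2 +
          S.d * MvPowerSeries.C p₁ ^ 3) * MvPowerSeries.C s ^ 3 = _
      set P : PS d k := MvPowerSeries.C p₁
      set P' : PS d k := MvPowerSeries.C p₂
      set σ : PS d k := MvPowerSeries.C s
      have h1 : σ * P' = 1 + σ * P := by linear_combination hsp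
      have e1 : σ ^ 3 * (S.a + S.b * P' + S.c * P' ^ 2 + S.d * P' ^ 3) =
        σ ^ 3 * S.a + σ ^ 2 * S.b * (σ * P') + σ * S.c * (σ * P') ^ 2 + S.d * (σ * P') ^ 3 := by
        ring
      rw [e1, h1]
      ring
    rw [e, linc_C_mul, hval]
  have h2 := hp x (y * s ^ 3) (fun i => by
    have := hxy i
    rw [hd, ha] at this
    rw [← this]; ring)
  refine ⟨h2.1, ?_⟩
  exact (mul_eq_zero.1 h2.2).resolve_right (pow_ne_zero _ hs0)

end Pool.Agent.WFT
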