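import Pool.Agent.WFT.Upper
import Pool.Agent.Lib_helper26.Ex.Final

/-!
# MP_7dd379_ag: the main theorem, from the upper bound and the example
-/

namespace Pool.Agent.WFT

universe u

open IsLocalRing

theorem fpt_le {p d : ℕ} (hd : 3 ≤ d) (R : Type u) [CommRing R] [IsDomain R] [IsLocalRing R]
    [IsNoetherianRing R] [IsIntegrallyClosed R] [hp : Fact p.Prime] [CharP R p] (hfin : FFin R p)
    (hpure : FrobSplits R p 1) (hdim : ringKrullDim R = d) (hng : NonQGorenstein R) :
    fpt R p (maximalIdeal R) ≤ (d : ℝ) - 3 / 2 := by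
  have h3' : (3 : ℝ) ≤ d := by exact_mod_cast hd
  refine Real.sSup_le ?_ (by linarith)
  rintro t ⟨-, ht⟩
  exact upper hd p R hfin hpure hdim hng t ht

theorem exists_fpt_eq (p d : ℕ) (hd : 3 ≤ d) [Fact p.Prime] :
    ∃ (R : Type u) (_ : CommRing R) (_ : IsDomain R)
    (_ : IsLocalRing R) (_ : IsNoetherianRing R) (_ : IsIntegrallyClosed R) (_ : CharP R p),
    FFin R p ∧ FrobSplits R p 1 ∧ ringKrullDim R = d ∧ NonQGorenstein R ∧
    fpt R p (maximalIdeal R) = (d : ℝ) - 3 / 2 := by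
  obtain ⟨R, _, _, h, ht⟩ := Ex26.exists_example.{u} p d hd
  have h1 := h.domain
  have h2 := h.noetherian
  have h3 := h.normal
  have h4 := h.char
  have hfin : FFin R p := h.ffinite
  refine ⟨R, _, h1, ‹_›, h2, h3, h4, hfin, h.fpure, h.dim, h.nonQGorenstein, ?_⟩
  have h3' : (3 : ℝ) ≤ d := by exact_mod_cast hd
  refine le_antisymm (fpt_le hd R hfin h.fpure h.dim h.nonQGorenstein) ?_
  refine le_of_forall_lt fun t ht' => ?_
  obtain ⟨s, hs1, hs2⟩ := exists_between (max_lt ht' (show (0 : ℝ) < (d : ℝ) - 3 / 2 by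
    linarith))
  refine lt_of_lt_of_le ((le_max_left _ _).trans_lt hs1) ?_
  have hs0 : 0 ≤ s := ((le_max_right t 0).trans_lt hs1).le
  refine le_csSup ⟨(d : ℝ) - 3 / 2, ?_⟩ ⟨hs0, ht s hs2⟩
  rintro s' ⟨-, hs'⟩
  exact upper hd p R hfin h.fpure h.dim h.nonQGorenstein s' hs'

theorem coeSubmodule_pow' (R K : Type*) [CommRing R] [CommRing K] [Algebra R K] (I : Ideal R)
    (n : ℕ) : IsLocalization.coeSubmodule K (I ^ n) = IsLocalization.coeSubmodule K I ^ n := by
  induction n with
  | zero => rw [pow_zero, pow_zero, Ideal.one_eq_top, IsLocalization.coeSubmodule_top]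
  | succ n ih => rw [pow_succ, pow_succ, IsLocalization.coeSubmodule_mul, ih]

/-- elementwise description of `PrinPow` for ideals -/
theorem prinPow_iff (R : Type u) [CommRing R] [IsDomain R] (I : Ideal R) (n : ℕ) :
    PrinPow (IsLocalization.coeSubmodule (FractionRing R) I) n ↔
    ∃ c : FractionRing R, ∀ x : FractionRing R,
      (∀ y ∈ I ^ n, ∃ r : R, x * algebraMap R (FractionRing R) y =
        algebraMap R (FractionRing R) r) ↔ ∃ r : R, x = algebraMap R (FractionRing R) r * c := by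
  have key : ∀ x : FractionRing R,
      x ∈ (1 : Submodule R (FractionRing R)) / IsLocalization.coeSubmodule (FractionRing R) I ^ n ↔
      ∀ y ∈ I ^ n, ∃ r : R, x * algebraMap R (FractionRing R) y =
        algebraMap R (FractionRing R) r := by
    intro x
    rw [Submodule.mem_div_iff_forall_mul_mem, ← coeSubmodule_pow']
    constructor
    · intro h y hy
      obtain ⟨r, hr⟩ := Submodule.mem_one.1 (h _ (IsLocalization.mem_coeSubmodule _ _ |>.2
        ⟨y, hy, rfl⟩))
      exact ⟨r, hr.symm⟩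
    · intro h z hz
      obtain ⟨y, hy, rfl⟩ := (IsLocalization.mem_coeSubmodule _ _).1 hz
      obtain ⟨r, hr⟩ := h y hy
      exact Submodule.mem_one.2 ⟨r, hr.symm⟩
  constructor
  · rintro ⟨c, hc⟩
    refine ⟨c, fun x => ?_⟩
    rw [← key, hc, Submodule.mem_span_singleton]
    constructor
    · rintro ⟨r, rfl⟩
      exact ⟨r, Algebra.smul_def _ _⟩
    · rintro ⟨r, rfl⟩
      exact ⟨r, Algebra.smul_def _ _⟩
  · rintro ⟨c, hc⟩
    refine ⟨c, ?_⟩
    ext x
    rw [key, hc, Submodule.mem_span_singleton]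
    constructor
    · rintro ⟨r, rfl⟩
      exact ⟨r, Algebra.smul_def _ _⟩
    · rintro ⟨r, rfl⟩
      exact ⟨r, Algebra.smul_def _ _⟩

end Pool.Agent.WFT
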