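import Pool.Agent.WFT.Mods22

/-!
The completion of a ring with large F-pure threshold is a finite free algebra over a power series
ring with `m_T ^ 2 ≤ m_A m_T`.
-/

namespace Pool.Agent.WFT

universe u

open IsLocalRing Pool.Agent.CN Pool.Agent.SFR

theorem stmtExt : StmtExt.{u} := by
  intro R _ _ _ q _ φ hφ
  exact H35.SFR.exists_ext_adicCompletion hφ

theorem ffin_of_surjective {p : ℕ} [Fact p.Prime] {R S : Type*} [CommRing R] [CommRing S]
    [CharP R p] [CharP S p] (f : R →+* S) (hf : Function.Surjective f) (h : FFin R p) :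
    FFin S p := by
  have h1 : (frobenius S p).comp f = f.comp (frobenius R p) := by
    ext x
    simp [frobenius_def]
  have h2 : ((frobenius S p).comp f).Finite := by
    rw [h1]
    exact (RingHom.Finite.of_surjective f hf).comp h
  exact RingHom.Finite.of_comp_finite h2

theorem charP_residueField {p : ℕ} [Fact p.Prime] (R : Type*) [CommRing R] [IsLocalRing R]
    [CharP R p] : CharP (ResidueField R) p := by
  refine (CharP.charP_iff_prime_eq_zero Fact.out).mpr ?_
  have : ((p : ℕ) : R) = 0 := CharP.cast_eq_zero R p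
  rw [← map_natCast (residue R), this, map_zero]

section Adic

variable (R : Type*) [CommRing R] [IsLocalRing R] [IsNoetherianRing R]

theorem residue_adic_surjective :
    Function.Surjective ((residue (AdicCompletion (maximalIdeal R) R)).comp
      (algebraMap R (AdicCompletion (maximalIdeal R) R))) := by
  intro y
  obtain ⟨x, rfl⟩ := residue_surjective y
  obtain ⟨r, hr⟩ := (H35.SFR.isCompl_adicCompletion (R := R)).dense 1 x
  refine ⟨r, ?_⟩
  rw [pow_one] at hr
  rw [RingHom.comp_apply, ← sub_eq_zero, ← map_sub, residue_eq_zero_iff]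
  have h2 := neg_mem hr
  rwa [neg_sub] at h2

theorem infinite_residueField_adic [Infinite (ResidueField R)] :
    Infinite (ResidueField (AdicCompletion (maximalIdeal R) R)) :=
  Infinite.of_injective
    (ResidueField.map (algebraMap R (AdicCompletion (maximalIdeal R) R)))
    (RingHom.injective _)

variable {R}

theorem hasSplit_adic {q N : ℕ} (h : HasSplit R q N) :
    HasSplit (AdicCompletion (maximalIdeal R) R) q N := by
  obtain ⟨f, hf, φ, hφ, h1⟩ := h
  obtain ⟨ψ, hψ, hψ2⟩ := H35.SFR.exists_ext_adicCompletion hφ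
  exact ⟨algebraMap _ _ f, (H35.SFR.isCompl_adicCompletion (R := R)).map N f hf, ψ, hψ,
    by rw [hψ2, h1, map_one]⟩

end Adic

/-- `Big` implies the slope condition `d - 2`. -/
theorem slope_of_big {R : Type*} [CommRing R] [IsLocalRing R] {p d : ℕ} (hd : 2 ≤ d)
    (h : Big R p d) :
    ∀ C : ℕ, ∃ e N : ℕ, (d - 2) * p ^ e + C ≤ N ∧ HasSplit R (p ^ e) N := by
  intro C
  obtain ⟨e, N, h1, h2⟩ := h (2 * C)
  refine ⟨e, N, ?_, h2⟩
  obtain ⟨d', rfl⟩ := Nat.exists_eq_add_of_le hd
  have h3 : 2 * (2 + d') - 3 = 2 * d' + 1 := by omega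
  rw [h3] at h1
  rw [Nat.add_sub_cancel_left]
  have h4 : (2 * d' + 1) * p ^ e = 2 * (d' * p ^ e) + p ^ e := by ring
  omega

/-- Complete case. -/
theorem exists_model_complete (p : ℕ) [Fact p.Prime] (d : ℕ) (hd2 : 2 ≤ d) (T : Type u)
    [CommRing T] [IsDomain T] [IsNoetherianRing T] [IsLocalRing T] [CharP T p]
    [IsAdicComplete (maximalIdeal T) T] [CharP (ResidueField T) p]
    (hk : FFin (ResidueField T) p) [Infinite (ResidueField T)]
    (hd : ringKrullDim T = d) (hsfr : SFR T p)
    (hsplit : ∀ C : ℕ, ∃ e N : ℕ, (d - 2) * p ^ e + C ≤ N ∧ HasSplit T (p ^ e) N) :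
    ∃ (k : Type u) (_ : Field k) (_ : CharP k p) (_ : Infinite k) (_ : Algebra (PS d k) T),
      FFin k p ∧ Module.Finite (PS d k) T ∧ Module.Free (PS d k) T ∧ MM d k T := by
  obtain ⟨s, hs⟩ := exists_coefficientField T p
  obtain ⟨F, hF1, hF2, hF3, hF4⟩ := exists_noether_red T hd s hs
  let _ : Algebra (PS d (ResidueField T)) T := F.toAlgebra
  have hfin : Module.Finite (PS d (ResidueField T)) T := hF2
  have hinj : Function.Injective (algebraMap (PS d (ResidueField T)) T) := hF3
  have hfree : Module.Free (PS d (ResidueField T)) T :=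
    free_of_splitting p (fun c hc => hsfr _ fun h0 => hc (hinj (by rw [h0, map_zero])))
  have hmax : (maximalIdeal (PS d (ResidueField T))).map (algebraMap (PS d (ResidueField T)) T) =
      Ideal.span (Set.range fun i => F (MvPowerSeries.X i)) := by
    rw [maximalIdeal_mvPowerSeries, Ideal.map_span, ← Set.range_comp]
    rfl
  have hMM : MM d (ResidueField T) T := by
    refine stmtMinMult p d (ResidueField T) T hinj hsfr ?_ ?_ hd2 hsplit
    · intro t
      refine ⟨residue T t, ?_⟩
      have h1 : algebraMap (PS d (ResidueField T)) T (MvPowerSeries.C (residue T t)) =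
          s (residue T t) := hF1 _
      rw [h1, ← residue_eq_zero_iff, map_sub, hs, sub_self]
    · obtain ⟨n, hn⟩ := hF4.2
      refine ⟨n, le_antisymm ?_ ?_⟩
      · rw [hmax]
        exact hn
      · rw [pow_succ']
        refine Ideal.mul_mono_left ?_
        rw [hmax, Ideal.span_le]
        rintro _ ⟨i, rfl⟩
        exact hF4.1 i
  exact ⟨ResidueField T, inferInstance, inferInstance, inferInstance, inferInstance, hk, hfin,
    hfree, hMM⟩

/-- **Model**: the completion of a ring with slope more than `d - 2`. -/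
theorem exists_model (p : ℕ) [Fact p.Prime] (d : ℕ) (hd2 : 2 ≤ d) (R : Type u) [CommRing R]
    [IsDomain R] [IsNoetherianRing R] [IsLocalRing R] [IsIntegrallyClosed R] [CharP R p]
    (hfin : FFin R p) [Infinite (ResidueField R)] (hd : ringKrullDim R = d)
    (hsplit : ∀ C : ℕ, ∃ e N : ℕ, (d - 2) * p ^ e + C ≤ N ∧ HasSplit R (p ^ e) N) :
    SFR R p ∧ ∃ (_ : IsDomain (AdicCompletion (maximalIdeal R) R))
      (_ : IsNoetherianRing (AdicCompletion (maximalIdeal R) R))
      (_ : CharP (AdicCompletion (maximalIdeal R) R) p)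
      (_ : IsIntegrallyClosed (AdicCompletion (maximalIdeal R) R)),
      SFR (AdicCompletion (maximalIdeal R) R) p ∧
      ringKrullDim (AdicCompletion (maximalIdeal R) R) = d ∧
      Infinite (ResidueField (AdicCompletion (maximalIdeal R) R)) ∧
      ∃ (k : Type u) (_ : Field k) (_ : CharP k p) (_ : Infinite k)
        (_ : Algebra (PS d k) (AdicCompletion (maximalIdeal R) R)),
        FFin k p ∧ Module.Finite (PS d k) (AdicCompletion (maximalIdeal R) R) ∧
        Module.Free (PS d k) (AdicCompletion (maximalIdeal R) R) ∧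
        MM d k (AdicCompletion (maximalIdeal R) R) := by
  have hsfr : SFR R p := stmtSFR1 p d R hfin inferInstance hd hd2 hsplit
  obtain ⟨hdom, hsfrT⟩ := stmtSFR2 p R hfin hsfr
  have hnoeth := isNoetherianRing_adicCompletion R p
  have hchar := charP_adicCompletion R p
  have hic := stmtSFRNormal p _ hsfrT
  have hdim : ringKrullDim (AdicCompletion (maximalIdeal R) R) = d := by
    rw [ringKrullDim_adicCompletion, hd]
  have hinf := infinite_residueField_adic R
  have hck := charP_residueField (p := p) (AdicCompletion (maximalIdeal R) R)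
  have hk : FFin (ResidueField (AdicCompletion (maximalIdeal R) R)) p :=
    ffin_of_surjective _ (residue_adic_surjective R) hfin
  refine ⟨hsfr, hdom, hnoeth, hchar, hic, hsfrT, hdim, hinf, ?_⟩
  exact exists_model_complete p d hd2 _ hk hdim hsfrT
    (fun C => by
      obtain ⟨e, N, h1, h2⟩ := hsplit C
      exact ⟨e, N, h1, hasSplit_adic h2⟩)

theorem big_adic {R : Type*} [CommRing R] [IsLocalRing R] [IsNoetherianRing R] {p d : ℕ}
    (h : Big R p d) : Big (AdicCompletion (maximalIdeal R) R) p d := by
  intro C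
  obtain ⟨e, N, h1, h2⟩ := h C
  exact ⟨e, N, h1, hasSplit_adic h2⟩

end Pool.Agent.WFT
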