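import Pool.Agent.WFT.CoordReg
import Pool.Agent.WFT.Defs

/-!
Regular pairs from independence modulo `m^2` in `PS d k`, given the coordinate theorem C1.
-/

namespace Pool.Agent.WFT

open MvPowerSeries IsLocalRing

/-- if `x₁, x₂` are independent modulo `m^2`, so are `x₁, x₂ - x₁` -/
theorem hind_sub {A : Type*} [CommRing A] [IsLocalRing A] {x₁ x₂ : A}
    (h : ∀ u v : A, u * x₁ + v * x₂ ∈ maximalIdeal A ^ 2 →
      u ∈ maximalIdeal A ∧ v ∈ maximalIdeal A) :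
    ∀ u v : A, u * x₁ + v * (x₂ - x₁) ∈ maximalIdeal A ^ 2 →
      u ∈ maximalIdeal A ∧ v ∈ maximalIdeal A := by
  intro u v huv
  have h1 : (u - v) * x₁ + v * x₂ ∈ maximalIdeal A ^ 2 := by
    have : (u - v) * x₁ + v * x₂ = u * x₁ + v * (x₂ - x₁) := by ring
    rw [this]; exact huv
  obtain ⟨h2, h3⟩ := h _ _ h1
  refine ⟨?_, h3⟩
  have := add_mem h2 h3
  rwa [sub_add_cancel] at this

/-- the statement of the coordinate theorem C1 (ring isomorphism version) -/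
def StmtC1 (d : ℕ) (k : Type*) [Field k] : Prop :=
  ∀ (i j : Fin d), i ≠ j → ∀ x y : PS d k, x ∈ maximalIdeal (PS d k) → y ∈ maximalIdeal (PS d k) →
    (∀ u v : PS d k, u * x + v * y ∈ maximalIdeal (PS d k) ^ 2 →
      u ∈ maximalIdeal (PS d k) ∧ v ∈ maximalIdeal (PS d k)) →
    ∃ ψ : PS d k ≃+* PS d k, ψ (X i) = x ∧ ψ (X j) = y

/-- regular pairs in `PS d k` -/
theorem regPair_of_hind {d : ℕ} {k : Type*} [Field k] (hC1 : StmtC1 d k) (hd : 2 ≤ d) {x y : PS d k}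
    (hx : x ∈ maximalIdeal (PS d k)) (hy : y ∈ maximalIdeal (PS d k))
    (h : ∀ u v : PS d k, u * x + v * y ∈ maximalIdeal (PS d k) ^ 2 →
      u ∈ maximalIdeal (PS d k) ∧ v ∈ maximalIdeal (PS d k)) :
    RegPair x y ∧ RegPair x (y - x) := by
  have hij : (⟨0, by omega⟩ : Fin d) ≠ ⟨1, by omega⟩ := by
    intro h0
    have := congrArg Fin.val h0
    simp at this
  constructor
  · obtain ⟨ψ, h1, h2⟩ := hC1 _ _ hij x y hx hy h
    rw [← h1, ← h2]
    exact (regPair_X hij).map ψ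
  · obtain ⟨ψ, h1, h2⟩ := hC1 _ _ hij x (y - x) hx (sub_mem hy hx) (hind_sub h)
    have h3 := (regPair_X (k := k) hij).map ψ
    rwa [h1, h2] at h3

end Pool.Agent.WFT
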