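import Pool.Agent.WFT.Assembly
import Pool.Agent.WFT.E8
import Pool.Agent.Lib_helper92.RX.Basic
import Pool.Agent.Lib_helper12.WFT.Export
import Pool.Agent.Lib_helper84.Cub.WFTStmts
import Pool.Agent.Lib_helper77.FB.Pole
import Pool.Agent.Lib_helper56.NB.PSNorm

/-!
# MP_7dd379_ag: the upper bound
-/

namespace Pool.Agent.WFT

universe u

open IsLocalRing Polynomial

theorem stmtE3 : StmtE3.{u} := by
  intro p _ d hd k T L _ _ _ _ _ _ _ _ _ _ _ _ _ _ hF hMM hrank
  exact rank_three_dichotomy' stmtCubic stmtFedder Pool.Agent.Lib_helper77.FB.stmtPole stmtKer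
    stmtPhi stmtOmega3 hd hF hMM hrank L

/-- **The upper bound.** -/
theorem upper {d : ℕ} (hd : 3 ≤ d) (p : ℕ) (R : Type u) [CommRing R] [IsDomain R] [IsLocalRing R]
    [IsNoetherianRing R] [IsIntegrallyClosed R] [hp : Fact p.Prime] [CharP R p] (hfin : FFin R p)
    (hpure : FrobSplits R p 1) (hdim : ringKrullDim R = d) (hng : NonQGorenstein R) (t : ℝ)
    (ht : FPurePair R p (maximalIdeal R) t) : t ≤ (d : ℝ) - 3 / 2 := by
  by_contra hcon
  push Not at hcon
  have hbig : Big R p d := big_of_pair hp.out (by omega) hcon ht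
  have hbig₁ : Big (RX.RX R) p d := RX.big R p d hbig
  obtain ⟨_, _, _, k, _, _, _, _, _, _, hkfin, hMM, hbigT, -⟩ := exists_algebra p d hd (RX.RX R)
    (RX.ffin R p hfin) inferInstance ((RX.ringKrullDim_RX R).trans hdim) hbig₁
  obtain ⟨I, hcan, hI⟩ := hng
  obtain ⟨φ, hφ, h1⟩ := hpure
  have hφ0 : φ ≠ 0 := by
    rintro rfl
    exact zero_ne_one h1
  obtain ⟨m, hm, hm'⟩ := WFT12.canon_export p R hfin 1 one_pos φ (by rwa [pow_one]) hφ0 d k hkfin
    (fun W hW => stmtT (Pool.Agent.NB.stmtNorm stmtPhi) stmtE3 p d hd k _ _ hkfin hMM hbigT W hW)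
    I hcan
  exact hI m hm hm'

end Pool.Agent.WFT
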